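import Pool.Agent.ASE.Stmts

/-!
THEOREM A* FOR ARBITRARY `-1` (notes 1876, 1881): basic lemmas about a prime functional.
-/

set_option autoImplicit false

namespace Pool.Agent.ASE

open scoped BigOperators
open Pool.Agent.RFT Pool.Agent.AST
open Pool.Agent.Helper58.PLine (QData)

variable {V B Q : Type} [AddCommGroup V] [Module (ZMod 2) V] [AddCommGroup B] [Module (ZMod 2) B]

/-! ### Set valued situation -/

/-- `q x x = q x e` -/
theorem dwu (D : QData V Q) (x : V) : D.q x x = D.q x D.e := (dq D).2 (D.diag x)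

namespace SitD

variable {D : QData V Q} {φ : V →ₗ[ZMod 2] ZMod 2}

theorem phw (hS : SitD D φ) {w : V} (hw : φ w = 1) : φ (w + D.e) = 1 := by
  rw [map_add, hw, hS.phe, add_zero]

theorem phw0 (hS : SitD D φ) {w : V} (hw : φ w = 0) : φ (w + D.e) = 0 := by
  rw [map_add, hw, hS.phe, add_zero]

/-- an element outside `H` -/
theorem out (hS : SitD D φ) : ∃ w, φ w = 1 := by
  by_contra h
  apply hS.ph
  ext v
  rcases z2 (φ v) with h1 | h1
  · exact h1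
  · exact absurd ⟨v, h1⟩ h

theorem zero_mem (hS : SitD D φ) : NS D φ 0 := by
  obtain ⟨w, hw⟩ := hS.out
  exact ⟨map_zero φ, w, hw, dz' D w⟩

/-- (W) for a plane in `N` -/
theorem W (hS : SitD D φ) {h g : V} (h1 : NS D φ h) (h2 : NS D φ g) (h3 : NS D φ (h + g)) :
    ∃ w, φ w = 1 ∧ D.q h w = D.z ∧ D.q g w = D.z := by
  obtain ⟨v, h4, h5, h6⟩ := hS.pr h g
    (by obtain ⟨-, w, hw, hw'⟩ := h1; exact ⟨w, hw', hw⟩)
    (by obtain ⟨-, w, hw, hw'⟩ := h2; exact ⟨w, hw', hw⟩)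
    (by obtain ⟨-, w, hw, hw'⟩ := h3; exact ⟨w, hw', hw⟩)
  exact ⟨v, h6, h4, h5⟩

/-- (S) -/
theorem S (hS : SitD D φ) {h w : V} (h1 : NS D φ h) (h2 : φ w = 1) :
    ∃ w', φ w' = 1 ∧ D.q h w' = D.z ∧ D.q w w' = D.z := by
  obtain ⟨h0, w1, hw1, hw1'⟩ := h1
  obtain ⟨v, h4, h5, h6⟩ := hS.pr h w ⟨w1, hw1', hw1⟩ ⟨w + D.e, D.diag w, hS.phw h2⟩
    ⟨h + w + D.e, D.diag _, hS.phw (by rw [map_add, h0, h2, zero_add])⟩
  exact ⟨v, h6, h4, h5⟩

/-- (1a) -/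
theorem slotH (hS : SitD D φ) {w h : V} {c : Q} (hw : φ w = 1) (hh : φ h = 0)
    (h1 : ∃ v, D.q w v = c) (h2 : QHS D φ h c) : ∃ s, φ s = 0 ∧ D.q w s = c ∧ D.q h s = c := by
  obtain ⟨v, hv⟩ := h1
  obtain ⟨y, hy, hy'⟩ := h2
  obtain ⟨s, hs, hs'⟩ := dlink D hv hy'
  rcases z2 (φ s) with h3 | h3
  · exact ⟨s, h3, hs, hs'⟩
  · have hN : NS D φ h := ⟨hh, s + y, by rw [map_add, h3, hy, add_zero],
      (dq D).1 (hs'.trans hy'.symm)⟩
    obtain ⟨w', h4, h5, h6⟩ := hS.S hN hw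
    exact ⟨s + w', by rw [map_add, h3, h4, one_add_one2], by rw [dq_add D h6, hs],
      by rw [dq_add D h5, hs']⟩

/-- (1c) -/
theorem slot2 (hS : SitD D φ) {h g : V} {c : Q} (hh : φ h = 0) (hg : φ g = 0)
    (h1 : QHS D φ h c) (h2 : QHS D φ g c) : ∃ s, φ s = 0 ∧ D.q h s = c ∧ D.q g s = c := by
  obtain ⟨y, hy, hy'⟩ := h1
  obtain ⟨y1, hy1, hy1'⟩ := h2
  obtain ⟨s, hs, hs'⟩ := dlink D hy' hy1'
  rcases z2 (φ s) with h3 | h3
  · exact ⟨s, h3, hs, hs'⟩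
  · have hN : NS D φ h := ⟨hh, s + y, by rw [map_add, h3, hy, add_zero],
      (dq D).1 (hs.trans hy'.symm)⟩
    have hN' : NS D φ g := ⟨hg, s + y1, by rw [map_add, h3, hy1, add_zero],
      (dq D).1 (hs'.trans hy1'.symm)⟩
    have hN2 : NS D φ (h + g) := ⟨by rw [map_add, hh, hg, add_zero], s, h3,
      (dq' D).1 (hs.trans hs'.symm)⟩
    obtain ⟨w, h4, h5, h6⟩ := hS.W hN hN' hN2
    exact ⟨s + w, by rw [map_add, h3, h4, one_add_one2], by rw [dq_add D h5, hs],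
      by rw [dq_add D h6, hs']⟩

/-- elements of `N` have all their values in `H` -/
theorem NQ (_ : SitD D φ) {h : V} (h1 : NS D φ h) (v : V) : QHS D φ h (D.q h v) := by
  obtain ⟨-, w, hw, hw'⟩ := h1
  rcases z2 (φ v) with h3 | h3
  · exact ⟨v, h3, rfl⟩
  · exact ⟨v + w, by rw [map_add, h3, hw, one_add_one2], dq_add D hw'⟩

theorem QN (_ : SitD D φ) {h w : V} (hh : φ h = 0) (hw : φ w = 1)
    (h1 : QHS D φ h (D.q h w)) : NS D φ h := by
  obtain ⟨y, hy, hy'⟩ := h1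
  exact ⟨hh, w + y, by rw [map_add, hw, hy, add_zero], (dq D).1 hy'.symm⟩

/-- first half of (1b) -/
theorem b1' (_ : SitD D φ) {z g : V} {c : Q} (hz : φ z = 0) (hg : φ g = 0)
    (h1 : ∃ y, D.q z y = c) (h2 : ¬ QHS D φ z c) (h3 : ∃ y, D.q g y = c) : NS D φ (z + g) := by
  obtain ⟨y, hy⟩ := h1
  obtain ⟨y', hy'⟩ := h3
  obtain ⟨s, hs, hs'⟩ := dlink D hy hy'
  rcases z2 (φ s) with h4 | h4
  · exact absurd ⟨s, h4, hs⟩ h2
  · exact ⟨by rw [map_add, hz, hg, add_zero], s, h4, (dq' D).1 (hs.trans hs'.symm)⟩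

/-- (1b) -/
theorem b1 (hS : SitD D φ) {z g : V} {c : Q} (hz : φ z = 0) (hg : φ g = 0)
    (h1 : ∃ y, D.q z y = c) (h2 : ¬ QHS D φ z c) (h3 : QHS D φ g c) :
    NS D φ (z + g) ∧ NS D φ g := by
  obtain ⟨g', hg', hgg⟩ := h3
  refine ⟨hS.b1' hz hg h1 h2 ⟨g', hgg⟩, ?_⟩
  obtain ⟨y, hy⟩ := h1
  have h6 : ¬ QHS D φ z (D.q z (y + g')) := by
    rintro ⟨u, hu, hu'⟩
    apply h2
    refine ⟨u + g', by rw [map_add, hu, hg', add_zero], ?_⟩
    rw [← hy, dq]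
    rw [dq] at hu'
    rwa [show u + g' + y = u + (y + g') by abel]
  have h7 : D.q (z + g) g' = D.q z (y + g') := by
    have e1 : D.q z y = D.q g' g := by rw [hy, D.symm g' g, hgg]
    have e2 : D.q z g' = D.q g' z := D.symm _ _
    rw [dsum D e1 e2, D.symm, add_comm g z]
  have h8 := hS.b1' hz (by rw [map_add, hz, hg, add_zero]) ⟨y + g', rfl⟩ h6 ⟨g', h7⟩
  rwa [← add_assoc, self_add, zero_add] at h8

/-- `H` is nondegenerate -/
theorem nd (hS : SitD D φ) {h : V} (h1 : ∀ y, φ y = 0 → D.q h y = D.z) : h = 0 := by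
  apply hS.r1
  intro v w
  rcases z2 (φ v) with h2 | h2
  · exact Or.inl (h1 v h2)
  · rcases z2 (φ w) with h3 | h3
    · exact Or.inr (Or.inl (h1 w h3))
    · exact Or.inr (Or.inr (h1 _ (by rw [map_add, h2, h3, one_add_one2])))

/-- elements of `H` commuting with an element outside `H` -/
theorem mkN (_ : SitD D φ) {h w : V} (hh : φ h = 0) (hw : φ w = 1) (h1 : D.q h w = D.z) :
    NS D φ h := ⟨hh, w, hw, h1⟩

end SitD

namespace SitH

variable {q : V →ₗ[ZMod 2] V →ₗ[ZMod 2] B} {φ : V →ₗ[ZMod 2] ZMod 2} {e : V}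

theorem phw (hS : SitH q φ e) {w : V} (hw : φ w = 1) : φ (w + e) = 1 := by
  rw [map_add, hw, hS.phe, add_zero]

theorem phw0 (hS : SitH q φ e) {w : V} (hw : φ w = 0) : φ (w + e) = 0 := by
  rw [map_add, hw, hS.phe, add_zero]

/-- `x + e ∈ V_x` -/
theorem diag (hS : SitH q φ e) (x : V) : q x (x + e) = 0 := by
  rw [map_add, hS.wu, self_add]

theorem diag' (hS : SitH q φ e) (x : V) : q (x + e) x = 0 := by
  rw [hS.symm, hS.diag]

end SitH

namespace SitS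

variable {D : QData V Q} {q : V →ₗ[ZMod 2] V →ₗ[ZMod 2] B} {φ : V →ₗ[ZMod 2] ZMod 2}

theorem cmp0 (hS : SitS D q φ) {a b : V} (ha : φ a = 0) (hb : φ b = 0) :
    q a b = 0 ↔ D.q a b = D.z := by
  have h := hS.cmp a b 0 0 ha hb (map_zero φ) (map_zero φ)
  rw [map_zero, dz] at h
  exact h

/-- the restriction to `H` -/
theorem toSitH (hS : SitS D q φ) : SitH q φ D.e where
  phe := hS.phe
  symm := hS.symm
  wu := hS.wu
  link := by
    intro a b c d ha hb hc hd e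
    obtain ⟨s, h1, h2, h3⟩ := hS.slot2 (c := D.q a b) ha hc ⟨b, hb, rfl⟩
      ⟨d, hd, ((hS.cmp a b c d ha hb hc hd).1 e).symm⟩
    exact ⟨s, h1, (hS.cmp _ _ _ _ ha h1 ha hb).2 h2, (hS.cmp _ _ _ _ hc h1 ha hb).2 h3⟩
  nd := fun x hx h => hS.nd fun y hy => (hS.cmp0 hx hy).1 (h y hy)

/-- `QH` and `QHS` -/
theorem qh (hS : SitS D q φ) {h a b : V} (hh : φ h = 0) (ha : φ a = 0) (hb : φ b = 0) :
    QH q φ h (q a b) ↔ QHS D φ h (D.q a b) := by
  constructor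
  · rintro ⟨y, hy, e⟩
    exact ⟨y, hy, (hS.cmp _ _ _ _ hh hy ha hb).1 e⟩
  · rintro ⟨y, hy, e⟩
    exact ⟨y, hy, (hS.cmp _ _ _ _ hh hy ha hb).2 e⟩

end SitS

/-! ### Group valued situation -/

namespace Sit

variable {q : V →ₗ[ZMod 2] V →ₗ[ZMod 2] B} {φ : V →ₗ[ZMod 2] ZMod 2} {e : V}

theorem symm (hS : Sit q φ e) (x y : V) : q x y = q y x := hS.lk.symm x y

theorem wu (hS : Sit q φ e) (x : V) : q x x = q x e := hS.lk.wu x

/-- `x + e ∈ V_x` -/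
theorem diag (hS : Sit q φ e) (x : V) : q x (x + e) = 0 := by
  rw [map_add, hS.wu, self_add]

theorem diag' (hS : Sit q φ e) (x : V) : q (x + e) x = 0 := by
  rw [hS.symm, hS.diag]

theorem phw (hS : Sit q φ e) {w : V} (hw : φ w = 1) : φ (w + e) = 1 := by
  rw [map_add, hw, hS.phe, add_zero]

theorem phw0 (hS : Sit q φ e) {w : V} (hw : φ w = 0) : φ (w + e) = 0 := by
  rw [map_add, hw, hS.phe, add_zero]

theorem link (hS : Sit q φ e) {a b c d : V} {s : B} (h1 : q a b = s) (h2 : q c d = s) :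
    ∃ x, q a x = s ∧ q c x = s := by
  obtain ⟨x, h3, h4⟩ := hS.lk.link a b c d (h1.trans h2.symm)
  exact ⟨x, h3.trans h1, h4.trans h1⟩

theorem phi_ne (hS : Sit q φ e) : φ ≠ 0 := hS.pr.1

/-- an element outside `H` -/
theorem out (hS : Sit q φ e) : ∃ w, φ w = 1 := by
  by_contra h
  apply hS.phi_ne
  ext v
  rcases z2 (φ v) with h1 | h1
  · exact h1
  · exact absurd ⟨v, h1⟩ h

theorem zero_mem (hS : Sit q φ e) : NN q φ 0 := by
  obtain ⟨w, hw⟩ := hS.out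
  exact ⟨map_zero φ, w, hw, by rw [map_zero, LinearMap.zero_apply]⟩

/-- (W) for a plane in `N` -/
theorem W (hS : Sit q φ e) {h g : V} (h1 : NN q φ h) (h2 : NN q φ g) (h3 : NN q φ (h + g)) :
    ∃ w, φ w = 1 ∧ q h w = 0 ∧ q g w = 0 := by
  obtain ⟨v, h4, h5, h6⟩ := hS.pr.2 h g
    (by obtain ⟨-, w, hw, hw'⟩ := h1; exact ⟨w, hw', hw⟩)
    (by obtain ⟨-, w, hw, hw'⟩ := h2; exact ⟨w, hw', hw⟩)
    (by obtain ⟨-, w, hw, hw'⟩ := h3; exact ⟨w, hw', hw⟩)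
  exact ⟨v, h6, h4, h5⟩

/-- (S) -/
theorem S (hS : Sit q φ e) {h w : V} (h1 : NN q φ h) (h2 : φ w = 1) :
    ∃ w', φ w' = 1 ∧ q h w' = 0 ∧ q w w' = 0 := by
  obtain ⟨h0, w1, hw1, hw1'⟩ := h1
  obtain ⟨v, h4, h5, h6⟩ := hS.pr.2 h w ⟨w1, hw1', hw1⟩ ⟨w + e, hS.diag w, hS.phw h2⟩
    ⟨h + w + e, hS.diag _, hS.phw (by rw [map_add, h0, h2, zero_add])⟩
  exact ⟨v, h6, h4, h5⟩

/-- (1a) -/
theorem slotH (hS : Sit q φ e) {w h : V} {c : B} (hw : φ w = 1) (hh : φ h = 0)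
    (h1 : ∃ v, q w v = c) (h2 : QH q φ h c) : ∃ s, φ s = 0 ∧ q w s = c ∧ q h s = c := by
  obtain ⟨v, hv⟩ := h1
  obtain ⟨y, hy, hy'⟩ := h2
  obtain ⟨s, hs, hs'⟩ := hS.link hv hy'
  rcases z2 (φ s) with h3 | h3
  · exact ⟨s, h3, hs, hs'⟩
  · have hN : NN q φ h := ⟨hh, s + y, by rw [map_add, h3, hy, add_zero],
      by rw [map_add, hs', hy', self_add]⟩
    obtain ⟨w', h4, h5, h6⟩ := hS.S hN hw
    exact ⟨s + w', by rw [map_add, h3, h4, one_add_one2], by rw [map_add, hs, h6, add_zero],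
      by rw [map_add, hs', h5, add_zero]⟩

/-- (1c) -/
theorem slot2 (hS : Sit q φ e) {h g : V} {c : B} (hh : φ h = 0) (hg : φ g = 0)
    (h1 : QH q φ h c) (h2 : QH q φ g c) : ∃ s, φ s = 0 ∧ q h s = c ∧ q g s = c := by
  obtain ⟨y, hy, hy'⟩ := h1
  obtain ⟨y1, hy1, hy1'⟩ := h2
  obtain ⟨s, hs, hs'⟩ := hS.link hy' hy1'
  rcases z2 (φ s) with h3 | h3
  · exact ⟨s, h3, hs, hs'⟩
  · have hN : NN q φ h := ⟨hh, s + y, by rw [map_add, h3, hy, add_zero],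
      by rw [map_add, hs, hy', self_add]⟩
    have hN' : NN q φ g := ⟨hg, s + y1, by rw [map_add, h3, hy1, add_zero],
      by rw [map_add, hs', hy1', self_add]⟩
    have hN2 : NN q φ (h + g) := ⟨by rw [map_add, hh, hg, add_zero], s, h3,
      by rw [map_add, LinearMap.add_apply, hs, hs', self_add]⟩
    obtain ⟨w, h4, h5, h6⟩ := hS.W hN hN' hN2
    exact ⟨s + w, by rw [map_add, h3, h4, one_add_one2], by rw [map_add, hs, h5, add_zero],
      by rw [map_add, hs', h6, add_zero]⟩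

/-- elements of `N` have all their values in `H` -/
theorem NQ (_ : Sit q φ e) {h : V} (h1 : NN q φ h) (v : V) : QH q φ h (q h v) := by
  obtain ⟨-, w, hw, hw'⟩ := h1
  rcases z2 (φ v) with h3 | h3
  · exact ⟨v, h3, rfl⟩
  · exact ⟨v + w, by rw [map_add, h3, hw, one_add_one2], by rw [map_add, hw', add_zero]⟩

theorem QN (_ : Sit q φ e) {h w : V} (hh : φ h = 0) (hw : φ w = 1) (h1 : QH q φ h (q h w)) :
    NN q φ h := by
  obtain ⟨y, hy, hy'⟩ := h1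
  exact ⟨hh, w + y, by rw [map_add, hw, hy, add_zero], by rw [map_add, hy', self_add]⟩

/-- first half of (1b) -/
theorem b1' (hS : Sit q φ e) {z g : V} {c : B} (hz : φ z = 0) (hg : φ g = 0)
    (h1 : ∃ y, q z y = c) (h2 : ¬ QH q φ z c) (h3 : ∃ y, q g y = c) : NN q φ (z + g) := by
  obtain ⟨y, hy⟩ := h1
  obtain ⟨y', hy'⟩ := h3
  obtain ⟨s, hs, hs'⟩ := hS.link hy hy'
  rcases z2 (φ s) with h4 | h4
  · exact absurd ⟨s, h4, hs⟩ h2
  · exact ⟨by rw [map_add, hz, hg, add_zero], s, h4,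
      by rw [map_add, LinearMap.add_apply, hs, hs', self_add]⟩

/-- (1b) -/
theorem b1 (hS : Sit q φ e) {z g : V} {c : B} (hz : φ z = 0) (hg : φ g = 0)
    (h1 : ∃ y, q z y = c) (h2 : ¬ QH q φ z c) (h3 : QH q φ g c) :
    NN q φ (z + g) ∧ NN q φ g := by
  obtain ⟨g', hg', hgg⟩ := h3
  refine ⟨hS.b1' hz hg h1 h2 ⟨g', hgg⟩, ?_⟩
  obtain ⟨y, hy⟩ := h1
  have h5 : ∃ y, q z y = c + q z g' := ⟨y + g', by rw [map_add, hy]⟩
  have h6 : ¬ QH q φ z (c + q z g') := by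
    rintro ⟨u, hu, hu'⟩
    apply h2
    refine ⟨u + g', by rw [map_add, hu, hg', add_zero], ?_⟩
    rw [map_add, hu', add_assoc, self_add, add_zero]
  have h7 : ∃ y, q (z + g) y = c + q z g' :=
    ⟨g', by rw [map_add, LinearMap.add_apply, hgg, add_comm]⟩
  have h8 := hS.b1' hz (by rw [map_add, hz, hg, add_zero]) h5 h6 h7
  rwa [← add_assoc, self_add, zero_add] at h8

/-- `H` is nondegenerate -/
theorem nd (hS : Sit q φ e) {h : V} (h1 : ∀ y, φ y = 0 → q h y = 0) : h = 0 := by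
  apply hS.r1
  intro v w
  rcases z2 (φ v) with h2 | h2
  · exact Or.inl (h1 v h2)
  · rcases z2 (φ w) with h3 | h3
    · exact Or.inr (Or.inl (h1 w h3))
    · exact Or.inr (Or.inr (h1 _ (by rw [map_add, h2, h3, one_add_one2])))

/-- `q` is nondegenerate -/
theorem nd' (hS : Sit q φ e) {h : V} (h1 : ∀ y, q h y = 0) : h = 0 := hS.nd fun y _ => h1 y

/-- elements of `H` commuting with an element outside `H` -/
theorem mkN (_ : Sit q φ e) {h w : V} (hh : φ h = 0) (hw : φ w = 1) (h1 : q h w = 0) :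
    NN q φ h := ⟨hh, w, hw, h1⟩

/-- the restriction to `H` -/
theorem toSitH (h : Sit q φ e) : SitH q φ e where
  phe := h.phe
  symm := h.symm
  wu := h.wu
  link := by
    intro a b c d ha hb hc hd e
    exact h.slot2 ha hc ⟨b, hb, rfl⟩ ⟨d, hd, e.symm⟩
  nd := fun x _ hx => h.nd hx

end Sit

end Pool.Agent.ASE
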