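import Pool.Agent.ASE.Stmts

/-!
THEOREM A* for arbitrary `-1`, module OSE: a structure of elementary type is given by a group
valued bilinear map, and it is an orthogonal sum of components of rank at most one and of
components `D[t]` with `|D| ≥ 4`.
-/

set_option autoImplicit false

namespace Pool.Agent.ASE

open scoped BigOperators
open QS Pool.Agent.AST
open Pool.Agent.Helper58.PLine (QData)

namespace OSE_

section
variable {V B : Type} [AddCommGroup V] [Module (ZMod 2) V] [AddCommGroup B] [Module (ZMod 2) B]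

/-- orthogonal decomposition of `(V, q)` with independent values -/
structure Dec (q : V →ₗ[ZMod 2] V →ₗ[ZMod 2] B) (ι : Type) [Fintype ι] where
  p : ι → (V →ₗ[ZMod 2] V)
  idem : ∀ j v, p j (p j v) = p j v
  orth : ∀ i j, i ≠ j → ∀ v, p i (p j v) = 0
  sum : ∀ v, ∑ j, p j v = v
  perp : ∀ i j, i ≠ j → ∀ v w, q (p i v) (p j w) = 0
  ind : ∀ v w, q v w = 0 → ∀ j, q (p j v) (p j w) = 0
  ne : ∀ j, ∃ v, p j v ≠ 0

/-- all elements of the component have rank at most one -/
def Dec.Loc {q : V →ₗ[ZMod 2] V →ₗ[ZMod 2] B} {ι : Type} [Fintype ι] (C : Dec q ι) (j : ι) :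
    Prop :=
  ∀ v w w', q (C.p j v) w = 0 ∨ q (C.p j v) w' = 0 ∨ q (C.p j v) (w + w') = 0

/-- the component is a group extension `D[t]` with `|D| ≥ 4` -/
def Dec.Ext {q : V →ₗ[ZMod 2] V →ₗ[ZMod 2] B} {ι : Type} [Fintype ι] (C : Dec q ι) (e : V)
    (j : ι) : Prop :=
  ∃ τ : V →ₗ[ZMod 2] ZMod 2, τ (C.p j e) = 0 ∧ (∃ t, C.p j t = t ∧ τ t = 1) ∧
    (∀ v w, C.p j v = v → C.p j w = w → τ v = 1 → q v w = 0 → w = 0 ∨ w = v + C.p j e) ∧
    ∃ d d', C.p j d = d ∧ C.p j d' = d' ∧ τ d = 0 ∧ τ d' = 0 ∧ d ≠ 0 ∧ d' ≠ 0 ∧ d ≠ d'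

end

/-- a group valued model of `S` with components -/
def Mod (S : QStruct) : Prop :=
  ∃ (V B : Type) (_ : AddCommGroup V) (_ : Module (ZMod 2) V) (_ : AddCommGroup B)
    (_ : Module (ZMod 2) B) (q : V →ₗ[ZMod 2] V →ₗ[ZMod 2] B) (e : V)
    (φ : Multiplicative V ≃* S.G), φ (Multiplicative.ofAdd e) = S.neg ∧
    (∀ a b c d, q a b = q c d ↔
      S.q (φ (Multiplicative.ofAdd a)) (φ (Multiplicative.ofAdd b)) =
        S.q (φ (Multiplicative.ofAdd c)) (φ (Multiplicative.ofAdd d))) ∧
    ∃ (ι : Type) (_ : Fintype ι) (C : Dec q ι), ∀ j, C.Loc j ∨ C.Ext e j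

theorem z2 (a : ZMod 2) : a = 0 ∨ a = 1 := by revert a; decide

theorem mod_iso {S T : QStruct} (h : QS.Iso S T) (hS : Mod S) : Mod T := by
  obtain ⟨V, B, _, _, _, _, q, e, φ, h1, h2, h3⟩ := hS
  obtain ⟨ψ, h4, h5⟩ := h
  refine ⟨V, B, _, _, _, _, q, e, φ.trans ψ, ?_, ?_, h3⟩
  · show ψ (φ _) = _
    rw [h1, h4]
  · intro a b c d
    rw [h2, h5]
    exact Iff.rfl

section two
variable (S : QStruct)

/-- zero test -/
noncomputable def zt (a b : S.G) : ZMod 2 := by
  classical exact if S.q a b = S.zero then 0 else 1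

theorem zt_zero {a b : S.G} (h : S.q a b = S.zero) : zt S a b = 0 := by
  unfold zt; rw [if_pos h]

theorem zt_one {a b : S.G} (h : S.q a b ≠ S.zero) : zt S a b = 1 := by
  unfold zt; rw [if_neg h]

theorem zt_symm (a b : S.G) : zt S a b = zt S b a := by
  unfold zt; rw [S.qs2]

theorem zt_mul (h2 : ∀ a b c d, S.q a b ≠ S.zero → S.q c d ≠ S.zero → S.q a b = S.q c d)
    (a b c : S.G) : zt S a (b * c) = zt S a b + zt S a c := by
  by_cases hb : S.q a b = S.zero
  · rw [zt_zero S hb, zero_add]
    unfold zt
    rw [S.q_zero_mul hb]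
  · by_cases hc : S.q a c = S.zero
    · rw [zt_zero S hc, add_zero, mul_comm]
      unfold zt
      rw [S.q_zero_mul hc]
    · rw [zt_one S hb, zt_one S hc, zt_zero S ((S.qs3 a b c).1 (h2 a b a c hb hc))]
      decide

theorem zt_iff (h2 : ∀ a b c d, S.q a b ≠ S.zero → S.q c d ≠ S.zero → S.q a b = S.q c d)
    (a b c d : S.G) : zt S a b = zt S c d ↔ S.q a b = S.q c d := by
  by_cases hb : S.q a b = S.zero
  · rw [zt_zero S hb, hb]
    by_cases hc : S.q c d = S.zero
    · rw [zt_zero S hc, hc]
      exact ⟨fun _ => rfl, fun _ => rfl⟩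
    · rw [zt_one S hc]
      exact ⟨fun h => absurd h (by decide), fun h => absurd h.symm hc⟩
  · rw [zt_one S hb]
    by_cases hc : S.q c d = S.zero
    · rw [zt_zero S hc, hc]
      exact ⟨fun h => absurd h (by decide), fun h => absurd h hb⟩
    · rw [zt_one S hc]
      exact ⟨fun _ => h2 _ _ _ _ hb hc, fun _ => rfl⟩

theorem mod_two (h2 : ∀ a b c d, S.q a b ≠ S.zero → S.q c d ≠ S.zero → S.q a b = S.q c d) :
    Mod S := by
  let _ : Module (ZMod 2) (Additive S.G) := AddCommGroup.zmodModule (by
    intro x
    rw [two_nsmul]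
    exact S.exp_two x.toMul)
  let q : Additive S.G →ₗ[ZMod 2] Additive S.G →ₗ[ZMod 2] ZMod 2 :=
    LinearMap.mk₂ (ZMod 2) (fun a b => zt S a.toMul b.toMul)
      (by
        intro a b c
        show zt S (a.toMul * b.toMul) c.toMul = _
        rw [zt_symm, zt_mul S h2, zt_symm, zt_symm S _ b.toMul])
      (by
        intro r a b
        rcases z2 r with rfl | rfl
        · rw [zero_smul, zero_smul]
          show zt S 1 b.toMul = 0
          rw [zt_symm]
          exact zt_zero S (S.q_one _)
        · rw [one_smul, one_smul])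
      (by
        intro a b c
        show zt S a.toMul (b.toMul * c.toMul) = _
        rw [zt_mul S h2])
      (by
        intro r a b
        rcases z2 r with rfl | rfl
        · rw [zero_smul, zero_smul]
          show zt S a.toMul 1 = 0
          exact zt_zero S (S.q_one _)
        · rw [one_smul, one_smul])
  refine ⟨Additive S.G, ZMod 2, _, _, _, _, q, Additive.ofMul S.neg, MulEquiv.refl S.G, rfl,
    fun a b c d => zt_iff S h2 _ _ _ _, ?_⟩
  by_cases hne : ∃ v : Additive S.G, v ≠ 0
  · refine ⟨Unit, inferInstance, { p := fun _ => LinearMap.id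
                                   idem := fun _ _ => rfl
                                   orth := fun i j hij => absurd (Subsingleton.elim i j) hij
                                   sum := fun v => by simp
                                   perp := fun i j hij => absurd (Subsingleton.elim i j) hij
                                   ind := fun _ _ h _ => h
                                   ne := fun _ => hne }, fun _ => Or.inl ?_⟩
    intro v w w'
    show q v w = 0 ∨ q v w' = 0 ∨ q v (w + w') = 0
    rw [map_add]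
    generalize q v w = x
    generalize q v w' = y
    revert x y
    decide
  · push Not at hne
    refine ⟨Empty, inferInstance, { p := fun j => j.elim
                                    idem := fun j => j.elim
                                    orth := fun j => j.elim
                                    sum := fun v => by simp [hne v]
                                    perp := fun j => j.elim
                                    ind := fun _ _ _ j => j.elim
                                    ne := fun j => j.elim }, fun j => j.elim⟩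

end two

theorem mod_prod {S T : QStruct} (hS : Mod S) (hT : Mod T) : Mod (QS.prod S T) := by
  obtain ⟨V, B, _, _, _, _, q, e, φ, h1, h2, ι, _, C, hC⟩ := hS
  obtain ⟨V', B', _, _, _, _, q', e', φ', h1', h2', ι', _, C', hC'⟩ := hT
  let Q : (V × V') →ₗ[ZMod 2] (V × V') →ₗ[ZMod 2] (B × B') :=
    (q.compl₁₂ (LinearMap.fst (ZMod 2) V V') (LinearMap.fst (ZMod 2) V V')).compr₂
      (LinearMap.inl (ZMod 2) B B') +
    (q'.compl₁₂ (LinearMap.snd (ZMod 2) V V') (LinearMap.snd (ZMod 2) V V')).compr₂
      (LinearMap.inr (ZMod 2) B B')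
  have hQ : ∀ a b : V × V', Q a b = (q a.1 b.1, q' a.2 b.2) := by
    intro a b
    simp [Q]
  have hz : ∀ a b : V × V', Q a b = 0 ↔ q a.1 b.1 = 0 ∧ q' a.2 b.2 = 0 := by
    intro a b
    rw [hQ]
    exact Prod.ext_iff
  let Φ : Multiplicative (V × V') ≃* S.G × T.G :=
    { toFun := fun v => (φ (Multiplicative.ofAdd v.toAdd.1), φ' (Multiplicative.ofAdd v.toAdd.2))
      invFun := fun g => Multiplicative.ofAdd ((φ.symm g.1).toAdd, (φ'.symm g.2).toAdd)
      left_inv := by
        intro v
        show Multiplicative.ofAdd ((φ.symm (φ _)).toAdd, (φ'.symm (φ' _)).toAdd) = v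
        rw [MulEquiv.symm_apply_apply, MulEquiv.symm_apply_apply]
        rfl
      right_inv := by
        intro g
        show (φ (φ.symm g.1), φ' (φ'.symm g.2)) = g
        rw [MulEquiv.apply_symm_apply, MulEquiv.apply_symm_apply]
      map_mul' := by
        intro v w
        refine Prod.ext ?_ ?_
        · exact map_mul φ _ _
        · exact map_mul φ' _ _ }
  let P : ι ⊕ ι' → ((V × V') →ₗ[ZMod 2] (V × V')) := fun j => match j with
    | Sum.inl i => (LinearMap.inl (ZMod 2) V V') ∘ₗ (C.p i) ∘ₗ (LinearMap.fst (ZMod 2) V V')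
    | Sum.inr i => (LinearMap.inr (ZMod 2) V V') ∘ₗ (C'.p i) ∘ₗ (LinearMap.snd (ZMod 2) V V')
  have hPl : ∀ i v, P (Sum.inl i) v = (C.p i v.1, 0) := fun i v => rfl
  have hPr : ∀ i v, P (Sum.inr i) v = (0, C'.p i v.2) := fun i v => rfl
  let D : Dec Q (ι ⊕ ι') :=
    { p := P
      idem := by
        rintro (i | i) v
        · rw [hPl, hPl, C.idem]
        · rw [hPr, hPr, C'.idem]
      orth := by
        rintro (i | i) (j | j) hij v
        · rw [hPl, hPl, C.orth i j (fun h => hij (by rw [h]))]
          rfl
        · rw [hPl, hPr, map_zero]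
          rfl
        · rw [hPr, hPl, map_zero]
          rfl
        · rw [hPr, hPr, C'.orth i j (fun h => hij (by rw [h]))]
          rfl
      sum := by
        intro v
        rw [Fintype.sum_sum_type]
        simp only [hPl, hPr]
        refine Prod.ext ?_ ?_
        · rw [Prod.fst_add, Prod.fst_sum, Prod.fst_sum]
          simp [C.sum]
        · rw [Prod.snd_add, Prod.snd_sum, Prod.snd_sum]
          simp [C'.sum]
      perp := by
        rintro (i | i) (j | j) hij v w
        · rw [hz]
          exact ⟨C.perp i j (fun h => hij (by rw [h])) _ _, map_zero _⟩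
        · rw [hz]
          exact ⟨map_zero _, by simp [hPl]⟩
        · rw [hz]
          exact ⟨by simp [hPr], map_zero _⟩
        · rw [hz]
          exact ⟨map_zero _, C'.perp i j (fun h => hij (by rw [h])) _ _⟩
      ind := by
        intro v w h j
        rw [hz] at h
        rcases j with i | i
        · rw [hz]
          exact ⟨C.ind _ _ h.1 i, map_zero _⟩
        · rw [hz]
          exact ⟨map_zero _, C'.ind _ _ h.2 i⟩
      ne := by
        rintro (i | i)
        · obtain ⟨v, hv⟩ := C.ne i
          exact ⟨(v, 0), fun h => hv (congrArg Prod.fst h)⟩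
        · obtain ⟨v, hv⟩ := C'.ne i
          exact ⟨(0, v), fun h => hv (congrArg Prod.snd h)⟩ }
  refine ⟨V × V', B × B', _, _, _, _, Q, (e, e'), Φ, ?_, ?_, ι ⊕ ι', inferInstance, D, ?_⟩
  · exact Prod.ext h1 h1'
  · intro a b c d
    rw [hQ, hQ, Prod.ext_iff]
    show (q a.1 b.1 = q c.1 d.1 ∧ q' a.2 b.2 = q' c.2 d.2) ↔ _
    rw [h2, h2']
    show _ ↔ ((S.q _ _, T.q _ _) : S.Q × T.Q) = (S.q _ _, T.q _ _)
    rw [Prod.mk.injEq]
    exact Iff.rfl
  · rintro (i | i)
    · rcases hC i with h | ⟨τ, hτe, ⟨t, ht, hτ⟩, h, d, d', g1, g2, g3, g4, g5, g6, g7⟩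
      · left
        intro v w w'
        simp only [hz]
        rcases h v.1 w.1 w'.1 with h3 | h3 | h3
        · exact Or.inl ⟨h3, by simp [D, hPl]⟩
        · exact Or.inr (Or.inl ⟨h3, by simp [D, hPl]⟩)
        · exact Or.inr (Or.inr ⟨h3, by simp [D, hPl]⟩)
      · right
        refine ⟨τ ∘ₗ LinearMap.fst (ZMod 2) V V', hτe, ⟨(t, 0), Prod.ext ht rfl, hτ⟩, ?_,
          (d, 0), (d', 0), Prod.ext g1 rfl, Prod.ext g2 rfl, g3, g4,
          fun h => g5 (congrArg Prod.fst h), fun h => g6 (congrArg Prod.fst h),
          fun h => g7 (congrArg Prod.fst h)⟩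
        rintro ⟨v, v'⟩ ⟨w, w'⟩ hv hw hτv hvw
        have hv1 : C.p i v = v := congrArg Prod.fst hv
        have hv2 : (0 : V') = v' := congrArg Prod.snd hv
        have hw1 : C.p i w = w := congrArg Prod.fst hw
        have hw2 : (0 : V') = w' := congrArg Prod.snd hw
        subst hv2
        subst hw2
        rcases h v w hv1 hw1 hτv ((hz _ _).1 hvw).1 with h4 | h4
        · left
          rw [h4]
          rfl
        · right
          refine Prod.ext h4 ?_
          show (0 : V') = 0 + 0
          rw [add_zero]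
    · rcases hC' i with h | ⟨τ, hτe, ⟨t, ht, hτ⟩, h, d, d', g1, g2, g3, g4, g5, g6, g7⟩
      · left
        intro v w w'
        simp only [hz]
        rcases h v.2 w.2 w'.2 with h3 | h3 | h3
        · exact Or.inl ⟨by simp [D, hPr], h3⟩
        · exact Or.inr (Or.inl ⟨by simp [D, hPr], h3⟩)
        · exact Or.inr (Or.inr ⟨by simp [D, hPr], h3⟩)
      · right
        refine ⟨τ ∘ₗ LinearMap.snd (ZMod 2) V V', hτe, ⟨(0, t), Prod.ext rfl ht, hτ⟩, ?_,
          (0, d), (0, d'), Prod.ext rfl g1, Prod.ext rfl g2, g3, g4,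
          fun h => g5 (congrArg Prod.snd h), fun h => g6 (congrArg Prod.snd h),
          fun h => g7 (congrArg Prod.snd h)⟩
        rintro ⟨v, v'⟩ ⟨w, w'⟩ hv hw hτv hvw
        have hv1 : (0 : V) = v := congrArg Prod.fst hv
        have hv2 : C'.p i v' = v' := congrArg Prod.snd hv
        have hw1 : (0 : V) = w := congrArg Prod.fst hw
        have hw2 : C'.p i w' = w' := congrArg Prod.snd hw
        subst hv1
        subst hw1
        rcases h v' w' hv2 hw2 hτv ((hz _ _).1 hvw).2 with h4 | h4
        · left
          rw [h4]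
          rfl
        · right
          refine Prod.ext ?_ h4
          show (0 : V) = 0 + 0
          rw [add_zero]

/-! ### Extensions -/

section ext
variable {V B : Type} [AddCommGroup V] [Module (ZMod 2) V] [AddCommGroup B] [Module (ZMod 2) B]

/-- the map of the extension -/
def qx (q : V →ₗ[ZMod 2] V →ₗ[ZMod 2] B) (e : V) :
    (V × ZMod 2) →ₗ[ZMod 2] (V × ZMod 2) →ₗ[ZMod 2] (B × V) :=
  LinearMap.mk₂ (ZMod 2)
    (fun a b => (q a.1 b.1, b.2 • a.1 + a.2 • b.1 + (a.2 * b.2) • e))
    (by
      intro a b c
      refine Prod.ext ?_ ?_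
      · show q (a.1 + b.1) c.1 = q a.1 c.1 + q b.1 c.1
        rw [map_add, LinearMap.add_apply]
      · show c.2 • (a.1 + b.1) + (a.2 + b.2) • c.1 + ((a.2 + b.2) * c.2) • e =
          (c.2 • a.1 + a.2 • c.1 + (a.2 * c.2) • e) + (c.2 • b.1 + b.2 • c.1 + (b.2 * c.2) • e)
        rw [smul_add, add_smul, add_mul, add_smul]
        abel)
    (by
      intro r a b
      refine Prod.ext ?_ ?_
      · show q (r • a.1) b.1 = r • q a.1 b.1
        rw [map_smul, LinearMap.smul_apply]
      · show b.2 • (r • a.1) + (r • a.2) • b.1 + ((r • a.2) * b.2) • e =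
          r • (b.2 • a.1 + a.2 • b.1 + (a.2 * b.2) • e)
        rcases z2 r with rfl | rfl
        · simp
        · simp)
    (by
      intro a b c
      refine Prod.ext ?_ ?_
      · show q a.1 (b.1 + c.1) = q a.1 b.1 + q a.1 c.1
        rw [map_add]
      · show (b.2 + c.2) • a.1 + a.2 • (b.1 + c.1) + (a.2 * (b.2 + c.2)) • e =
          (b.2 • a.1 + a.2 • b.1 + (a.2 * b.2) • e) + (c.2 • a.1 + a.2 • c.1 + (a.2 * c.2) • e)
        rw [smul_add, add_smul, mul_add, add_smul]
        abel)
    (by
      intro r a b
      refine Prod.ext ?_ ?_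
      · show q a.1 (r • b.1) = r • q a.1 b.1
        rw [map_smul]
      · show (r • b.2) • a.1 + a.2 • (r • b.1) + (a.2 * (r • b.2)) • e =
          r • (b.2 • a.1 + a.2 • b.1 + (a.2 * b.2) • e)
        rcases z2 r with rfl | rfl
        · simp
        · simp)

theorem qx_apply (q : V →ₗ[ZMod 2] V →ₗ[ZMod 2] B) (e : V) (a b : V × ZMod 2) :
    qx q e a b = (q a.1 b.1, b.2 • a.1 + a.2 • b.1 + (a.2 * b.2) • e) := rfl

theorem qx_big (q : V →ₗ[ZMod 2] V →ₗ[ZMod 2] B) (e : V)
    (hbig : ∃ b b' : V, b ≠ 0 ∧ b' ≠ 0 ∧ b ≠ b') :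
    ∃ (ι : Type) (_ : Fintype ι) (C : Dec (qx q e) ι), ∀ j, C.Loc j ∨ C.Ext (e, 0) j := by
  obtain ⟨b, b', hb, hb', hbb⟩ := hbig
  refine ⟨Unit, inferInstance, { p := fun _ => LinearMap.id
                                 idem := fun _ _ => rfl
                                 orth := fun i j hij => absurd (Subsingleton.elim i j) hij
                                 sum := fun v => by simp
                                 perp := fun i j hij => absurd (Subsingleton.elim i j) hij
                                 ind := fun _ _ h _ => h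
                                 ne := fun _ => ⟨(b, 0), fun h => hb (congrArg Prod.fst h)⟩ },
    fun _ => Or.inr ⟨LinearMap.snd (ZMod 2) V (ZMod 2), rfl, ⟨(0, 1), rfl, rfl⟩, ?_,
      (b, 0), (b', 0), rfl, rfl, rfl, rfl, fun h => hb (congrArg Prod.fst h),
      fun h => hb' (congrArg Prod.fst h), fun h => hbb (congrArg Prod.fst h)⟩⟩
  rintro ⟨a, α⟩ ⟨c, γ⟩ - - hα h
  have hα' : α = 1 := hα
  subst hα'
  have h2 : γ • a + (1 : ZMod 2) • c + ((1 : ZMod 2) * γ) • e = 0 := congrArg Prod.snd h
  rcases z2 γ with rfl | rfl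
  · left
    rw [zero_smul, one_smul, mul_zero, zero_smul, zero_add, add_zero] at h2
    rw [h2]
    rfl
  · right
    rw [one_smul, one_smul, mul_one, one_smul] at h2
    refine Prod.ext ?_ ?_
    · show c = a + e
      have h3 : a + c + e + (c + c) + 0 = (a + e) + (c + c) + c := by abel
      rw [h2, ZModModule.add_self, add_zero, add_zero, add_zero] at h3
      have h4 := congrArg (fun x => x + c) h3
      simp only [zero_add, add_assoc, ZModModule.add_self, add_zero] at h4
      exact h4
    · show (1 : ZMod 2) = 1 + 0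
      rw [add_zero]

theorem qx_small (q : V →ₗ[ZMod 2] V →ₗ[ZMod 2] B) (e : V) (hd : ∀ a, q a (a + e) = 0)
    (hsmall : ∀ b b' : V, b = 0 ∨ b' = 0 ∨ b = b') :
    ∃ (ι : Type) (_ : Fintype ι) (C : Dec (qx q e) ι), ∀ j, C.Loc j ∨ C.Ext (e, 0) j := by
  by_cases hq : ∀ a b, q a b = 0
  · refine ⟨Unit, inferInstance, { p := fun _ => LinearMap.id
                                   idem := fun _ _ => rfl
                                   orth := fun i j hij => absurd (Subsingleton.elim i j) hij
                                   sum := fun v => by simp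
                                   perp := fun i j hij => absurd (Subsingleton.elim i j) hij
                                   ind := fun _ _ h _ => h
                                   ne := fun _ => ⟨(0, 1), fun h => one_ne_zero
                                    (congrArg Prod.snd h : (1 : ZMod 2) = 0)⟩ },
      fun _ => Or.inl ?_⟩
    intro v w w'
    show qx q e v w = 0 ∨ qx q e v w' = 0 ∨ qx q e v (w + w') = 0
    rw [map_add]
    have h1 : ∀ w, (qx q e v w).1 = 0 := fun w => hq _ _
    have h2 : ∀ w, (qx q e v w).2 = 0 → qx q e v w = 0 := fun w h => Prod.ext (h1 w) h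
    rcases hsmall (qx q e v w).2 (qx q e v w').2 with h | h | h
    · exact Or.inl (h2 _ h)
    · exact Or.inr (Or.inl (h2 _ h))
    · refine Or.inr (Or.inr (Prod.ext ?_ ?_))
      · rw [Prod.fst_add, h1, h1, add_zero]
        rfl
      · rw [Prod.snd_add, h, ZModModule.add_self]
        rfl
  · push Not at hq
    obtain ⟨u, b, hub⟩ := hq
    have hu0 : u ≠ 0 := by
      rintro rfl
      rw [map_zero, LinearMap.zero_apply] at hub
      exact hub rfl
    have hb0 : b ≠ 0 := by
      rintro rfl
      rw [map_zero] at hub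
      exact hub rfl
    have hbu : b = u := by
      rcases hsmall b u with h | h | h
      · exact absurd h hb0
      · exact absurd h hu0
      · exact h
    subst hbu
    have hVu : ∀ v : V, v = 0 ∨ v = b := by
      intro v
      rcases hsmall v b with h | h | h
      · exact Or.inl h
      · exact absurd h hb0
      · exact Or.inr h
    have heb : e = b := by
      rcases hVu e with h | h
      · exfalso
        apply hub
        have h2 := hd b
        rw [h, add_zero] at h2
        exact h2
      · exact h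
    subst heb
    obtain ⟨χ, hχ, -⟩ := Pool.Agent.Helper58.PLine.exists_functional (M := V)
      (p := ⊥) (x := e) (by simpa using hb0)
    have hχe : ∀ v : V, χ v • e = v := by
      intro v
      rcases hVu v with rfl | rfl
      · rw [map_zero, zero_smul]
      · rw [hχ, one_smul]
    let f : (V × ZMod 2) →ₗ[ZMod 2] ZMod 2 :=
      LinearMap.snd (ZMod 2) V (ZMod 2) + χ ∘ₗ LinearMap.fst (ZMod 2) V (ZMod 2)
    let g : (V × ZMod 2) →ₗ[ZMod 2] ZMod 2 := χ ∘ₗ LinearMap.fst (ZMod 2) V (ZMod 2)
    have hf : ∀ v : V × ZMod 2, f v = v.2 + χ v.1 := fun v => rfl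
    have hg : ∀ v : V × ZMod 2, g v = χ v.1 := fun v => rfl
    let F : Bool → ((V × ZMod 2) →ₗ[ZMod 2] ZMod 2) := fun j => match j with
      | true => f
      | false => g
    let T : Bool → V × ZMod 2 := fun j => match j with
      | true => (0, 1)
      | false => (e, 1)
    have hFT : ∀ i j, F i (T j) = if i = j then 1 else 0 := by
      intro i j
      rcases i with _ | _ <;> rcases j with _ | _
      · show χ e = _
        rw [hχ]
        rfl
      · show χ 0 = _
        rw [map_zero]
        rfl
      · show (1 : ZMod 2) + χ e = _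
        rw [hχ]
        decide
      · show (1 : ZMod 2) + χ 0 = _
        rw [map_zero]
        decide
    have hsum : ∀ v, F true v • T true + F false v • T false = v := by
      intro v
      refine Prod.ext ?_ ?_
      · show (v.2 + χ v.1) • (0 : V) + χ v.1 • e = v.1
        rw [smul_zero, zero_add, hχe]
      · show (v.2 + χ v.1) * 1 + χ v.1 * 1 = v.2
        rw [mul_one, mul_one, add_assoc, ZModModule.add_self, add_zero]
    have h01 : qx q e (T true) (T false) = 0 := by
      refine Prod.ext ?_ ?_
      · show q 0 e = 0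
        rw [map_zero, LinearMap.zero_apply]
      · show (1 : ZMod 2) • (0 : V) + (1 : ZMod 2) • e + ((1 : ZMod 2) * 1) • e = 0
        rw [smul_zero, one_smul, mul_one, one_smul, zero_add, ZModModule.add_self]
    have h10 : qx q e (T false) (T true) = 0 := by
      refine Prod.ext ?_ ?_
      · show q e 0 = 0
        rw [map_zero]
      · show (1 : ZMod 2) • e + (1 : ZMod 2) • (0 : V) + ((1 : ZMod 2) * 1) • e = 0
        rw [smul_zero, one_smul, mul_one, one_smul, add_zero, ZModModule.add_self]
    have hperp : ∀ i j, i ≠ j → qx q e (T i) (T j) = 0 := by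
      intro i j hij
      rcases i with _ | _ <;> rcases j with _ | _
      · exact absurd rfl hij
      · exact h10
      · exact h01
      · exact absurd rfl hij
    have hcomp : ∀ i w, qx q e (T i) w = F i w • qx q e (T i) (T i) := by
      intro i w
      conv_lhs => rw [← hsum w]
      rw [map_add, map_smul, map_smul]
      rcases i with _ | _
      · rw [h10, smul_zero, zero_add]
      · rw [h01, smul_zero, add_zero]
    let P : Bool → ((V × ZMod 2) →ₗ[ZMod 2] (V × ZMod 2)) := fun j => (F j).smulRight (T j)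
    have hP : ∀ j v, P j v = F j v • T j := fun j v => rfl
    refine ⟨Bool, inferInstance, { p := P
                                   idem := ?_
                                   orth := ?_
                                   sum := ?_
                                   perp := ?_
                                   ind := ?_
                                   ne := ?_ }, fun j => Or.inl ?_⟩
    · intro j v
      rw [hP, hP, map_smul, hFT, if_pos rfl, smul_eq_mul, mul_one]
    · intro i j hij v
      rw [hP, hP, map_smul, hFT, if_neg hij, smul_zero, zero_smul]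
    · intro v
      rw [Fintype.sum_bool]
      exact hsum v
    · intro i j hij v w
      rw [hP, hP]
      simp only [map_smul, LinearMap.smul_apply]
      rw [hperp i j hij, smul_zero, smul_zero]
    · intro v w h j
      have h1 : qx q e v w = (F true v * F true w) • qx q e (T true) (T true) +
          (F false v * F false w) • qx q e (T false) (T false) := by
        conv_lhs => rw [← hsum v]
        simp only [map_add, LinearMap.add_apply, map_smul, LinearMap.smul_apply]
        rw [hcomp true w, hcomp false w, smul_smul, smul_smul]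
      rw [h1] at h
      have h2 : (F false v * F false w) • q e e = 0 := by
        have h3 := congrArg Prod.fst h
        have h4 : (F true v * F true w) • q 0 0 + (F false v * F false w) • q e e = 0 := h3
        rw [map_zero, smul_zero, zero_add] at h4
        exact h4
      have h5 : F false v * F false w = 0 := by
        rcases z2 (F false v * F false w) with h6 | h6
        · exact h6
        · rw [h6, one_smul] at h2
          exact absurd h2 hub
      have h7 : F true v * F true w = 0 := by
        rcases z2 (F true v * F true w) with h6 | h6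
        · exact h6
        · exfalso
          rw [h5, zero_smul, add_zero, h6, one_smul] at h
          have h8 : (1 : ZMod 2) • (0 : V) + (1 : ZMod 2) • (0 : V) + ((1 : ZMod 2) * 1) • e = 0 :=
            congrArg Prod.snd h
          rw [smul_zero, mul_one, one_smul, zero_add, zero_add] at h8
          exact hb0 h8
      rw [hP, hP]
      simp only [map_smul, LinearMap.smul_apply]
      rw [smul_smul]
      rcases j with _ | _
      · rw [mul_comm, h5, zero_smul]
      · rw [mul_comm, h7, zero_smul]
    · intro j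
      refine ⟨T j, fun h => ?_⟩
      rw [hP, hFT, if_pos rfl, one_smul] at h
      rcases j with _ | _
      · exact one_ne_zero (congrArg Prod.snd h : (1 : ZMod 2) = 0)
      · exact one_ne_zero (congrArg Prod.snd h : (1 : ZMod 2) = 0)
    · intro v w w'
      show qx q e (P j v) w = 0 ∨ qx q e (P j v) w' = 0 ∨ qx q e (P j v) (w + w') = 0
      rw [hP]
      simp only [map_smul, LinearMap.smul_apply]
      rw [hcomp j w, hcomp j w', hcomp j (w + w'), map_add]
      rcases z2 (F j w) with h | h
      · left
        rw [h, zero_smul, smul_zero]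
      · rcases z2 (F j w') with h' | h'
        · right
          left
          rw [h', zero_smul, smul_zero]
        · right
          right
          rw [h, h', ZModModule.add_self, zero_smul, smul_zero]

end ext

theorem mod_ext {S : QStruct} (hS : Mod S) : Mod (QS.ext S) := by
  obtain ⟨V, B, _, _, _, _, q, e, φ, h1, h2, -⟩ := hS
  have hzero : ∀ a b, q a b = 0 ↔
      S.q (φ (Multiplicative.ofAdd a)) (φ (Multiplicative.ofAdd b)) = S.zero := by
    intro a b
    have h3 := h2 a b a 0
    rw [map_zero] at h3
    rw [h3]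
    have h4 : φ (Multiplicative.ofAdd (0 : V)) = 1 := map_one φ
    rw [h4, S.q_one]
  have hd : ∀ a, q a (a + e) = 0 := by
    intro a
    rw [hzero]
    have h3 : φ (Multiplicative.ofAdd (a + e)) = S.neg * φ (Multiplicative.ofAdd a) := by
      rw [ofAdd_add, map_mul, h1, mul_comm]
    rw [h3, S.qs1]
  let Φ : Multiplicative (V × ZMod 2) ≃* S.G × Multiplicative (ZMod 2) :=
    { toFun := fun v => (φ (Multiplicative.ofAdd v.toAdd.1), Multiplicative.ofAdd v.toAdd.2)
      invFun := fun g => Multiplicative.ofAdd ((φ.symm g.1).toAdd, g.2.toAdd)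
      left_inv := by
        intro v
        show Multiplicative.ofAdd ((φ.symm (φ _)).toAdd, _) = v
        rw [MulEquiv.symm_apply_apply]
        rfl
      right_inv := by
        intro g
        show (φ (φ.symm g.1), g.2) = g
        rw [MulEquiv.apply_symm_apply]
      map_mul' := by
        intro v w
        refine Prod.ext ?_ rfl
        exact map_mul φ _ _ }
  have key : ∀ a b : V × ZMod 2, extMap S (Φ (Multiplicative.ofAdd a)) (Φ (Multiplicative.ofAdd b)) =
      (S.q (φ (Multiplicative.ofAdd a.1)) (φ (Multiplicative.ofAdd b.1)),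
        φ (Multiplicative.ofAdd (qx q e a b).2)) := by
    rintro ⟨a, α⟩ ⟨b, β⟩
    rw [qx_apply]
    have hΦ : ∀ (c : V) (γ : ZMod 2), Φ (Multiplicative.ofAdd (c, γ)) =
      (φ (Multiplicative.ofAdd c), Multiplicative.ofAdd γ) := fun c γ => rfl
    rw [hΦ, hΦ]
    rcases z2 α with rfl | rfl <;> rcases z2 β with rfl | rfl
    · have h3 := extMap_one_one S (φ (Multiplicative.ofAdd a)) (φ (Multiplicative.ofAdd b))
      have h4 : (0 : ZMod 2) • a + (0 : ZMod 2) • b + ((0 : ZMod 2) * 0) • e = 0 := by simp
      show extMap S (φ (Multiplicative.ofAdd a), 1) (φ (Multiplicative.ofAdd b), 1) =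
        (_, φ (Multiplicative.ofAdd ((0 : ZMod 2) • a + (0 : ZMod 2) • b + ((0 : ZMod 2) * 0) • e)))
      rw [h3, h4]
      exact Prod.ext rfl (map_one φ).symm
    · have h3 := extMap_one_x S (φ (Multiplicative.ofAdd a)) (φ (Multiplicative.ofAdd b))
      have h4 : (1 : ZMod 2) • a + (0 : ZMod 2) • b + ((0 : ZMod 2) * 1) • e = a := by simp
      show extMap S (φ (Multiplicative.ofAdd a), 1)
          (φ (Multiplicative.ofAdd b), Multiplicative.ofAdd 1) =
        (_, φ (Multiplicative.ofAdd ((1 : ZMod 2) • a + (0 : ZMod 2) • b + ((0 : ZMod 2) * 1) • e)))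
      rw [h3, h4]
    · have h3 := extMap_x_one S (φ (Multiplicative.ofAdd a)) (φ (Multiplicative.ofAdd b))
      have h4 : (0 : ZMod 2) • a + (1 : ZMod 2) • b + ((1 : ZMod 2) * 0) • e = b := by simp
      show extMap S (φ (Multiplicative.ofAdd a), Multiplicative.ofAdd 1)
          (φ (Multiplicative.ofAdd b), 1) =
        (_, φ (Multiplicative.ofAdd ((0 : ZMod 2) • a + (1 : ZMod 2) • b + ((1 : ZMod 2) * 0) • e)))
      rw [h3, h4]
    · have h3 := extMap_x_x S (φ (Multiplicative.ofAdd a)) (φ (Multiplicative.ofAdd b))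
      have h4 : (1 : ZMod 2) • a + (1 : ZMod 2) • b + ((1 : ZMod 2) * 1) • e = e + a + b := by
        simp
        abel
      show extMap S (φ (Multiplicative.ofAdd a), Multiplicative.ofAdd 1)
          (φ (Multiplicative.ofAdd b), Multiplicative.ofAdd 1) =
        (_, φ (Multiplicative.ofAdd ((1 : ZMod 2) • a + (1 : ZMod 2) • b + ((1 : ZMod 2) * 1) • e)))
      rw [h3, h4, ofAdd_add, ofAdd_add, map_mul, map_mul, h1]
  refine ⟨V × ZMod 2, B × V, _, _, _, _, qx q e, (e, 0), Φ, ?_, ?_, ?_⟩
  · exact Prod.ext h1 rfl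
  · intro a b c d
    have e3 : (QS.ext S).q (Φ (Multiplicative.ofAdd a)) (Φ (Multiplicative.ofAdd b)) =
        (QS.ext S).q (Φ (Multiplicative.ofAdd c)) (Φ (Multiplicative.ofAdd d)) ↔
        extMap S (Φ (Multiplicative.ofAdd a)) (Φ (Multiplicative.ofAdd b)) =
          extMap S (Φ (Multiplicative.ofAdd c)) (Φ (Multiplicative.ofAdd d)) := Subtype.ext_iff
    refine Iff.trans ?_ e3.symm
    rw [key, key, Prod.mk.injEq (S.q _ _), ← h2]
    constructor
    · intro h
      rw [h]
      exact ⟨congrArg Prod.fst h, rfl⟩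
    · rintro ⟨h3, h4⟩
      refine Prod.ext h3 ?_
      exact Multiplicative.ofAdd.injective (φ.injective h4)
  · by_cases hbig : ∃ b b' : V, b ≠ 0 ∧ b' ≠ 0 ∧ b ≠ b'
    · exact qx_big q e hbig
    · refine qx_small q e hd ?_
      intro b b'
      by_contra hcon
      push Not at hcon
      exact hbig ⟨b, b', hcon.1, hcon.2.1, hcon.2.2⟩

/-- two elements -/
theorem two_of_card {S : QStruct} (h : Nat.card S.G ≤ 2) [Finite S.G] :
    ∀ a b c d, S.q a b ≠ S.zero → S.q c d ≠ S.zero → S.q a b = S.q c d := by
  intro a b c d h1 h2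
  have n1 : ∀ x y, S.q x y ≠ S.zero → x ≠ 1 ∧ y ≠ 1 := by
    intro x y hxy
    constructor
    · rintro rfl
      rw [S.qs2, S.q_one] at hxy
      exact hxy rfl
    · rintro rfl
      rw [S.q_one] at hxy
      exact hxy rfl
  have n2 : ∀ x y : S.G, x ≠ 1 → y ≠ 1 → x = y := by
    intro x y hx hy
    by_contra hxy
    classical
    have := Fintype.ofFinite S.G
    have h3 : ({1, x, y} : Finset S.G).card ≤ Fintype.card S.G := Finset.card_le_univ _
    rw [Finset.card_insert_of_notMem (by simp [hx.symm, hy.symm]),
      Finset.card_insert_of_notMem (by simpa using hxy), Finset.card_singleton,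
      ← Nat.card_eq_fintype_card] at h3
    omega
  obtain ⟨a1, b1⟩ := n1 _ _ h1
  obtain ⟨c1, d1⟩ := n1 _ _ h2
  rw [n2 a c a1 c1, n2 b d b1 d1]

theorem mod_of_elem (S : QStruct) (h : ElemType S) : Mod S := by
  induction h with
  | L0 S h =>
    have : Finite S.G := Nat.finite_of_card_ne_zero (by omega)
    exact mod_two S (two_of_card (by omega))
  | L10 S h _ _ =>
    have : Finite S.G := Nat.finite_of_card_ne_zero (by omega)
    exact mod_two S (two_of_card (by omega))
  | L11 S h _ _ =>
    have : Finite S.G := Nat.finite_of_card_ne_zero (by omega)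
    exact mod_two S (two_of_card (by omega))
  | L1 S h _ _ =>
    have : Finite S.G := Nat.finite_of_card_ne_zero (by omega)
    exact mod_two S (two_of_card (by omega))
  | loc S _ _ _ h2 =>
    refine mod_two S ?_
    intro a b c d ha hc
    obtain ⟨x, y, hxy, huniv⟩ := Nat.card_eq_two_iff.1 h2
    have key : ∀ z : S.Q, z = x ∨ z = y := by
      intro z
      have hz : z ∈ ({x, y} : Set S.Q) := by rw [huniv]; trivial
      exact hz
    rcases key S.zero with h0 | h0 <;> rcases key (S.q a b) with h3 | h3 <;>
      rcases key (S.q c d) with h4 | h4 <;>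
      first
      | (exact absurd (h3.trans h0.symm) ha)
      | (exact absurd (h4.trans h0.symm) hc)
      | (exact h3.trans h4.symm)
  | prod S T _ _ ihS ihT => exact mod_prod ihS ihT
  | ext S _ ih => exact mod_ext ih
  | iso S T h _ ih => exact mod_iso h ih

/-- relabel the components -/
theorem reindex {V B : Type} [AddCommGroup V] [Module (ZMod 2) V] [AddCommGroup B]
    [Module (ZMod 2) B] {q : V →ₗ[ZMod 2] V →ₗ[ZMod 2] B} {ι : Type} [Fintype ι] (C : Dec q ι) :
    ∃ (k : ℕ) (D : HC q (0 : V →ₗ[ZMod 2] ZMod 2) k) (f : Fin k ≃ ι), ∀ j, D.p j = C.p (f j) := by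
  classical
  let f : Fin (Fintype.card ι) ≃ ι := (Fintype.equivFin ι).symm
  exact ⟨Fintype.card ι, { p := fun j => C.p (f j)
                           mem := fun _ _ => rfl
                           idem := fun j v => C.idem _ v
                           orth := fun i j hij v => C.orth _ _ (fun h => hij (f.injective h)) v
                           sum := fun v _ => by
                            rw [← C.sum v]
                            exact Fintype.sum_equiv f _ _ fun j => by rw [C.sum v]
                           perp := fun i j hij v w =>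
                            C.perp _ _ (fun h => hij (f.injective h)) v w
                           ind := fun v w _ _ h j => C.ind v w h _
                           ne := fun j => C.ne _ }, f, fun _ => rfl⟩

section transport
variable {V V' B : Type} [AddCommGroup V] [Module (ZMod 2) V] [AddCommGroup V']
  [Module (ZMod 2) V'] [AddCommGroup B] [Module (ZMod 2) B]

/-- transport of a decomposition -/
def trd {q : V' →ₗ[ZMod 2] V' →ₗ[ZMod 2] B} {ι : Type} [Fintype ι] (C : Dec q ι)
    (g : V ≃ₗ[ZMod 2] V') : Dec (q.compl₁₂ g.toLinearMap g.toLinearMap) ι where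
  p := fun j => g.symm.toLinearMap ∘ₗ C.p j ∘ₗ g.toLinearMap
  idem := by
    intro j v
    show g.symm (C.p j (g (g.symm (C.p j (g v))))) = g.symm (C.p j (g v))
    rw [LinearEquiv.apply_symm_apply, C.idem]
  orth := by
    intro i j hij v
    show g.symm (C.p i (g (g.symm (C.p j (g v))))) = 0
    rw [LinearEquiv.apply_symm_apply, C.orth i j hij, map_zero]
  sum := by
    intro v
    show ∑ j, g.symm (C.p j (g v)) = v
    rw [← map_sum, C.sum, LinearEquiv.symm_apply_apply]
  perp := by
    intro i j hij v w
    show q (g (g.symm (C.p i (g v)))) (g (g.symm (C.p j (g w)))) = 0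
    rw [LinearEquiv.apply_symm_apply, LinearEquiv.apply_symm_apply]
    exact C.perp i j hij _ _
  ind := by
    intro v w h j
    show q (g (g.symm (C.p j (g v)))) (g (g.symm (C.p j (g w)))) = 0
    rw [LinearEquiv.apply_symm_apply, LinearEquiv.apply_symm_apply]
    exact C.ind _ _ h j
  ne := by
    intro j
    obtain ⟨v, hv⟩ := C.ne j
    refine ⟨g.symm v, fun h => hv ?_⟩
    have h1 : g.symm (C.p j (g (g.symm v))) = 0 := h
    rw [LinearEquiv.apply_symm_apply, map_eq_zero_iff _ g.symm.injective] at h1
    exact h1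

theorem trd_p {q : V' →ₗ[ZMod 2] V' →ₗ[ZMod 2] B} {ι : Type} [Fintype ι] (C : Dec q ι)
    (g : V ≃ₗ[ZMod 2] V') (j : ι) (v : V) : (trd C g).p j v = g.symm (C.p j (g v)) := rfl

theorem trd_fix {q : V' →ₗ[ZMod 2] V' →ₗ[ZMod 2] B} {ι : Type} [Fintype ι] (C : Dec q ι)
    (g : V ≃ₗ[ZMod 2] V') (j : ι) (v : V) : (trd C g).p j v = v ↔ C.p j (g v) = g v := by
  rw [trd_p, LinearEquiv.symm_apply_eq]

theorem trd_loc {q : V' →ₗ[ZMod 2] V' →ₗ[ZMod 2] B} {ι : Type} [Fintype ι] (C : Dec q ι)
    (g : V ≃ₗ[ZMod 2] V') (j : ι) (h : C.Loc j) : (trd C g).Loc j := by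
  intro v w w'
  have h1 := h (g v) (g w) (g w')
  rw [← map_add] at h1
  show q (g ((trd C g).p j v)) (g w) = 0 ∨ q (g ((trd C g).p j v)) (g w') = 0 ∨
    q (g ((trd C g).p j v)) (g (w + w')) = 0
  rw [trd_p, LinearEquiv.apply_symm_apply]
  exact h1

theorem trd_ext {q : V' →ₗ[ZMod 2] V' →ₗ[ZMod 2] B} {ι : Type} [Fintype ι] (C : Dec q ι)
    (g : V ≃ₗ[ZMod 2] V') (e : V) (j : ι) (h : C.Ext (g e) j) : (trd C g).Ext e j := by
  obtain ⟨τ, h1, ⟨t, ht, hτ⟩, h2, d, d', g1, g2, g3, g4, g5, g6, g7⟩ := h
  refine ⟨τ ∘ₗ g.toLinearMap, ?_, ⟨g.symm t, ?_, ?_⟩, ?_, g.symm d, g.symm d', ?_, ?_, ?_, ?_,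
    ?_, ?_, ?_⟩
  · show τ (g ((trd C g).p j e)) = 0
    rw [trd_p, LinearEquiv.apply_symm_apply, h1]
  · rw [trd_fix, LinearEquiv.apply_symm_apply, ht]
  · show τ (g (g.symm t)) = 1
    rw [LinearEquiv.apply_symm_apply, hτ]
  · intro v w hv hw hτv hvw
    rw [trd_fix] at hv hw
    rcases h2 (g v) (g w) hv hw hτv hvw with h3 | h3
    · left
      rw [map_eq_zero_iff _ g.injective] at h3
      exact h3
    · right
      rw [trd_p]
      apply g.injective
      rw [h3, map_add, LinearEquiv.apply_symm_apply]
  · rw [trd_fix, LinearEquiv.apply_symm_apply, g1]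
  · rw [trd_fix, LinearEquiv.apply_symm_apply, g2]
  · show τ (g (g.symm d)) = 0
    rw [LinearEquiv.apply_symm_apply, g3]
  · show τ (g (g.symm d')) = 0
    rw [LinearEquiv.apply_symm_apply, g4]
  · intro h
    rw [map_eq_zero_iff _ g.symm.injective] at h
    exact g5 h
  · intro h
    rw [map_eq_zero_iff _ g.symm.injective] at h
    exact g6 h
  · intro h
    exact g7 (g.symm.injective h)

end transport

/-- equality of values of a structure and of its data -/
theorem eq_iff_of_zero {V Q : Type} [AddCommGroup V] [Module (ZMod 2) V] (D : QData V Q)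
    (S : QStruct) (f : Multiplicative V ≃* S.G)
    (hf : ∀ a b : V, S.q (f (Multiplicative.ofAdd a)) (f (Multiplicative.ofAdd b)) = S.zero ↔
      D.q a b = D.z) (a b c d : V) :
    S.q (f (Multiplicative.ofAdd a)) (f (Multiplicative.ofAdd b)) =
      S.q (f (Multiplicative.ofAdd c)) (f (Multiplicative.ofAdd d)) ↔ D.q a b = D.q c d := by
  have hadd : ∀ x y : V, f (Multiplicative.ofAdd (x + y)) =
      f (Multiplicative.ofAdd x) * f (Multiplicative.ofAdd y) := fun x y => map_mul f _ _
  constructor
  · intro h
    obtain ⟨x, h1, h2⟩ := S.qs4 _ _ _ _ h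
    obtain ⟨x, rfl⟩ : ∃ v : V, f (Multiplicative.ofAdd v) = x := by
      obtain ⟨m, hm⟩ := f.surjective x
      exact ⟨Multiplicative.toAdd m, hm⟩
    have h3 : D.q a (b + x) = D.z := by
      rw [← hf, hadd]
      exact (S.qs3 _ _ _).1 h1
    have h4 : D.q c (d + x) = D.z := by
      rw [← hf, hadd]
      exact (S.qs3 _ _ _).1 h2
    have h5 : D.q (a + c) x = D.z := by
      rw [← hf, hadd, S.qs2]
      refine (S.qs3 _ _ _).1 ?_
      rw [S.qs2, ← h1, h, h2, S.qs2]
    rw [(dq D).2 h3, (dq D).2 h4]
    exact (dq' D).2 h5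
  · intro h
    obtain ⟨x, h1, h2⟩ := D.link _ _ _ _ h
    have h3 : S.q (f (Multiplicative.ofAdd a)) (f (Multiplicative.ofAdd b)) =
        S.q (f (Multiplicative.ofAdd a)) (f (Multiplicative.ofAdd x)) := by
      rw [S.qs3, ← hadd, hf]
      exact (dq D).1 h1
    have h4 : S.q (f (Multiplicative.ofAdd c)) (f (Multiplicative.ofAdd d)) =
        S.q (f (Multiplicative.ofAdd c)) (f (Multiplicative.ofAdd x)) := by
      rw [S.qs3, ← hadd, hf]
      exact (dq D).1 h2
    rw [h3, h4, S.qs2, S.qs2 _ (f (Multiplicative.ofAdd x)), S.qs3, ← hadd, S.qs2, hf]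
    exact (dq' D).1 (h1.symm.trans (h.trans h2))

end OSE_

open OSE_ in
theorem OSE : Stmt_OSE := by
  intro V Q _ _ _ D S hQ hS hnd
  obtain ⟨f, hfe, hf⟩ := hQ
  obtain ⟨V', B, _, _, _, _, q, e, φ, h1, h2, ι, _, C, hC⟩ := mod_of_elem S hS
  let g0 : V ≃+ V' :=
    { toFun := fun v => (φ.symm (f (Multiplicative.ofAdd v))).toAdd
      invFun := fun v => (f.symm (φ (Multiplicative.ofAdd v))).toAdd
      left_inv := by
        intro v
        show (f.symm (φ (φ.symm (f (Multiplicative.ofAdd v))))).toAdd = v
        rw [MulEquiv.apply_symm_apply, MulEquiv.symm_apply_apply]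
        rfl
      right_inv := by
        intro v
        show (φ.symm (f (f.symm (φ (Multiplicative.ofAdd v))))).toAdd = v
        rw [MulEquiv.apply_symm_apply, MulEquiv.symm_apply_apply]
        rfl
      map_add' := by
        intro v w
        have h3 : φ.symm (f (Multiplicative.ofAdd (v + w))) =
          φ.symm (f (Multiplicative.ofAdd v)) * φ.symm (f (Multiplicative.ofAdd w)) := by
          rw [ofAdd_add, map_mul, map_mul]
        exact congrArg Multiplicative.toAdd h3 }
  let g : V ≃ₗ[ZMod 2] V' := g0.toLinearEquiv (fun c v => by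
    rcases OSE_.z2 c with rfl | rfl
    · rw [zero_smul, zero_smul, map_zero]
    · rw [one_smul, one_smul])
  have hg : ∀ v, φ (Multiplicative.ofAdd (g v)) = f (Multiplicative.ofAdd v) := by
    intro v
    show φ (φ.symm (f (Multiplicative.ofAdd v))) = _
    rw [MulEquiv.apply_symm_apply]
  have hge : g D.e = e := by
    have h3 : φ (Multiplicative.ofAdd (g D.e)) = φ (Multiplicative.ofAdd e) := by
      rw [hg, h1, hfe]
    exact Multiplicative.ofAdd.injective (φ.injective h3)
  have hq : ∀ a b c d, q.compl₁₂ g.toLinearMap g.toLinearMap a b =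
      q.compl₁₂ g.toLinearMap g.toLinearMap c d ↔ D.q a b = D.q c d := by
    intro a b c d
    show q (g a) (g b) = q (g c) (g d) ↔ _
    rw [h2, hg, hg, hg, hg]
    exact eq_iff_of_zero D S f hf a b c d
  have hz : ∀ a b, q.compl₁₂ g.toLinearMap g.toLinearMap a b = 0 ↔ D.q a b = D.z := by
    intro a b
    have h3 := hq a b 0 0
    rw [map_zero, dz] at h3
    exact h3
  obtain ⟨k, H, σ, hσ⟩ := reindex (trd C g)
  refine ⟨B, _, _, q.compl₁₂ g.toLinearMap g.toLinearMap, hq, k, H, fun j => ?_⟩
  rcases hC (σ j) with hL | hE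
  · have hL' := trd_loc C g (σ j) hL
    by_cases h2e : ∃ v w, H.p j v = v ∧ H.p j w = w ∧ v ≠ 0 ∧ w ≠ 0 ∧ v ≠ w
    · right
      left
      refine ⟨?_, h2e⟩
      intro v w w' _ _
      rw [hσ]
      exact hL' v w w'
    · left
      push Not at h2e
      obtain ⟨v, hv⟩ := H.ne j
      have huniq : ∀ w, H.p j w = w → w = 0 ∨ w = H.p j v := by
        intro w hw
        by_cases hw0 : w = 0
        · exact Or.inl hw0
        · exact Or.inr (h2e w (H.p j v) hw (H.idem j v) hw0 hv)
      refine ⟨H.p j v, H.idem j v, fun h3 => hv (hnd _ fun y => ?_), huniq⟩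
      rw [← hz]
      have h4 : q.compl₁₂ g.toLinearMap g.toLinearMap (H.p j v) y =
          q.compl₁₂ g.toLinearMap g.toLinearMap (H.p j v) (H.p j y) := by
        conv_lhs => rw [← H.sum y rfl]
        rw [map_sum, Finset.sum_eq_single j]
        · intro i _ hij
          exact H.perp j i hij.symm v y
        · intro h
          exact absurd (Finset.mem_univ j) h
      rw [h4]
      rcases huniq (H.p j y) (H.idem j y) with h5 | h5
      · rw [h5, map_zero]
      · rw [h5]
        exact h3
  · right
    right
    rw [← hge] at hE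
    obtain ⟨τ, g1, g2, g3, d, d', g4, g5, g6, g7, g8, g9, g10⟩ := trd_ext C g D.e (σ j) hE
    refine ⟨τ, ⟨?_, ?_, ?_, ?_⟩⟩
    · rw [hσ]
      exact g1
    · obtain ⟨t, ht, ht'⟩ := g2
      exact ⟨t, by rw [hσ]; exact ht, ht'⟩
    · intro v w hv hw
      rw [hσ] at hv hw ⊢
      exact g3 v w hv hw
    · exact ⟨d, d', by rw [hσ]; exact g4, by rw [hσ]; exact g5, g6, g7, g8, g9, g10⟩

end Pool.Agent.ASE
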