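import Pool.Agent.ASE.BAS
import Pool.Agent.ASE.OSE

/-!
THEOREM A* for arbitrary `-1`, module CMP: components of `H = ker φ` and a group valued map on `H`.
-/

set_option autoImplicit false

namespace Pool.Agent.ASE

open scoped BigOperators
open QS Pool.Agent.RFT Pool.Agent.AST
open Pool.Agent.Helper58.PLine (QData)

namespace CMP_

variable {V Q : Type} [AddCommGroup V] [Module (ZMod 2) V]

/-- the restriction of the data to `H = ker φ` -/
def dH {D : QData V Q} {φ : V →ₗ[ZMod 2] ZMod 2} (hS : SitD D φ) :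
    QData (LinearMap.ker φ) Q where
  q a b := D.q a b
  z := D.z
  e := ⟨D.e, hS.phe⟩
  symm x y := D.symm _ _
  add x y w := D.add _ _ _
  diag x := D.diag _
  link := by
    intro a b c d h
    obtain ⟨s, h1, h2, h3⟩ := hS.slot2 (c := D.q a b) a.2 c.2 ⟨b, b.2, rfl⟩ ⟨d, d.2, h.symm⟩
    exact ⟨⟨s, h1⟩, h2.symm, h.symm.trans h3.symm⟩

/-- the quaternionic structure of `H` -/
def sH {D : QData V Q} {φ : V →ₗ[ZMod 2] ZMod 2} (hS : SitD D φ) : QStruct where
  G := Multiplicative (LinearMap.ker φ)
  Q := {c : Q // ∃ a b : LinearMap.ker φ, (dH hS).q a b = c}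
  neg := Multiplicative.ofAdd (dH hS).e
  zero := ⟨(dH hS).z, 0, 0, (dH hS).q_zero 0⟩
  q a b := ⟨(dH hS).q a.toAdd b.toAdd, a.toAdd, b.toAdd, rfl⟩
  exp_two := fun a => congrArg Multiplicative.ofAdd (self_add a.toAdd)
  surj := by
    rintro ⟨c, a, b, h⟩
    exact ⟨Multiplicative.ofAdd a, Multiplicative.ofAdd b, Subtype.ext h⟩
  qs1 := by
    intro a
    apply Subtype.ext
    show (dH hS).q a.toAdd ((dH hS).e + a.toAdd) = (dH hS).z
    rw [add_comm]
    exact (dH hS).diag _
  qs2 := fun a b => Subtype.ext ((dH hS).symm _ _)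
  qs3 := by
    intro a b c
    rw [Subtype.ext_iff, Subtype.ext_iff]
    exact (dH hS).add _ _ _
  qs4 := by
    intro a b c d h
    obtain ⟨x, h1, h2⟩ := (dH hS).link _ _ _ _ (Subtype.ext_iff.1 h)
    exact ⟨Multiplicative.ofAdd x, Subtype.ext h1, Subtype.ext h2⟩

end CMP_

open CMP_

theorem CMP : Stmt_CMP := by
  intro V Q _ _ _ D φ hS hsm
  obtain ⟨w, hw⟩ := hS.out
  have hfin : Finite (sH hS).G := inferInstanceAs (Finite (Multiplicative (LinearMap.ker φ)))
  have hcard : Nat.card (sH hS).G < Nat.card V := by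
    show Nat.card (Multiplicative (LinearMap.ker φ)) < Nat.card V
    have h1 : Nat.card (Multiplicative (LinearMap.ker φ)) = Nat.card (LinearMap.ker φ) := rfl
    rw [h1]
    exact Finite.card_subtype_lt (x := w) (fun h => by
      have h2 : φ w = 0 := h
      rw [hw] at h2
      exact absurd h2 (by decide))
  have hET : ElemType (sH hS) := hsm _ hfin hcard
  obtain ⟨B, _, _, q, hq, k, C, hC⟩ := OSE (LinearMap.ker φ) Q (dH hS) (sH hS)
    ⟨MulEquiv.refl _, rfl, fun a b =>
      ⟨fun h => congrArg Subtype.val h, fun h => Subtype.ext h⟩⟩ hET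
    (by
      intro x hx
      apply Subtype.ext
      exact hS.nd fun y hy => hx ⟨y, hy⟩)
  let P : V →ₗ[ZMod 2] LinearMap.ker φ :=
    LinearMap.codRestrict (LinearMap.ker φ) (LinearMap.id + φ.smulRight w) (by
      intro v
      show φ (v + φ v • w) = 0
      rw [map_add, map_smul, hw, smul_eq_mul, mul_one]
      exact ZModModule.add_self _)
  have hP : ∀ v, φ v = 0 → ((P v : LinearMap.ker φ) : V) = v := by
    intro v hv
    show v + φ v • w = v
    rw [hv, zero_smul, add_zero]
  have hPH : ∀ x : LinearMap.ker φ, P x = x := fun x => Subtype.ext (hP x x.2)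
  let q' : V →ₗ[ZMod 2] V →ₗ[ZMod 2] B := q.compl₁₂ P P
  have hq' : ∀ a b, q' a b = q (P a) (P b) := fun a b => rfl
  have hsym : ∀ a b, q a b = q b a := fun a b => (hq a b b a).2 ((dH hS).symm _ _)
  refine ⟨B, inferInstance, inferInstance, q', ⟨hS, ?_, ?_, ?_⟩, ?_⟩
  · intro x y
    rw [hq', hq', hsym]
  · intro x
    rw [hq', hq', hq]
    have h1 : P D.e = (dH hS).e := Subtype.ext (hP _ hS.phe)
    rw [h1]
    exact dwu (dH hS) (P x)
  · intro a b c d ha hb hc hd
    rw [hq', hq', hq]
    show D.q (P a) (P b) = D.q (P c) (P d) ↔ _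
    rw [hP a ha, hP b hb, hP c hc, hP d hd]
  let C' : HC q' φ k :=
    { p := fun j => (LinearMap.ker φ).subtype ∘ₗ (C.p j) ∘ₗ P
      mem := fun j v => (C.p j (P v)).2
      idem := by
        intro j v
        show ((C.p j (P (C.p j (P v)))) : V) = (C.p j (P v))
        rw [hPH, C.idem]
      orth := by
        intro i j hij v
        show ((C.p i (P (C.p j (P v)))) : V) = 0
        rw [hPH, C.orth i j hij]
        rfl
      sum := by
        intro v hv
        show ∑ j, ((C.p j (P v) : LinearMap.ker φ) : V) = v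
        have h1 := C.sum (P v) rfl
        have h2 := congrArg (LinearMap.ker φ).subtype h1
        rw [map_sum] at h2
        exact h2.trans (hP v hv)
      perp := by
        intro i j hij v w
        show q (P (C.p i (P v))) (P (C.p j (P w))) = 0
        rw [hPH, hPH, C.perp i j hij]
      ind := by
        intro v w hv hw h j
        show q (P (C.p j (P v))) (P (C.p j (P w))) = 0
        rw [hPH, hPH]
        exact C.ind _ _ rfl rfl h j
      ne := by
        intro j
        obtain ⟨v, hv⟩ := C.ne j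
        refine ⟨v, fun h => hv ?_⟩
        apply Subtype.ext
        have h1 : ((C.p j (P v) : LinearMap.ker φ) : V) = 0 := h
        rw [hPH] at h1
        exact h1 }
  have hp : ∀ j v, C'.p j v = ((C.p j (P v) : LinearMap.ker φ) : V) := fun j v => rfl
  have hpH : ∀ j (x : LinearMap.ker φ), C.p j x = x → C'.p j x = x := by
    intro j x hx
    rw [hp, hPH, hx]
  have hpV : ∀ j v, C'.p j v = v → ∃ x : LinearMap.ker φ, (x : V) = v ∧ C.p j x = x := by
    intro j v hv
    exact ⟨C.p j (P v), hv, C.idem j _⟩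
  refine ⟨k, C', fun j => ?_⟩
  rcases hC j with ⟨u, h1, h2, h3⟩ | ⟨h1, v, w', h2, h3, h4, h5, h6⟩ | ⟨τ, h1, ⟨t, h2, h3⟩, h4,
    d, d', h5, h6, h7, h8, h9, h10, h11⟩
  · left
    refine ⟨u, hpH j u h1, ?_, ?_⟩
    · rw [hq', hPH]
      exact h2
    · intro v hv
      obtain ⟨x, rfl, hx⟩ := hpV j v hv
      rcases h3 x hx with h | h
      · left
        rw [h]
        rfl
      · right
        rw [h]
  · right
    left
    refine ⟨?_, v, w', hpH j v h2, hpH j w' h3, fun h => h4 (Subtype.ext h),
      fun h => h5 (Subtype.ext h), fun h => h6 (Subtype.ext h)⟩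
    intro x y y' hy hy'
    have h7 := h1 (P x) (P y) (P y') rfl rfl
    rw [hq', hq', hq', hp, hPH, map_add]
    exact h7
  · right
    right
    refine ⟨τ ∘ₗ P, ?_, ⟨t, hpH j t h2, ?_⟩, ?_, d, d', hpH j d h5, hpH j d' h6, ?_, ?_,
      fun h => h9 (Subtype.ext h), fun h => h10 (Subtype.ext h), fun h => h11 (Subtype.ext h)⟩
    · show τ (P (C.p j (P D.e))) = 0
      rw [hPH]
      have h12 : P D.e = (dH hS).e := Subtype.ext (hP _ hS.phe)
      rw [h12]
      exact h1
    · show τ (P t) = 1
      rw [hPH]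
      exact h3
    · intro v w' hv hw' hτ h
      obtain ⟨x, rfl, hx⟩ := hpV j v hv
      obtain ⟨y, rfl, hy⟩ := hpV j w' hw'
      have hτ' : τ (P x) = 1 := hτ
      rw [hPH] at hτ'
      rw [hq', hPH, hPH] at h
      rcases h4 x y hx hy hτ' h with h | h
      · left
        rw [h]
        rfl
      · right
        rw [hp]
        have h12 : P D.e = (dH hS).e := Subtype.ext (hP _ hS.phe)
        rw [h12]
        exact congrArg Subtype.val h
    · show τ (P d) = 0
      rw [hPH]
      exact h7
    · show τ (P d') = 0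
      rw [hPH]
      exact h8

end Pool.Agent.ASE
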