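import Pool.Agent.ASE.BAS
import Pool.Agent.AST.CNT

/-!
THEOREM A* FOR ARBITRARY `-1`, step (4): the counting argument `N + (V_h ∩ V_g ∩ H) = H`
(port of AST/CNT.lean of helper67; `V_w - H` is the coset `w + e + N_w`).
-/

set_option autoImplicit false

namespace Pool.Agent.ASE

open scoped BigOperators
open Pool.Agent.RFT Pool.Agent.AST
open Pool.Agent.AST.CNT_ (ei ei_pos ei_neg ei_congr ei_mul cd cd_congr cd_shift cd_pos cd_card
  cd_ker img_finite ineq add_eq_one)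


variable {V B : Type} [AddCommGroup V] [Module (ZMod 2) V] [AddCommGroup B] [Module (ZMod 2) B]

/-- `N` as a submodule -/
def CNE_.Nsub (q : V →ₗ[ZMod 2] V →ₗ[ZMod 2] B) (φ : V →ₗ[ZMod 2] ZMod 2) (e : V) (hS : Sit q φ e)
    (h2 : P2 q φ) : Submodule (ZMod 2) V where
  carrier := {h | NN q φ h}
  add_mem' := fun {a b} ha hb => h2 a b ha hb
  zero_mem' := hS.zero_mem
  smul_mem' := by
    intro c x hx
    rcases z2 c with h | h
    · rw [h, zero_smul]
      exact hS.zero_mem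
    · rw [h, one_smul]
      exact hx

section
variable [Fintype V] {q : V →ₗ[ZMod 2] V →ₗ[ZMod 2] B} {φ : V →ₗ[ZMod 2] ZMod 2} {e : V}

/-- elements outside `H` commuting with `w'` outside `H` -/
theorem CNE_.cA (hS : Sit q φ e) {w' : V} (hw : φ w' = 1) :
    cd (fun w => φ w = 1 ∧ q w w' = 0) = cd (fun n => NN q φ n ∧ q n w' = 0) := by
  rw [← cd_shift (fun w => φ w = 1 ∧ q w w' = 0) (w' + e)]
  apply cd_congr
  intro n
  rw [add_eq_one (hS.phw hw), map_add, LinearMap.add_apply, hS.diag', zero_add]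
  constructor
  · rintro ⟨h1, h2⟩
    exact ⟨⟨h1, w', hw, h2⟩, h2⟩
  · rintro ⟨h1, h2⟩
    exact ⟨h1.1, h2⟩

theorem CNE_.cB (hS : Sit q φ e) (h2 : P2 q φ) {h g : V} (hh : NN q φ h) (hg : NN q φ g) :
    cd (fun w => φ w = 1 ∧ q w h = 0 ∧ q w g = 0) =
      cd (fun n => φ n = 0 ∧ q h n = 0 ∧ q g n = 0) := by
  obtain ⟨w0, h3, h4, h5⟩ := hS.W hh hg (h2 h g hh hg)
  rw [← cd_shift (fun w => φ w = 1 ∧ q w h = 0 ∧ q w g = 0) w0]
  apply cd_congr
  intro n
  rw [add_eq_one h3, map_add, LinearMap.add_apply, LinearMap.add_apply, hS.symm w0 h, h4,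
    hS.symm w0 g, h5, zero_add, zero_add, hS.symm n h, hS.symm n g]

theorem CNE_.cC (hS : Sit q φ e) {h w : V} (hh : NN q φ h) (hw : φ w = 1) :
    cd (fun w' => φ w' = 1 ∧ q w w' = 0 ∧ q w' h = 0) =
      cd (fun n => NN q φ n ∧ q w n = 0 ∧ q n h = 0) := by
  obtain ⟨w1, h3, h4, h5⟩ := hS.S hh hw
  rw [← cd_shift (fun w' => φ w' = 1 ∧ q w w' = 0 ∧ q w' h = 0) w1]
  apply cd_congr
  intro n
  rw [add_eq_one h3, map_add, h5, zero_add, map_add, LinearMap.add_apply, hS.symm w1 h, h4,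
    zero_add]
  constructor
  · rintro ⟨h6, h7, h8⟩
    exact ⟨⟨h6, w, hw, by rw [hS.symm n w, h7]⟩, h7, h8⟩
  · rintro ⟨h6, h7, h8⟩
    exact ⟨h6.1, h7, h8⟩

theorem CNE_.cD (hS : Sit q φ e) {n : V} (hn : NN q φ n) :
    cd (fun w => φ w = 1 ∧ q w n = 0) = cd (fun h => φ h = 0 ∧ q n h = 0) := by
  obtain ⟨-, w0, h3, h4⟩ := hn
  rw [← cd_shift (fun w => φ w = 1 ∧ q w n = 0) w0]
  apply cd_congr
  intro h
  rw [add_eq_one h3, map_add, LinearMap.add_apply, hS.symm w0 n, h4, zero_add, hS.symm h n]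

/-- first count of the triples -/
theorem CNE_.left (hS : Sit q φ e) (h2 : P2 q φ) :
    ∑ w : V, ei (φ w = 1) * (cd (fun n => NN q φ n ∧ q n w = 0) *
      cd (fun n => NN q φ n ∧ q n w = 0)) =
    ∑ h : V, ∑ g : V, ei (NN q φ h ∧ NN q φ g) *
      cd (fun n => φ n = 0 ∧ q h n = 0 ∧ q g n = 0) := by
  have h1 : ∀ w : V, ei (φ w = 1) * (cd (fun n => NN q φ n ∧ q n w = 0) *
      cd (fun n => NN q φ n ∧ q n w = 0)) =
      ∑ h : V, ∑ g : V, ei (NN q φ h ∧ NN q φ g) * ei (φ w = 1 ∧ q w h = 0 ∧ q w g = 0) := by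
    intro w
    unfold cd
    rw [Finset.sum_mul_sum, Finset.mul_sum]
    refine Finset.sum_congr rfl fun h _ => ?_
    rw [Finset.mul_sum]
    refine Finset.sum_congr rfl fun g _ => ?_
    rw [ei_mul, ei_mul, ei_mul]
    apply ei_congr
    beta_reduce
    rw [hS.symm h w, hS.symm g w]
    tauto
  rw [Finset.sum_congr rfl fun w _ => h1 w, Finset.sum_comm]
  refine Finset.sum_congr rfl fun h _ => ?_
  rw [Finset.sum_comm]
  refine Finset.sum_congr rfl fun g _ => ?_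
  rw [← Finset.mul_sum]
  by_cases hh : NN q φ h ∧ NN q φ g
  · rw [ei_pos hh, one_mul, one_mul]
    exact CNE_.cB hS h2 hh.1 hh.2
  · rw [ei_neg hh, zero_mul, zero_mul]

/-- second count of the triples -/
theorem CNE_.right (hS : Sit q φ e) :
    ∑ w : V, ei (φ w = 1) * (cd (fun n => NN q φ n ∧ q n w = 0) *
      cd (fun n => NN q φ n ∧ q n w = 0)) =
    ∑ n : V, ei (NN q φ n) * (cd (fun h => φ h = 0 ∧ q n h = 0) *
      cd (fun h => NN q φ h ∧ q n h = 0)) := by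
  have h1 : ∀ w' : V, ei (φ w' = 1) * (cd (fun n => NN q φ n ∧ q n w' = 0) *
      cd (fun n => NN q φ n ∧ q n w' = 0)) =
      ∑ w : V, ∑ h : V, ei (φ w = 1 ∧ NN q φ h) * ei (φ w' = 1 ∧ q w w' = 0 ∧ q w' h = 0) := by
    intro w'
    by_cases hw : φ w' = 1
    · rw [ei_pos hw, one_mul]
      nth_rewrite 1 [← CNE_.cA hS hw]
      unfold cd
      rw [Finset.sum_mul_sum]
      refine Finset.sum_congr rfl fun w _ => ?_
      refine Finset.sum_congr rfl fun h _ => ?_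
      rw [ei_mul, ei_mul]
      apply ei_congr
      beta_reduce
      rw [hS.symm h w']
      tauto
    · rw [ei_neg hw, zero_mul]
      symm
      refine Finset.sum_eq_zero fun w _ => Finset.sum_eq_zero fun h _ => ?_
      rw [ei_neg (p := φ w' = 1 ∧ q w w' = 0 ∧ q w' h = 0) fun h => hw h.1, mul_zero]
  rw [Finset.sum_congr rfl fun w _ => h1 w, Finset.sum_comm]
  have h3 : ∀ w : V, ∑ w' : V, ∑ h : V, ei (φ w = 1 ∧ NN q φ h) *
      ei (φ w' = 1 ∧ q w w' = 0 ∧ q w' h = 0) =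
      ∑ h : V, ei (φ w = 1 ∧ NN q φ h) * cd (fun n => NN q φ n ∧ q w n = 0 ∧ q n h = 0) := by
    intro w
    rw [Finset.sum_comm]
    refine Finset.sum_congr rfl fun h _ => ?_
    rw [← Finset.mul_sum]
    by_cases hh : φ w = 1 ∧ NN q φ h
    · rw [ei_pos hh, one_mul, one_mul]
      exact CNE_.cC hS hh.2 hh.1
    · rw [ei_neg hh, zero_mul, zero_mul]
  rw [Finset.sum_congr rfl fun w _ => h3 w]
  have h4 : ∀ w : V, ∑ h : V, ei (φ w = 1 ∧ NN q φ h) *
      cd (fun n => NN q φ n ∧ q w n = 0 ∧ q n h = 0) =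
      ∑ n : V, ei (NN q φ n) * (ei (φ w = 1 ∧ q w n = 0) *
        cd (fun h => NN q φ h ∧ q n h = 0)) := by
    intro w
    unfold cd
    have h5 : ∀ h : V, ei (φ w = 1 ∧ NN q φ h) * ∑ n : V, ei (NN q φ n ∧ q w n = 0 ∧ q n h = 0) =
        ∑ n : V, ei (NN q φ n) * (ei (φ w = 1 ∧ q w n = 0) * ei (NN q φ h ∧ q n h = 0)) := by
      intro h
      rw [Finset.mul_sum]
      refine Finset.sum_congr rfl fun n _ => ?_
      rw [ei_mul, ei_mul, ei_mul]
      apply ei_congr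
      tauto
    rw [Finset.sum_congr rfl fun h _ => h5 h, Finset.sum_comm]
    refine Finset.sum_congr rfl fun n _ => ?_
    rw [← Finset.mul_sum, ← Finset.mul_sum]
  rw [Finset.sum_congr rfl fun w _ => h4 w, Finset.sum_comm]
  refine Finset.sum_congr rfl fun n _ => ?_
  rw [← Finset.mul_sum, ← Finset.sum_mul]
  by_cases hn : NN q φ n
  · rw [ei_pos hn, one_mul, one_mul]
    congr 1
    exact CNE_.cD hS hn
  · rw [ei_neg hn, zero_mul, zero_mul]

/-- `∑_n |N_n|² = ∑_{h,g} |N_{h,g}|` -/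
theorem CNE_.third (hS : Sit q φ e) :
    ∑ n : V, ei (NN q φ n) * (cd (fun h => NN q φ h ∧ q n h = 0) *
      cd (fun h => NN q φ h ∧ q n h = 0)) =
    ∑ h : V, ∑ g : V, ei (NN q φ h ∧ NN q φ g) *
      cd (fun n => NN q φ n ∧ q h n = 0 ∧ q g n = 0) := by
  have h1 : ∀ n : V, ei (NN q φ n) * (cd (fun h => NN q φ h ∧ q n h = 0) *
      cd (fun h => NN q φ h ∧ q n h = 0)) =
      ∑ h : V, ∑ g : V, ei (NN q φ h ∧ NN q φ g) * ei (NN q φ n ∧ q h n = 0 ∧ q g n = 0) := by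
    intro n
    unfold cd
    rw [Finset.sum_mul_sum, Finset.mul_sum]
    refine Finset.sum_congr rfl fun h _ => ?_
    rw [Finset.mul_sum]
    refine Finset.sum_congr rfl fun g _ => ?_
    rw [ei_mul, ei_mul, ei_mul]
    apply ei_congr
    rw [hS.symm h n, hS.symm g n]
    tauto
  rw [Finset.sum_congr rfl fun w _ => h1 w, Finset.sum_comm]
  refine Finset.sum_congr rfl fun h _ => ?_
  rw [Finset.sum_comm]
  refine Finset.sum_congr rfl fun g _ => ?_
  rw [← Finset.mul_sum]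
  rfl

end

theorem CNT : Stmt_CNT := by
  intro V B _ _ _ _ _ q φ e hS h2 h3
  have := Fintype.ofFinite V
  set N : Submodule (ZMod 2) V := CNE_.Nsub q φ e hS h2 with hN
  set H : Submodule (ZMod 2) V := LinearMap.ker φ with hH
  have hNH : N ≤ H := fun h hh => LinearMap.mem_ker.2 hh.1
  have mN : ∀ h, h ∈ N ↔ NN q φ h := fun h => Iff.rfl
  have mH : ∀ h, h ∈ H ↔ φ h = 0 := fun h => LinearMap.mem_ker
  set cN : ℕ := cd (fun v => v ∈ N) with hcN
  set cH : ℕ := cd (fun v => v ∈ H) with hcH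
  -- P3 in cardinalities
  have e1 : ∀ n, NN q φ n → cd (fun h => φ h = 0 ∧ q n h = 0) * cN =
      cH * cd (fun h => NN q φ h ∧ q n h = 0) := by
    intro n hn
    have hi : (q n) '' (N : Set V) = (q n) '' (H : Set V) := by
      apply Set.Subset.antisymm (Set.image_mono hNH)
      rintro _ ⟨u, hu, rfl⟩
      obtain ⟨z, hz, hz'⟩ := h3 n u hn ((mH u).1 hu)
      exact ⟨z, hz, hz'⟩
    rw [hcN, hcH, cd_ker N (q n), cd_ker H (q n), hi]
    have a1 : cd (fun h => φ h = 0 ∧ q n h = 0) = cd (fun v => v ∈ H ∧ q n v = 0) :=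
      cd_congr fun v => by rw [mH]
    have a2 : cd (fun h => NN q φ h ∧ q n h = 0) = cd (fun v => v ∈ N ∧ q n v = 0) :=
      cd_congr fun v => by rw [mN]
    rw [a1, a2]
    ring
  have e2 := (CNE_.left hS h2).symm.trans (CNE_.right hS)
  have e3 : (∑ h : V, ∑ g : V, ei (NN q φ h ∧ NN q φ g) *
      cd (fun n => φ n = 0 ∧ q h n = 0 ∧ q g n = 0)) * cN =
      cH * ∑ h : V, ∑ g : V, ei (NN q φ h ∧ NN q φ g) *
      cd (fun n => NN q φ n ∧ q h n = 0 ∧ q g n = 0) := by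
    rw [e2, ← CNE_.third hS, Finset.sum_mul, Finset.mul_sum]
    refine Finset.sum_congr rfl fun n _ => ?_
    by_cases hn : NN q φ n
    · rw [ei_pos hn, one_mul, one_mul]
      calc _ = (cd (fun h => φ h = 0 ∧ q n h = 0) * cN) *
            cd (fun h => NN q φ h ∧ q n h = 0) := by ring
        _ = _ := by
            rw [e1 n hn]
            ring
    · rw [ei_neg hn, zero_mul, zero_mul, zero_mul, mul_zero]
  have key : ∀ h g, NN q φ h → NN q φ g →
      cd (fun n => φ n = 0 ∧ q h n = 0 ∧ q g n = 0) * cN =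
      cH * cd (fun n => NN q φ n ∧ q h n = 0 ∧ q g n = 0) := by
    have le1 : ∀ h g, ei (NN q φ h ∧ NN q φ g) *
        cd (fun n => φ n = 0 ∧ q h n = 0 ∧ q g n = 0) * cN ≤
        cH * (ei (NN q φ h ∧ NN q φ g) *
        cd (fun n => NN q φ n ∧ q h n = 0 ∧ q g n = 0)) := by
      intro h g
      have := (ineq N H hNH ((q h).prod (q g))).1
      have a1 : cd (fun v => v ∈ H ∧ ((q h).prod (q g)) v = 0) =
          cd (fun n => φ n = 0 ∧ q h n = 0 ∧ q g n = 0) := cd_congr fun v => by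
        rw [mH]; exact and_congr_right fun _ => Prod.mk_eq_zero
      have a2 : cd (fun v => v ∈ N ∧ ((q h).prod (q g)) v = 0) =
          cd (fun n => NN q φ n ∧ q h n = 0 ∧ q g n = 0) := cd_congr fun v => by
        rw [mN]; exact and_congr_right fun _ => Prod.mk_eq_zero
      rw [a1, a2] at this
      calc _ = ei (NN q φ h ∧ NN q φ g) *
            (cd (fun n => φ n = 0 ∧ q h n = 0 ∧ q g n = 0) * cN) := by ring
        _ ≤ ei (NN q φ h ∧ NN q φ g) *
            (cH * cd (fun n => NN q φ n ∧ q h n = 0 ∧ q g n = 0)) := Nat.mul_le_mul_left _ this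
        _ = _ := by ring
    rw [Finset.sum_mul, Finset.mul_sum] at e3
    have e4 := (Finset.sum_eq_sum_iff_of_le (s := Finset.univ)
      (f := fun h : V => (∑ g : V, ei (NN q φ h ∧ NN q φ g) *
        cd (fun n => φ n = 0 ∧ q h n = 0 ∧ q g n = 0)) * cN)
      (g := fun h : V => cH * ∑ g : V, ei (NN q φ h ∧ NN q φ g) *
        cd (fun n => NN q φ n ∧ q h n = 0 ∧ q g n = 0)) (by
        intro h _
        rw [Finset.sum_mul, Finset.mul_sum]
        exact Finset.sum_le_sum fun g _ => le1 h g)).1 e3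
    intro h g hh hg
    have e5 := e4 h (Finset.mem_univ h)
    rw [Finset.sum_mul, Finset.mul_sum] at e5
    have e6 := (Finset.sum_eq_sum_iff_of_le (s := Finset.univ)
      (f := fun g : V => ei (NN q φ h ∧ NN q φ g) *
        cd (fun n => φ n = 0 ∧ q h n = 0 ∧ q g n = 0) * cN)
      (g := fun g : V => cH * (ei (NN q φ h ∧ NN q φ g) *
        cd (fun n => NN q φ n ∧ q h n = 0 ∧ q g n = 0))) (fun g _ => le1 h g)).1 e5 g
      (Finset.mem_univ g)
    rw [ei_pos ⟨hh, hg⟩, one_mul, one_mul] at e6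
    exact e6
  intro h g u hh hg hu
  have hk := key h g hh hg
  have a1 : cd (fun v => v ∈ H ∧ ((q h).prod (q g)) v = 0) =
      cd (fun n => φ n = 0 ∧ q h n = 0 ∧ q g n = 0) := cd_congr fun v => by
    rw [mH]; exact and_congr_right fun _ => Prod.mk_eq_zero
  have a2 : cd (fun v => v ∈ N ∧ ((q h).prod (q g)) v = 0) =
      cd (fun n => NN q φ n ∧ q h n = 0 ∧ q g n = 0) := cd_congr fun v => by
    rw [mN]; exact and_congr_right fun _ => Prod.mk_eq_zero
  obtain ⟨n, hn, hn'⟩ := (ineq N H hNH ((q h).prod (q g))).2 (by rw [a1, a2]; exact hk) u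
    ((mH u).2 hu)
  rw [LinearMap.prod_apply, LinearMap.prod_apply] at hn'
  obtain ⟨b1, b2⟩ := Prod.mk.inj hn'
  exact ⟨n, (mN n).1 hn, by rw [map_add, b1, self_add], by rw [map_add, b2, self_add]⟩

end Pool.Agent.ASE
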