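import Pool.Agent.ASE.BAS

/-!
THEOREM A* FOR ARBITRARY `-1`: steps (5), (6), (7), the decomposition `V = N + V'`.
-/

set_option autoImplicit false

namespace Pool.Agent.ASE

open scoped BigOperators
open Pool.Agent.RFT Pool.Agent.AST

section
variable {V B : Type} [AddCommGroup V] [Module (ZMod 2) V] [AddCommGroup B] [Module (ZMod 2) B]
variable {q : V →ₗ[ZMod 2] V →ₗ[ZMod 2] B} {φ : V →ₗ[ZMod 2] ZMod 2} {e : V}

/-- `N` as a submodule -/
def DCP.sN (hS : Sit q φ e) (h2 : P2 q φ) : Submodule (ZMod 2) V where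
  carrier := {h | NN q φ h}
  zero_mem' := hS.zero_mem
  add_mem' := fun ha hb => h2 _ _ ha hb
  smul_mem' := by
    intro c x hx
    rcases z2 c with h | h
    · rw [h, zero_smul]
      exact hS.zero_mem
    · rw [h, one_smul]
      exact hx

/-- the elements commuting with `N` -/
def DCP.sA (q : V →ₗ[ZMod 2] V →ₗ[ZMod 2] B) (φ : V →ₗ[ZMod 2] ZMod 2) :
    Submodule (ZMod 2) V where
  carrier := {v | ∀ n, NN q φ n → q n v = 0}
  zero_mem' := fun n _ => map_zero _
  add_mem' := fun ha hb n hn => by rw [map_add, ha n hn, hb n hn, add_zero]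
  smul_mem' := fun c x hx n hn => by rw [map_smul, hx n hn, smul_zero]

theorem add_cancel2 {M : Type} [AddCommGroup M] [Module (ZMod 2) M] (x y : M) :
    x + (x + y) = y := by rw [← add_assoc, self_add, zero_add]

/-- an element of `N` commuting with `N` is zero -/
theorem DCP.inter (hS : Sit q φ e) (h3 : P3 q φ) {n : V} (hn : NN q φ n)
    (h : ∀ m, NN q φ m → q m n = 0) : n = 0 := by
  apply hS.nd
  intro y hy
  obtain ⟨z, hz, hz'⟩ := h3 n y hn hy
  rw [← hz', hS.symm, h z hz]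

/-- every element is the sum of an element of `N` and one commuting with `N` -/
theorem DCP.decH (hS : Sit q φ e) (h4 : P4 q φ) (h5 : P5 q φ) {u : V} (hu : φ u = 0) :
    ∃ n, NN q φ n ∧ ∀ m, NN q φ m → q m (u + n) = 0 := by
  obtain ⟨n, hn, hn'⟩ := h5 (q u) (by
    intro n n' hn hn'
    obtain ⟨m, hm, h6, h7⟩ := h4 n n' u hn hn' hu
    refine ⟨m, hm, ?_, ?_⟩
    · rw [hS.symm m n, hS.symm u n]
      rw [map_add] at h6
      exact (eq_iff_add.2 h6).symm
    · rw [hS.symm m n', hS.symm u n']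
      rw [map_add] at h7
      exact (eq_iff_add.2 h7).symm)
  refine ⟨n, hn, fun m hm => ?_⟩
  rw [map_add, hS.symm m u, hS.symm m n, hn' m hm, self_add]

/-- an element outside `H` commuting with `N` -/
theorem DCP.w0 (hS : Sit q φ e) (h2 : P2 q φ) (h4 : P4 q φ) (h5 : P5 q φ) :
    ∃ w, φ w = 1 ∧ ∀ m, NN q φ m → q m w = 0 := by
  obtain ⟨w, hw⟩ := hS.out
  obtain ⟨n, hn, hn'⟩ := h5 (q w) (by
    intro n n' hn hn'
    obtain ⟨w1, h6, h7, h8⟩ := hS.W hn hn' (h2 _ _ hn hn')
    obtain ⟨m, hm, h9, h10⟩ := h4 n n' (w + w1) hn hn'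
      (by rw [map_add, hw, h6, one_add_one2])
    refine ⟨m, hm, ?_, ?_⟩
    · rw [hS.symm m n, hS.symm w n]
      rw [map_add, map_add, h7, add_zero] at h9
      exact (eq_iff_add.2 h9).symm
    · rw [hS.symm m n', hS.symm w n']
      rw [map_add, map_add, h8, add_zero] at h10
      exact (eq_iff_add.2 h10).symm)
  refine ⟨w + n, by rw [map_add, hw, hn.1, add_zero], fun m hm => ?_⟩
  rw [map_add, hS.symm m w, hS.symm m n, hn' m hm, self_add]

/-- `(*)`: for `w` outside `H` commuting with `N` the values of `w` are not values of `H` -/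
theorem DCP.star (hS : Sit q φ e) {w h : V} {c : B} (hw : φ w = 1)
    (hwN : ∀ m, NN q φ m → q m w = 0) (hh : φ h = 0) (h1 : ∃ v, q w v = c)
    (h2 : QH q φ h c) : c = 0 := by
  obtain ⟨s, hs, hs1, hs2⟩ := hS.slotH hw hh h1 h2
  have hN : NN q φ s := ⟨hs, w + h, by rw [map_add, hw, hh, add_zero], by
    rw [map_add, hS.symm s w, hS.symm s h, hs1, hs2, self_add]⟩
  rw [← hs1, hS.symm, hwN s hN]

/-- an element outside `H` when `N = 0` -/
theorem DCP.cent (hS : Sit q φ e) (hN : ∀ n, NN q φ n → n = 0) {w v : V} (hw : φ w = 1)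
    (h : q w v = 0) : v = 0 ∨ v = w + e := by
  rcases z2 (φ v) with h1 | h1
  · exact Or.inl (hN v ⟨h1, w, hw, by rw [hS.symm, h]⟩)
  · right
    apply eq_iff_add.2
    refine hN _ ⟨by rw [map_add, map_add, h1, hw, hS.phe, add_zero, one_add_one2], w, hw, ?_⟩
    rw [map_add, LinearMap.add_apply, hS.symm v w, h, hS.diag', zero_add]

/-- step (6) -/
theorem DCP.six (hS : Sit q φ e) (h2 : P2 q φ) (h3 : P3 q φ) (h4 : P4 q φ) (h5 : P5 q φ)
    {y n v0 n1 : V} {c : B} (hy : φ y = 0) (hyN : ∀ m, NN q φ m → q m y = 0) (hn : NN q φ n)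
    (h6 : q y v0 = c) (h7 : q n n1 = c) : c = 0 := by
  obtain ⟨w, hw, hwN⟩ := DCP.w0 hS h2 h4 h5
  obtain ⟨u, hu, hu'⟩ := hS.NQ hn n1
  obtain ⟨n', hn', hnn⟩ := h3 n u hn hu
  rw [hu', h7] at hnn
  have h8 : q (w + n) n' = c := by
    rw [map_add, LinearMap.add_apply, hnn, hS.symm, hwN n' hn', zero_add]
  obtain ⟨s, hs, hs'⟩ := hS.link h6 h8
  -- decompose `s`
  obtain ⟨a, v, ha, hv, hav⟩ : ∃ a v, NN q φ a ∧ (∀ m, NN q φ m → q m v = 0) ∧ s = a + v := by
    rcases z2 (φ s) with h9 | h9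
    · obtain ⟨a, ha, ha'⟩ := DCP.decH hS h4 h5 h9
      exact ⟨a, s + a, ha, ha', by rw [add_comm s a, add_cancel2]⟩
    · obtain ⟨a, ha, ha'⟩ := DCP.decH hS h4 h5 (u := s + w)
        (by rw [map_add, h9, hw, one_add_one2])
      refine ⟨a, s + a, ha, fun m hm => ?_, by rw [add_comm s a, add_cancel2]⟩
      have h10 := ha' m hm
      rw [map_add, map_add, hwN m hm, add_zero] at h10
      rw [map_add, h10]
  have hya : q y a = 0 := by rw [hS.symm, hyN a ha]
  have hwa : q w a = 0 := by rw [hS.symm, hwN a ha]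
  have hnv : q n v = 0 := hv n hn
  have h9 : q y v = c := by rw [← hs, hav, map_add, hya, zero_add]
  have h10 : q w v + q n a = c := by
    rw [← hs', hav, map_add, map_add, LinearMap.add_apply, LinearMap.add_apply, hwa, hnv,
      zero_add, add_zero, add_comm]
  have hwy : φ (w + y) = 1 := by rw [map_add, hw, hy, add_zero]
  have hwyN : ∀ m, NN q φ m → q m (w + y) = 0 := fun m hm => by
    rw [map_add, hwN m hm, hyN m hm, add_zero]
  have h11 : q (w + y) v = q n a := by
    rw [map_add, LinearMap.add_apply, h9, ← h10, add_cancel2]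
  have h12 : q n a = 0 := DCP.star hS hwy hwyN hn.1 ⟨v, h11⟩ ⟨a, ha.1, rfl⟩
  rw [h12] at h10 h11
  exact DCP.star hS hw hwN hn.1 ⟨v, by rw [← h10, add_zero]⟩ (by rw [← h7]; exact hS.NQ hn n1)

end

theorem DCP : Stmt_DCP := by
  intro V B _ _ _ _ _ q φ e hS h2 h3 h4 h5
  obtain ⟨w, hw, hwN⟩ := DCP.w0 hS h2 h4 h5
  refine ⟨DCP.sN hS h2, DCP.sA q φ, ⟨?_, ?_⟩, ?_, ?_, ?_, ?_⟩
  · rw [disjoint_iff_inf_le]
    rintro v ⟨hv, hv'⟩
    exact DCP.inter hS h3 hv hv'
  · rw [codisjoint_iff_le_sup]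
    rintro v -
    rw [Submodule.mem_sup]
    rcases z2 (φ v) with h9 | h9
    · obtain ⟨a, ha, ha'⟩ := DCP.decH hS h4 h5 h9
      exact ⟨a, ha, v + a, ha', by rw [add_comm v a, add_cancel2]⟩
    · obtain ⟨a, ha, ha'⟩ := DCP.decH hS h4 h5 (u := v + w)
        (by rw [map_add, h9, hw, one_add_one2])
      refine ⟨a, ha, v + a, fun m hm => ?_, by rw [add_comm v a, add_cancel2]⟩
      have h10 := ha' m hm
      rw [map_add, map_add, hwN m hm, add_zero] at h10
      rw [map_add, h10]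
  · intro hbot
    have hN0 : ∀ n, NN q φ n → n = 0 := fun n hn => by
      have : n ∈ DCP.sN hS h2 := hn
      rw [hbot] at this
      exact this
    refine hS.rig w ⟨?_, ?_, ?_, ?_⟩
    · rintro rfl
      rw [map_zero] at hw
      exact absurd hw (by decide)
    · rintro rfl
      rw [hS.phe] at hw
      exact absurd hw (by decide)
    · intro v hv
      exact DCP.cent hS hN0 hw hv
    · intro v hv
      rcases DCP.cent hS hN0 (hS.phw hw) hv with h | h
      · exact Or.inl h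
      · right
        rw [h, add_assoc, self_add, add_zero]
  · intro hbot
    have : w ∈ DCP.sA q φ := hwN
    rw [hbot] at this
    rw [(Submodule.mem_bot _).1 this, map_zero] at hw
    exact absurd hw (by decide)
  · intro a ha a' ha'
    exact ha' a ha
  · intro a ha b hb a' ha' b' hb' h
    have ha1 : NN q φ a := ha
    have ha2 : ∀ m, NN q φ m → q m a' = 0 := ha'
    rcases z2 (φ a') with h6 | h6
    · exact DCP.six hS h2 h3 h4 h5 h6 ha2 ha1 h.symm rfl
    · exact DCP.star hS h6 ha2 ha1.1 ⟨b', h.symm⟩ (hS.NQ ha1 b)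

end Pool.Agent.ASE
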