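import Pool.Agent.AST.SBAS

/-!
THEOREM A* FOR ARBITRARY `-1` (notes 1876, 1881): a minimal finite linked structure that is not of
elementary type has no prime functional `φ` with `φ(-1) = 0`.  Definitions.

`e` is `-1` written additively; all maps are symmetric with `q x x = q x e`.
The notions `HC`, `QH`, `NN`, `Sy`, `P1`, ..., `P5`, `Splits`, `NS`, `QHS`, `P1S`, `P2S` of
`Pool.Agent.AST` do not depend on `e` and are used here.
-/

set_option autoImplicit false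

namespace Pool.Agent.ASE

open scoped BigOperators
open Pool.Agent.RFT Pool.Agent.AST
open Pool.Agent.Helper58.PLine (QData)

variable {V B Q : Type} [AddCommGroup V] [Module (ZMod 2) V] [AddCommGroup B] [Module (ZMod 2) B]

/-- Linked symmetric bilinear maps over `F_2` with `q x x = q x e`. -/
structure LinkedE (q : V →ₗ[ZMod 2] V →ₗ[ZMod 2] B) (e : V) : Prop where
  symm : ∀ x y, q x y = q y x
  wu : ∀ x, q x x = q x e
  link : ∀ a b c d, q a b = q c d → ∃ x, q a x = q a b ∧ q c x = q a b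

/-- `t` and `t + e` have the smallest possible centralizers -/
def BiRig (C : V → V → Prop) (e t : V) : Prop :=
  t ≠ 0 ∧ t ≠ e ∧ (∀ v, C t v → v = 0 ∨ v = t + e) ∧ ∀ v, C (t + e) v → v = 0 ∨ v = t

/-- The standing situation, group valued: linked, no element of rank at most one, no birigid
element, `φ` prime, `φ e = 0`. -/
structure Sit (q : V →ₗ[ZMod 2] V →ₗ[ZMod 2] B) (φ : V →ₗ[ZMod 2] ZMod 2) (e : V) : Prop where
  lk : LinkedE q e
  phe : φ e = 0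
  r1 : ∀ x, (∀ v w, q x v = 0 ∨ q x w = 0 ∨ q x (v + w) = 0) → x = 0
  rig : ∀ t, ¬ BiRig (fun a b => q a b = 0) e t
  pr : PrimeFun q φ

/-- `H = ker φ` is linked and nondegenerate, `q` is only used on `H` -/
structure SitH (q : V →ₗ[ZMod 2] V →ₗ[ZMod 2] B) (φ : V →ₗ[ZMod 2] ZMod 2) (e : V) : Prop where
  phe : φ e = 0
  symm : ∀ x y, q x y = q y x
  wu : ∀ x, q x x = q x e
  link : ∀ a b c d, φ a = 0 → φ b = 0 → φ c = 0 → φ d = 0 → q a b = q c d →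
    ∃ x, φ x = 0 ∧ q a x = q a b ∧ q c x = q a b
  nd : ∀ h, φ h = 0 → (∀ y, φ y = 0 → q h y = 0) → h = 0

/-- The standing situation, set valued. -/
structure SitD (D : QData V Q) (φ : V →ₗ[ZMod 2] ZMod 2) : Prop where
  phe : φ D.e = 0
  r1 : ∀ x, (∀ v w, D.q x v = D.z ∨ D.q x w = D.z ∨ D.q x (v + w) = D.z) → x = 0
  rig : ∀ t, ¬ BiRig (fun a b => D.q a b = D.z) D.e t
  ph : φ ≠ 0
  pr : ∀ x y, (∃ v, D.q x v = D.z ∧ φ v = 1) → (∃ v, D.q y v = D.z ∧ φ v = 1) →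
    (∃ v, D.q (x + y) v = D.z ∧ φ v = 1) → ∃ v, D.q x v = D.z ∧ D.q y v = D.z ∧ φ v = 1

/-- The standing situation: set valued `D` on `V`, the group valued map `q` on `H = ker φ`. -/
structure SitS (D : QData V Q) (q : V →ₗ[ZMod 2] V →ₗ[ZMod 2] B)
    (φ : V →ₗ[ZMod 2] ZMod 2) : Prop extends SitD D φ where
  symm : ∀ x y, q x y = q y x
  wu : ∀ x, q x x = q x D.e
  cmp : ∀ a b c d, φ a = 0 → φ b = 0 → φ c = 0 → φ d = 0 → (q a b = q c d ↔ D.q a b = D.q c d)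

section kinds

variable {q : V →ₗ[ZMod 2] V →ₗ[ZMod 2] B} {φ : V →ₗ[ZMod 2] ZMod 2} {k : ℕ}

/-- component of dimension one, `L_1` -/
def OneC (C : HC q φ k) (j : Fin k) : Prop :=
  ∃ u, C.p j u = u ∧ q u u ≠ 0 ∧ ∀ v, C.p j v = v → v = 0 ∨ v = u

/-- local component of dimension at least two -/
def LocC (C : HC q φ k) (j : Fin k) : Prop :=
  C.Loc j ∧ ∃ v w, C.p j v = v ∧ C.p j w = w ∧ v ≠ 0 ∧ w ≠ 0 ∧ v ≠ w

/-- component `D[t]`, `dim D ≥ 2`, `D = ker τ` (in the component), `-1 ∈ D` -/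
structure ExtC (C : HC q φ k) (e : V) (j : Fin k) (τ : V →ₗ[ZMod 2] ZMod 2) : Prop where
  te : τ (C.p j e) = 0
  t : ∃ t, C.p j t = t ∧ τ t = 1
  rg : ∀ v w, C.p j v = v → C.p j w = w → τ v = 1 → q v w = 0 → w = 0 ∨ w = v + C.p j e
  two : ∃ d d', C.p j d = d ∧ C.p j d' = d' ∧ τ d = 0 ∧ τ d' = 0 ∧ d ≠ 0 ∧ d' ≠ 0 ∧ d ≠ d'

/-- every component is `L_1` or `D_j[t_j]` with `D_j = ker τ_j` -/
def Fam (C : HC q φ k) (e : V) (τ : Fin k → (V →ₗ[ZMod 2] ZMod 2)) : Prop :=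
  ∀ j, OneC C j ∨ ExtC C e j (τ j)

/-- `x ∈ H` is total: its components are `e_j` (`L_1`) resp. outside `D_j` -/
def TotE (C : HC q φ k) (τ : Fin k → (V →ₗ[ZMod 2] ZMod 2)) (x : V) : Prop :=
  φ x = 0 ∧ ∀ j, (OneC C j ∧ C.p j x ≠ 0) ∨ (¬ OneC C j ∧ τ j (C.p j x) = 1)

end kinds

end Pool.Agent.ASE
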