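import Pool.Agent.ASE.UM

/-!
Finite quaternionic structures: prime hyperplanes, isolated elements and unmixed elements as tests
for the elementary type conjecture.
-/

set_option autoImplicit false

namespace Pool.Agent.ASE.HandIn

open QS

/-- `S` has a prime hyperplane: a subgroup `H` of index two of `G` such that, for all `x, y`, if each
of `x`, `y` and `xy` commutes (`q (x, v) = 0`) with some element outside `H`, then `x` and `y`
commute with a common element outside `H`. -/
def HasPrime (S : QStruct) : Prop :=
  ∃ H : Subgroup S.G, H.index = 2 ∧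
    ∀ x y : S.G, (∃ v, v ∉ H ∧ S.q x v = S.zero) → (∃ v, v ∉ H ∧ S.q y v = S.zero) →
      (∃ v, v ∉ H ∧ S.q (x * y) v = S.zero) → ∃ v, v ∉ H ∧ S.q x v = S.zero ∧ S.q y v = S.zero

/-- `S` has an isolated element: an `x ≠ 1` such that for all `u, v` with `q (u, v) = 0`,
`q (x, u) ≠ 0`, `q (x, v) ≠ 0` one has `q (x, -uv) = 0` or `q (x, -u) = q (x, -v) = 0`. -/
def HasIsolated (S : QStruct) : Prop :=
  ∃ x : S.G, x ≠ 1 ∧
    ∀ u v, S.q u v = S.zero → S.q x u ≠ S.zero → S.q x v ≠ S.zero →
      S.q x (u * v * S.neg) = S.zero ∨ (S.q x (u * S.neg) = S.zero ∧ S.q x (v * S.neg) = S.zero)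

/-- `β` is a value of `x`: `β = q (x, y)` for some `y`. -/
def IsVal (S : QStruct) (β : S.Q) (x : S.G) : Prop := ∃ y, S.q x y = β

/-- `w` is unmixed: for every `z`, as soon as `w`, `z` and `wz` have a common nonzero value, every
common value of `w` and `z` is a value of `wz`. -/
def Unmixed (S : QStruct) (w : S.G) : Prop :=
  ∀ (z : S.G) (α β : S.Q), α ≠ S.zero → IsVal S α w → IsVal S α z →
    IsVal S α (w * z) → IsVal S β w → IsVal S β z → IsVal S β (w * z)

/-- Unless the group `D = {w : q (w, -1) = 0}` is trivial, it contains an unmixed `w ≠ 1`. -/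
def HasUnmixed (S : QStruct) : Prop :=
  (∃ w : S.G, w ≠ 1 ∧ S.q w S.neg = S.zero) → ∃ w : S.G, w ≠ 1 ∧ S.q w S.neg = S.zero ∧ Unmixed S w

/-- The property `P` is a test for the elementary type conjecture in the class `C`:
(1) a finite structure in `C` with `P` is of elementary type if all smaller finite structures in `C`
are; (2) all finite structures in `C` are of elementary type iff all finite structures in `C` with
more than one element have the property `P`. -/
def Test (C P : QStruct → Prop) : Prop :=
  (∀ S : QStruct, Finite S.G → C S →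
    (∀ T : QStruct, Finite T.G → C T → Nat.card T.G < Nat.card S.G → ElemType T) →
    P S → ElemType S) ∧
  ((∀ S : QStruct, Finite S.G → C S → ElemType S) ↔
    ∀ S : QStruct, Finite S.G → C S → (∃ g : S.G, g ≠ 1) → P S)

/-- all structures -/
def All : QStruct → Prop := fun _ => True

/-- the structures with `-1 = 1` -/
def NegOne : QStruct → Prop := fun S => S.neg = 1

/-- Prime hyperplanes, isolated elements and unmixed elements are tests for the elementary type
conjecture, both in the class of all quaternionic structures and in the class of those with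
`-1 = 1`. -/
theorem result : (Test All HasPrime ∧ Test All HasIsolated ∧ Test All HasUnmixed) ∧
    (Test NegOne HasPrime ∧ Test NegOne HasIsolated ∧ Test NegOne HasUnmixed) := by
  have ind : ∀ (C P : QStruct → Prop), (∀ S : QStruct, Finite S.G → C S →
      (∀ T : QStruct, Finite T.G → C T → Nat.card T.G < Nat.card S.G → ElemType T) →
      P S → ElemType S) → (∀ S : QStruct, Finite S.G → C S → (∃ g : S.G, g ≠ 1) → P S) →
      ∀ S : QStruct, Finite S.G → C S → ElemType S := by
    intro C P h hP
    have key : ∀ n, ∀ S : QStruct, Finite S.G → C S → Nat.card S.G = n → ElemType S := by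
      intro n
      induction n using Nat.strong_induction_on with
      | _ n ih =>
        intro S hf hC hn
        by_cases h1 : ∃ g : S.G, g ≠ 1
        · refine h S hf hC (fun T hT hT' hc => ?_) (hP S hf hC h1)
          exact ih (Nat.card T.G) (by omega) T hT hT' rfl
        · push Not at h1
          refine ElemType.L0 S ?_
          rw [Nat.card_eq_one_iff_unique]
          exact ⟨⟨fun a b => (h1 a).trans (h1 b).symm⟩, ⟨1⟩⟩
    exact fun S hf hC => key _ S hf hC rfl
  have mk : ∀ (C P : QStruct → Prop), (∀ S : QStruct, Finite S.G → C S →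
      (∀ T : QStruct, Finite T.G → C T → Nat.card T.G < Nat.card S.G → ElemType T) →
      P S → ElemType S) → (∀ S : QStruct, ElemType S → (∃ g : S.G, g ≠ 1) → P S) →
      Test C P :=
    fun C P h h' => ⟨h, fun hE S hf hC hg => h' S (hE S hf hC) hg, ind C P h⟩
  obtain ⟨a1, a2, -, -⟩ := AST.final AST.ASZ AST.RED
  have b1 : ∀ S : QStruct, Finite S.G → All S → (∀ T : QStruct, Finite T.G → All T →
      Nat.card T.G < Nat.card S.G → ElemType T) → HasIsolated S → ElemType S :=
    fun S hf _ hT h => ASE.top_iso ASE.ASD S (fun T hT' hc => hT T hT' trivial hc) h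
  have b2 : ∀ S : QStruct, Finite S.G → NegOne S → (∀ T : QStruct, Finite T.G → NegOne T →
      Nat.card T.G < Nat.card S.G → ElemType T) → HasIsolated S → ElemType S :=
    fun S hf hC hT h => a2 S hf hC hT (ASE.UM.ast_isolated hC h)
  refine ⟨⟨mk _ _ ?_ ?_, mk _ _ b1 ?_, mk _ _ ?_ ?_⟩, mk _ _ ?_ ?_, mk _ _ b2 ?_, mk _ _ ?_ ?_⟩
  · exact fun S hf _ hT h => ASE.top_prime ASE.ASD S (fun T hT' hc => hT T hT' trivial hc) h
  · exact fun S h hg => ASE.elem_prime h hg
  · exact fun S h hg => ASE.elem_isolated h hg
  · intro S hf hC hT h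
    have : Finite S.G := hf
    exact (ASE.UM.isolated_of_unmixed h).elim id (b1 S hf hC hT)
  · exact fun S h _ => ASE.UM.elem_unmixed h
  · exact fun S hf hC hT h => a1 S hf hC hT h
  · exact fun S h hg => ASE.elem_prime h hg
  · exact fun S h hg => ASE.elem_isolated h hg
  · intro S hf hC hT h
    have : Finite S.G := hf
    exact (ASE.UM.isolated_of_unmixed h).elim id (b2 S hf hC hT)
  · exact fun S h _ => ASE.UM.elem_unmixed h

end Pool.Agent.ASE.HandIn
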