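import Pool.Agent.ASE.BAS
import Pool.Agent.ETC.Saturation

/-!
THEOREM A* for arbitrary `-1` (notes 1876, 1881), module INN: saturation of `N`.  The restriction
of `q` to `N` is linked (a slot in `H`, corrected into `N` by step (4)), so the saturation theorem
for linked bilinear maps applies: locally inner linear maps on `N` are inner.
-/

set_option autoImplicit false

namespace Pool.Agent.ASE

open Pool.Agent.RFT Pool.Agent.AST

section

variable {V B : Type} [AddCommGroup V] [Module (ZMod 2) V] [AddCommGroup B] [Module (ZMod 2) B]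
variable {q : V →ₗ[ZMod 2] V →ₗ[ZMod 2] B} {φ : V →ₗ[ZMod 2] ZMod 2} {e : V}

/-- `N` as a submodule -/
def Nsub (hS : Sit q φ e) (h2 : P2 q φ) : Submodule (ZMod 2) V where
  carrier := {h | NN q φ h}
  add_mem' := fun {a b} ha hb => h2 a b ha hb
  zero_mem' := hS.zero_mem
  smul_mem' := by
    intro c x hx
    rcases z2 c with rfl | rfl
    · rw [zero_smul]; exact hS.zero_mem
    · rw [one_smul]; exact hx

/-- the span of all values of `q` and `α` -/
def Bsub (q : V →ₗ[ZMod 2] V →ₗ[ZMod 2] B) (α : V →ₗ[ZMod 2] B) : Submodule (ZMod 2) B :=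
  Submodule.span (ZMod 2) (Set.range (fun p : V × V => q p.1 p.2) ∪ Set.range α)

theorem Bsub_q (α : V →ₗ[ZMod 2] B) (a b : V) : q a b ∈ Bsub q α :=
  Submodule.subset_span (Or.inl ⟨(a, b), rfl⟩)

theorem Bsub_a (q : V →ₗ[ZMod 2] V →ₗ[ZMod 2] B) (α : V →ₗ[ZMod 2] B) (a : V) : α a ∈ Bsub q α :=
  Submodule.subset_span (Or.inr ⟨a, rfl⟩)

instance Bsub_fin [Finite V] (α : V →ₗ[ZMod 2] B) : Finite (Bsub q α) := by
  have h : Module.Finite (ZMod 2) (Bsub q α) := by
    apply FiniteDimensional.span_of_finite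
    exact (Set.finite_range _).union (Set.finite_range _)
  exact Module.finite_of_finite (ZMod 2)

/-- the restriction of `q` to a submodule, with values in `Bsub` -/
def qres (q : V →ₗ[ZMod 2] V →ₗ[ZMod 2] B) (α : V →ₗ[ZMod 2] B) (N : Submodule (ZMod 2) V) :
    N →ₗ[ZMod 2] N →ₗ[ZMod 2] Bsub q α :=
  LinearMap.mk₂ (ZMod 2) (fun a b => ⟨q a b, Bsub_q α a b⟩)
    (fun _ _ _ => Subtype.ext (by simp)) (fun _ _ _ => Subtype.ext (by simp))
    (fun _ _ _ => Subtype.ext (by simp)) (fun _ _ _ => Subtype.ext (by simp))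

theorem qres_apply (α : V →ₗ[ZMod 2] B) (N : Submodule (ZMod 2) V) (a b : N) :
    (qres q α N a b : B) = q a b := rfl

theorem qres_linked (hS : Sit q φ e) (h2 : P2 q φ) (h4 : P4 q φ) (α : V →ₗ[ZMod 2] B) :
    ETC.Linked (qres q α (Nsub hS h2)) := by
  intro a c b d h
  have ha : NN q φ a := a.2
  have hc : NN q φ c := c.2
  have hb : NN q φ b := b.2
  have hd : NN q φ d := d.2
  have h' : q (a : V) b = q (c : V) d := congrArg Subtype.val h
  obtain ⟨t, ht, e1, e2⟩ := hS.slot2 (c := q (a : V) b) ha.1 hc.1 ⟨b, hb.1, rfl⟩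
    ⟨d, hd.1, h'.symm⟩
  obtain ⟨n, hn, e3, e4⟩ := h4 a c t ha hc ht
  refine ⟨⟨n, hn⟩, Subtype.ext ?_, Subtype.ext ?_⟩
  · change q (a : V) n = q (a : V) b
    rw [map_add] at e3
    rw [← eq_of_add_zero e3, e1]
  · change q (c : V) n = q (a : V) b
    rw [map_add] at e4
    rw [← eq_of_add_zero e4, e2]

end

/-- saturation of `N` -/
theorem INN : Stmt_INN := by
  intro V B _ _ _ _ _ q φ e hS h2 h4 α hα
  have hL := qres_linked hS h2 h4 α
  have hfin : Finite (Nsub hS h2) := inferInstance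
  have hL' : ETC.Linked (qres q α (Nsub hS h2)).flip := by
    have hfl : (qres q α (Nsub hS h2)).flip = qres q α (Nsub hS h2) := by
      ext a b
      exact hS.symm _ _
    rw [hfl]
    exact hL
  let α' : Nsub hS h2 →ₗ[ZMod 2] Bsub q α :=
    (α.domRestrict (Nsub hS h2)).codRestrict (Bsub q α) (fun x => Bsub_a q α x)
  obtain ⟨p, hp⟩ := ETC.saturation_two (α := α') hL hL' (by
    intro x
    obtain ⟨u, hu, e1, -⟩ := hα x x x.2 x.2
    refine ⟨⟨u, hu⟩, Subtype.ext ?_⟩
    change q (x : V) u = α x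
    rw [hS.symm, e1])
  refine ⟨p, p.2, fun n hn => ?_⟩
  have h3 : α n = q n (p : V) := congrArg Subtype.val (hp ⟨n, hn⟩)
  rw [hS.symm, h3]

end Pool.Agent.ASE
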