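import Pool.Agent.ASE.Stmts
import Pool.Agent.AST.LEM0

/-!
THEOREM A* for arbitrary `-1` (notes 1876, 1881), Lemma 0: in a finite linked structure the set of
slots determines the symbol.  Port of `Pool.Agent.AST.LEM0`; only the symmetry of `q` is used, and
the counting definitions `L0A`, `L0N` with `L0_eq`, `L0_pos` are reused.
-/

set_option autoImplicit false

namespace Pool.Agent.ASE

open scoped BigOperators
open Pool.Agent.RFT Pool.Agent.AST

section LemZero

variable {U B : Type} [AddCommGroup U] [Module (ZMod 2) U] [AddCommGroup B] [Module (ZMod 2) B]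
  [Fintype U]

theorem L0_mulE (q : U →ₗ[ZMod 2] U →ₗ[ZMod 2] B) {e : U} (hq : LinkedE q e) (c c' : B) (a b : U) :
    (L0A q c * L0A q c') a b = L0N q c c' a b := by
  classical
  rw [Matrix.mul_apply, L0N, Finset.card_filter]
  apply Finset.sum_congr rfl
  intro x _
  rw [L0A, L0A, hq.symm x b]
  by_cases h1 : q a x = c
  · by_cases h2 : q b x = c'
    · rw [if_pos h1, if_pos h2, if_pos ⟨h1, h2⟩]
    · rw [if_pos h1, if_neg h2, if_neg fun h => h2 h.2]
  · rw [if_neg h1, zero_mul, if_neg fun h => h1 h.1]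

theorem L0_mainE (q : U →ₗ[ZMod 2] U →ₗ[ZMod 2] B) {e : U} (hq : LinkedE q e) (c c' : B)
    (hs : ∀ x, (∃ y, q x y = c) ↔ ∃ y, q x y = c') (a : U) (ha : ∃ y, q a y = c) : c = c' := by
  classical
  have lk : ∀ {x y z w : U} {d : B}, q x y = d → q z w = d → ∃ t, q x t = d ∧ q z t = d := by
    intro x y z w d h1 h2
    obtain ⟨t, h3, h4⟩ := hq.link x y z w (h1.trans h2.symm)
    exact ⟨t, h3.trans h1, h4.trans h1⟩
  have e1 : ∀ u v : B, u + (u + v) = v := fun u v => by rw [← add_assoc, self_add, zero_add]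
  -- the two squares agree
  have hM : ∀ x y, L0N q c c x y = L0N q c' c' x y := by
    intro x y
    by_cases h : ∃ s, q x s = c ∧ q y s = c
    · obtain ⟨s, h1, h2⟩ := h
      obtain ⟨u, hu⟩ := (hs x).1 ⟨s, h1⟩
      obtain ⟨v, hv⟩ := (hs y).1 ⟨s, h2⟩
      obtain ⟨t, h3, h4⟩ := lk hu hv
      exact L0_eq q h1 h2 h3 h4
    · have h' : ¬ ∃ s, q x s = c' ∧ q y s = c' := by
        rintro ⟨s, h1, h2⟩
        obtain ⟨u, hu⟩ := (hs x).2 ⟨s, h1⟩
        obtain ⟨v, hv⟩ := (hs y).2 ⟨s, h2⟩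
        exact h (lk hu hv)
      have h1 := mt (L0_pos q).1 h
      have h2 := mt (L0_pos q).1 h'
      omega
  -- one implication for the symmetry
  have hN1 : ∀ x y, (∃ s, q x s = c ∧ q y s = c') → ∃ s, q x s = c' ∧ q y s = c := by
    rintro x y ⟨s, h1, h2⟩
    obtain ⟨u, hu⟩ := (hs x).1 ⟨s, h1⟩
    obtain ⟨v, hv⟩ := (hs y).2 ⟨s, h2⟩
    have h3 : q x (s + u) = c + c' := by rw [map_add, h1, hu]
    have h4 : q y (s + v) = c + c' := by rw [map_add, h2, hv, add_comm]
    obtain ⟨r, h5, h6⟩ := lk h3 h4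
    refine ⟨s + r, ?_, ?_⟩
    · rw [map_add, h1, h5, e1]
    · rw [map_add, h2, h6, add_comm c c', e1]
  have hN2 : ∀ x y, L0N q c c' x y = L0N q c' c x y := by
    intro x y
    by_cases h : ∃ s, q x s = c ∧ q y s = c'
    · obtain ⟨s, h1, h2⟩ := h
      obtain ⟨t, h3, h4⟩ := hN1 x y ⟨s, h1, h2⟩
      exact L0_eq q h1 h2 h3 h4
    · have h' : ¬ ∃ s, q x s = c' ∧ q y s = c := by
        rintro ⟨s, h1, h2⟩
        obtain ⟨t, h3, h4⟩ := hN1 y x ⟨s, h2, h1⟩
        exact h ⟨t, h4, h3⟩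
      have h1 := mt (L0_pos q).1 h
      have h2 := mt (L0_pos q).1 h'
      omega
  have hcomm : L0A q c * L0A q c' = L0A q c' * L0A q c := by
    ext x y
    rw [L0_mulE q hq, L0_mulE q hq, hN2]
  have hsq : L0A q c * L0A q c = L0A q c' * L0A q c' := by
    ext x y
    rw [L0_mulE q hq, L0_mulE q hq, hM]
  have hsymN : ∀ x y, L0N q c c' x y = L0N q c c' y x := by
    intro x y
    rw [hN2 x y]
    unfold L0N
    congr 1
    ext z
    rw [Finset.mem_filter, Finset.mem_filter, and_comm (a := q x z = c')]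
  have hsymM : ∀ x y, L0N q c c x y = L0N q c c y x := by
    intro x y
    unfold L0N
    congr 1
    ext z
    rw [Finset.mem_filter, Finset.mem_filter, and_comm (a := q x z = c)]
  have hprod : (L0A q c * L0A q c') * (L0A q c * L0A q c') =
      (L0A q c * L0A q c) * (L0A q c * L0A q c) := by
    rw [Matrix.mul_assoc, ← Matrix.mul_assoc (L0A q c') (L0A q c) (L0A q c'), ← hcomm,
      Matrix.mul_assoc (L0A q c) (L0A q c') (L0A q c'), ← hsq, ← Matrix.mul_assoc]
  have hsum : ∑ b, L0N q c c' a b * L0N q c c' a b = ∑ b, L0N q c c a b * L0N q c c a b := by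
    have h := congrFun (congrFun hprod a) a
    rw [Matrix.mul_apply, Matrix.mul_apply] at h
    have e3 : ∀ b, (L0A q c * L0A q c') a b * (L0A q c * L0A q c') b a =
        L0N q c c' a b * L0N q c c' a b := fun b => by
      rw [L0_mulE q hq, L0_mulE q hq, hsymN b a]
    have e4 : ∀ b, (L0A q c * L0A q c) a b * (L0A q c * L0A q c) b a =
        L0N q c c a b * L0N q c c a b := fun b => by
      rw [L0_mulE q hq, L0_mulE q hq, hsymM b a]
    rw [Finset.sum_congr rfl fun b _ => e3 b, Finset.sum_congr rfl fun b _ => e4 b] at h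
    exact h
  have hle : ∀ b, L0N q c c' a b ≤ L0N q c c a b := by
    intro b
    by_cases h : ∃ s, q a s = c ∧ q b s = c'
    · obtain ⟨s, h1, h2⟩ := h
      obtain ⟨v, hv⟩ := (hs b).2 ⟨s, h2⟩
      obtain ⟨t, h3, h4⟩ := lk h1 hv
      exact (L0_eq q h1 h2 h3 h4).le
    · have h1 := mt (L0_pos q).1 h
      omega
  have heq : ∀ b, L0N q c c' a b = L0N q c c a b := by
    intro b
    have h1 : ∀ b ∈ Finset.univ, L0N q c c' a b * L0N q c c' a b ≤
        L0N q c c a b * L0N q c c a b := fun b _ => Nat.mul_le_mul (hle b) (hle b)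
    have h2 := (Finset.sum_eq_sum_iff_of_le h1).1 hsum b (Finset.mem_univ b)
    exact Nat.mul_self_inj.1 h2
  obtain ⟨y, hy⟩ := ha
  have h3 : 0 < L0N q c c a a := (L0_pos q).2 ⟨y, hy, hy⟩
  rw [← heq a] at h3
  obtain ⟨s, h4, h5⟩ := (L0_pos q).1 h3
  exact h4.symm.trans h5

end LemZero

/-- Lemma 0 -/
theorem LEM0 : Stmt_LEM0 := by
  intro U B _ _ _ _ _ q e hq c c' hs h
  classical
  have := Fintype.ofFinite U
  obtain ⟨x, y, hxy⟩ := h
  exact L0_mainE q hq c c' hs x ⟨y, hxy⟩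

end Pool.Agent.ASE
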