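import Pool.Agent.ASE.Stmts
import Pool.Agent.AST.SYM

/-!
THEOREM A* FOR ARBITRARY `-1` (notes 1876, 1881), module LEM2: no total element is in `N`
(helper16).
-/

set_option autoImplicit false

namespace Pool.Agent.ASE

open scoped BigOperators
open Pool.Agent.RFT Pool.Agent.AST
open Pool.Agent.Helper58.PLine (QData)

namespace LEM2_

section
variable {V B Q : Type} [AddCommGroup V] [Module (ZMod 2) V] [AddCommGroup B] [Module (ZMod 2) B]
variable {D : QData V Q} {q : V →ₗ[ZMod 2] V →ₗ[ZMod 2] B} {φ : V →ₗ[ZMod 2] ZMod 2}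

theorem cmp0 (hS : SitS D q φ) {a b : V} (ha : φ a = 0) (hb : φ b = 0) :
    q a b = 0 ↔ D.q a b = D.z := by
  have h := hS.cmp a b 0 0 ha hb (map_zero φ) (map_zero φ)
  rw [map_zero, dz] at h
  exact h

/-- (S) -/
theorem S (hS : SitD D φ) {h w : V} (h1 : NS D φ h) (h2 : φ w = 1) :
    ∃ w', φ w' = 1 ∧ D.q h w' = D.z ∧ D.q w w' = D.z := by
  obtain ⟨h0, w1, hw1, hw1'⟩ := h1
  obtain ⟨v, h4, h5, h6⟩ := hS.pr h w ⟨w1, hw1', hw1⟩
    ⟨w + D.e, D.diag w, by rw [map_add, h2, hS.phe, add_zero]⟩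
    ⟨h + w + D.e, D.diag _, by rw [map_add, map_add, h0, h2, hS.phe, zero_add, add_zero]⟩
  exact ⟨v, h6, h4, h5⟩

/-- two generic values in a component `D[t]` -/
theorem gen2 {k : ℕ} (C : HC q φ k) {e : V} {j : Fin k} {τ : V →ₗ[ZMod 2] ZMod 2}
    (hE : ExtC C e j τ) {y : V} (hy : C.p j y = y) (hτ : τ y = 1) :
    ∃ g g', C.p j g = g ∧ C.p j g' = g' ∧ q y g ≠ 0 ∧ q y g ≠ q y y ∧ q y g' ≠ 0 ∧
      q y g' ≠ q y y ∧ q y g ≠ q y g' := by
  obtain ⟨d, d', hd, hd', hτd, hτd', h0, h0', hne⟩ := hE.two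
  have key : ∀ d, C.p j d = d → τ d = 0 → d ≠ 0 → q y d ≠ 0 := by
    intro d hd hτd h0 h
    rcases hE.rg y d hy hd hτ h with h1 | h1
    · exact h0 h1
    · rw [h1, map_add, hτ, hE.te] at hτd
      exact absurd hτd (by decide)
  have k1 := key d hd hτd h0
  have k2 := key d' hd' hτd' h0'
  have k3 : q y (d + d') ≠ 0 := key _ (by rw [map_add, hd, hd'])
    (by rw [map_add, hτd, hτd', add_zero]) (fun h => hne (eq_iff_add.2 h))
  rw [map_add] at k3
  have k4 : q y d ≠ q y d' := fun h => k3 (eq_iff_add.1 h)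
  have e1 : q y (d + d') = q y d + q y d' := map_add _ _ _
  have hdd : C.p j (d + d') = d + d' := by rw [map_add, hd, hd']
  by_cases h1 : q y d = q y y
  · refine ⟨d', d + d', hd', hdd, k2, fun h => k4 (h1.trans h.symm), by rw [e1]; exact k3, ?_, ?_⟩
    · rw [e1, ← h1]
      exact fun h => k2 (by simpa using h)
    · rw [e1]
      exact fun h => k1 (by simpa using h)
  by_cases h2 : q y d' = q y y
  · refine ⟨d, d + d', hd, hdd, k1, h1, by rw [e1]; exact k3, ?_, ?_⟩
    · rw [e1, ← h2]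
      exact fun h => k1 (by simpa using h)
    · rw [e1]
      exact fun h => k2 (by simpa using h)
  exact ⟨d, d', hd, hd', k1, h1, k2, h2, k4⟩

end

end LEM2_

open LEM2_ in
theorem LEM2 : Stmt_LEM2 := by
  classical
  intro V B Q _ _ _ _ _ D q φ hS k C τ hF x hx hN
  -- the components `y j` of `x + e`, `j` not of type `L_1`
  let J := {j : Fin k // ¬ OneC C j}
  have hE : ∀ j : J, ExtC C D.e j.1 (τ j.1) := fun j => (hF j.1).resolve_left j.2
  obtain ⟨y, hy⟩ : ∃ y : J → V, ∀ j, y j = C.p j.1 x + C.p j.1 D.e := ⟨_, fun _ => rfl⟩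
  have hyp : ∀ j : J, C.p j.1 (y j) = y j := by
    intro j
    rw [hy, map_add, C.idem, C.idem]
  have hpy : ∀ (i : Fin k) (j : J), i ≠ j.1 → C.p i (y j) = 0 := by
    intro i j hij
    rw [← hyp j]
    exact C.orth i j.1 hij _
  have hφy : ∀ j, φ (y j) = 0 := fun j => by rw [← hyp j]; exact C.mem _ _
  have hτy : ∀ j : J, τ j.1 (y j) = 1 := by
    intro j
    rw [hy, map_add, (hE j).te, add_zero]
    rcases hx.2 j.1 with h | h
    · exact absurd h.1 j.2
    · exact h.2
  have hqp : ∀ (j : J) g, φ g = 0 → q (y j) g = q (y j) (C.p j.1 g) :=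
    fun j g hg => C.q_comp (hyp j) hg
  -- combinations
  obtain ⟨X, hXa⟩ : ∃ X : (J → ZMod 2) →ₗ[ZMod 2] V, ∀ m, X m = ∑ j, m j • y j :=
    ⟨Fintype.linearCombination (ZMod 2) y, fun m => Fintype.linearCombination_apply _ _ _⟩
  have hcomb : ∀ (f : J → V), (∀ j : J, C.p j.1 (f j) = f j) → ∀ j : J, C.p j.1 (∑ i, f i) = f j := by
    intro f hf j
    rw [map_sum, Finset.sum_eq_single j, hf j]
    · intro i _ hij
      rw [← hf i]
      exact C.orth j.1 i.1 (fun h => hij (Subtype.ext h.symm)) _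
    · intro h
      exact absurd (Finset.mem_univ j) h
  have hcomb0 : ∀ (f : J → V), (∀ j : J, C.p j.1 (f j) = f j) → ∀ i, OneC C i →
      C.p i (∑ j, f j) = 0 := by
    intro f hf i hi
    rw [map_sum]
    refine Finset.sum_eq_zero fun j _ => ?_
    rw [← hf j]
    exact C.orth i j.1 (fun h => j.2 (h ▸ hi)) _
  have hcombφ : ∀ (f : J → V), (∀ j : J, C.p j.1 (f j) = f j) → φ (∑ j, f j) = 0 := by
    intro f hf
    rw [map_sum]
    refine Finset.sum_eq_zero fun j _ => ?_
    rw [← hf j]
    exact C.mem _ _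
  have hsm : ∀ (m : J → ZMod 2) (j : J), C.p j.1 (m j • y j) = m j • y j := fun m j => by
    rw [map_smul, hyp]
  have hXp : ∀ m (j : J), C.p j.1 (X m) = m j • y j := by
    intro m j
    rw [hXa]
    exact hcomb (fun j => m j • y j) (hsm m) j
  have hφX : ∀ m, φ (X m) = 0 := fun m => by
    rw [hXa]
    exact hcombφ (fun j => m j • y j) (hsm m)
  have hqX : ∀ m g, q (X m) g = ∑ j, m j • q (y j) g := by
    intro m g
    rw [hXa, map_sum, LinearMap.sum_apply]
    refine Finset.sum_congr rfl fun j _ => ?_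
    rw [map_smul, LinearMap.smul_apply]
  have hqyX : ∀ (j : J) m, q (y j) (X m) = m j • q (y j) (y j) := by
    intro j m
    rw [hqp j _ (hφX m), hXp, map_smul]
  -- the centralizer of `x` in `H`
  have hcen : ∀ h, φ h = 0 → D.q x h = D.z → ∃ m, h = X m := by
    intro h hh hq
    have hi := C.ind x h hx.1 hh ((cmp0 hS hx.1 hh).2 hq)
    have h1 : ∀ j : J, ∃ m : ZMod 2, C.p j.1 h = m • y j := by
      intro j
      have h2 : τ j.1 (C.p j.1 x) = 1 := by
        rcases hx.2 j.1 with h | h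
        · exact absurd h.1 j.2
        · exact h.2
      rcases (hE j).rg _ _ (C.idem _ _) (C.idem _ _) h2 (hi j.1) with h3 | h3
      · exact ⟨0, by rw [h3, zero_smul]⟩
      · exact ⟨1, by rw [h3, one_smul, hy]⟩
    choose m hm using h1
    refine ⟨m, eq_iff_add.2 ?_⟩
    have h4 : φ (h + X m) = 0 := by rw [map_add, hh, hφX, add_zero]
    rw [← C.sum _ h4]
    refine Finset.sum_eq_zero fun i _ => ?_
    by_cases hi1 : OneC C i
    · obtain ⟨u, hu, huu, hall⟩ := id hi1
      have h5 : C.p i x = u := by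
        rcases hx.2 i with h | h
        · exact (hall _ (C.idem _ _)).resolve_left h.2
        · exact absurd hi1 h.1
      have h6 : C.p i h = 0 := by
        rcases hall _ (C.idem i h) with h6 | h6
        · exact h6
        · exfalso
          have := hi i
          rw [h5, h6] at this
          exact huu this
      rw [map_add, h6, hXa, hcomb0 (fun j => m j • y j) (hsm m) i hi1, add_zero]
    · rw [map_add, hm ⟨i, hi1⟩, hXp m ⟨i, hi1⟩, self_add]
  -- (ST)
  have ST : ∀ v, φ v = 1 → D.q x v = D.z → ∀ g, φ g = 0 →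
      ∃ K, D.q (v + X K) (g + X K) = D.z := by
    intro v hv hxv g hg
    obtain ⟨w', h1, h2, h3⟩ := S hS.toSitD hN (w := v + g + D.e)
      (by rw [map_add, map_add, hv, hg, hS.phe, add_zero, add_zero])
    obtain ⟨K, hK⟩ := hcen (w' + v) (by rw [map_add, h1, hv, one_add_one2]) (dadd D h2 hxv)
    refine ⟨K, ?_⟩
    have h4 : w' = v + X K := by
      rw [← hK, add_comm w' v, ← add_assoc, self_add, zero_add]
    rw [h4, D.symm] at h3
    have h5 := dadd D h3 (D.diag (v + X K))
    have h6 : v + g + D.e + (v + X K + D.e) = (v + v) + (D.e + D.e) + (g + X K) := by abel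
    rwa [h6, self_add, self_add, zero_add, zero_add] at h5
  obtain ⟨-, v, hv, hxv⟩ := id hN
  -- generic elements
  let Gen : V → Prop := fun h => φ h = 0 ∧ ∀ j : J, q (y j) h ≠ 0 ∧ q (y j) h ≠ q (y j) (y j)
  have hcount : ∀ h, Gen h → ∀ M, ∃ K, D.q (v + X K) (h + X M) = D.z := by
    rintro h ⟨hh, hg⟩
    have h1 : ∀ L, ∃ K, D.q (v + X K) (h + X (L + K)) = D.z := by
      intro L
      obtain ⟨K, hK⟩ := ST v hv hxv (h + X L) (by rw [map_add, hh, hφX, add_zero])
      exact ⟨K, by rw [map_add X, ← add_assoc]; exact hK⟩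
    choose K hK using h1
    have hinj : Function.Injective fun L => L + K L := by
      intro L L' hLL
      have hLL' : L + K L = L' + K L' := hLL
      have h2 := hK L
      rw [hLL'] at h2
      have h3 := dadd' D h2 (hK L')
      have h4 : v + X (K L) + (v + X (K L')) = X (K L + K L') := by
        rw [map_add X]
        have : v + X (K L) + (v + X (K L')) = (v + v) + (X (K L) + X (K L')) := by abel
        rw [this, self_add, zero_add]
      rw [h4] at h3
      have hφ' : φ (h + X (L' + K L')) = 0 := by rw [map_add, hh, hφX, add_zero]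
      have h5 := C.ind _ _ (hφX _) hφ' ((cmp0 hS (hφX _) hφ').2 h3)
      have h6 : K L + K L' = 0 := by
        funext j
        have h7 := h5 j.1
        rw [hXp, map_smul, LinearMap.smul_apply, ← hqp j _ hφ', map_add, hqyX] at h7
        rcases z2 ((K L + K L') j) with h8 | h8
        · exact h8
        · exfalso
          rw [h8, one_smul] at h7
          rcases z2 ((L' + K L') j) with h9 | h9
          · rw [h9, zero_smul, add_zero] at h7
            exact (hg j).1 h7
          · rw [h9, one_smul] at h7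
            exact (hg j).2 (eq_iff_add.2 h7)
      have h7 : K L = K L' := eq_iff_add.2 h6
      rw [h7] at hLL'
      exact add_right_cancel hLL'
    intro M
    obtain ⟨L, hL⟩ := (Finite.injective_iff_surjective.1 hinj) M
    have hL' : L + K L = M := hL
    exact ⟨K L, by rw [← hL']; exact hK L⟩
  -- the relation
  obtain ⟨Λ, hΛ⟩ : ∃ Λ : Submodule (ZMod 2) (V × V), ∀ p, p ∈ Λ ↔
      φ p.1 = 0 ∧ φ p.2 = 0 ∧ D.q v p.1 = D.q (X fun _ => 1) p.2 := by
    refine ⟨{ carrier := {p | φ p.1 = 0 ∧ φ p.2 = 0 ∧ D.q v p.1 = D.q (X fun _ => 1) p.2}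
              add_mem' := ?_
              zero_mem' := ?_
              smul_mem' := ?_ }, fun p => Iff.rfl⟩
    · rintro a b ⟨h1, h2, h3⟩ ⟨h4, h5, h6⟩
      refine ⟨?_, ?_, dsum D h3 h6⟩
      · rw [Prod.fst_add, map_add, h1, h4, add_zero]
      · rw [Prod.snd_add, map_add, h2, h5, add_zero]
    · refine ⟨map_zero φ, map_zero φ, ?_⟩
      show D.q v 0 = D.q _ 0
      rw [dz, dz]
    · rintro r a ⟨h1, h2, h3⟩
      rcases z2 r with rfl | rfl
      · rw [zero_smul]
        refine ⟨map_zero φ, map_zero φ, ?_⟩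
        show D.q v 0 = D.q _ 0
        rw [dz, dz]
      · rw [one_smul]
        exact ⟨h1, h2, h3⟩
  have hX1p : ∀ j : J, C.p j.1 (X fun _ => 1) = y j := fun j => by rw [hXp, one_smul]
  have huniq : ∀ u a b, (u, a) ∈ Λ → (u, b) ∈ Λ → ∀ j, q (y j) a = q (y j) b := by
    intro u a b ha hb j
    obtain ⟨-, h1, h2⟩ := (hΛ _).1 ha
    obtain ⟨-, h3, h4⟩ := (hΛ _).1 hb
    have h1' : φ a = 0 := h1
    have h3' : φ b = 0 := h3
    have h5 : D.q (X fun _ => 1) (a + b) = D.z := (dq D).1 (h2.symm.trans h4)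
    have hφ' : φ (a + b) = 0 := by rw [map_add, h1', h3', add_zero]
    have h6 := C.ind _ _ (hφX _) hφ' ((cmp0 hS (hφX _) hφ').2 h5) j.1
    rw [hX1p, ← hqp j _ hφ', map_add] at h6
    exact eq_iff_add.2 h6
  obtain ⟨cut, hcut⟩ : ∃ cut : (J → ZMod 2) → V → V, ∀ K u, cut K u =
      ∑ j : J, K j • C.p j.1 u := ⟨_, fun _ _ => rfl⟩
  have hsc : ∀ (K : J → ZMod 2) (u : V) (j : J), C.p j.1 (K j • C.p j.1 u) = K j • C.p j.1 u :=
    fun K u j => by rw [map_smul, C.idem]
  have hφcut : ∀ K u, φ (cut K u) = 0 := fun K u => by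
    rw [hcut]
    exact hcombφ (fun j => K j • C.p j.1 u) (hsc K u)
  have hqcut : ∀ K u, φ u = 0 → ∀ j, q (y j) (cut K u) = K j • q (y j) u := by
    intro K u hu j
    rw [hqp j _ (hφcut K u), hcut, hcomb (fun j => K j • C.p j.1 u) (hsc K u) j, map_smul,
      ← hqp j u hu]
  have hXcut : ∀ K u, φ u = 0 → D.q (X K) u = D.q (X fun _ => 1) (cut K u) := by
    intro K u hu
    rw [← hS.cmp _ _ _ _ (hφX K) hu (hφX _) (hφcut K u), hqX, hqX]
    refine Finset.sum_congr rfl fun j _ => ?_
    rw [hqcut K u hu, one_smul]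
  have hmem : ∀ K u, φ u = 0 → D.q (v + X K) u = D.z → (u, cut K u) ∈ Λ := by
    intro K u hu h
    rw [hΛ]
    exact ⟨hu, hφcut K u, ((dq' D).2 h).trans (hXcut K u hu)⟩
  -- generic elements exist
  have hg2 : ∀ j : J, ∃ g g', C.p j.1 g = g ∧ C.p j.1 g' = g' ∧ q (y j) g ≠ 0 ∧
      q (y j) g ≠ q (y j) (y j) ∧ q (y j) g' ≠ 0 ∧ q (y j) g' ≠ q (y j) (y j) ∧
      q (y j) g ≠ q (y j) g' := fun j => gen2 C (hE j) (hyp j) (hτy j)
  choose g g' hgp hgp' g1 g2 g1' g2' g3 using hg2
  have hgen : ∀ f : J → V, (∀ j : J, f j = g j ∨ f j = g' j) → Gen (∑ j, f j) ∧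
      ∀ j, q (y j) (∑ i, f i) = q (y j) (f j) := by
    intro f hf
    have hfp : ∀ j : J, C.p j.1 (f j) = f j := by
      intro j
      rcases hf j with h | h
      · rw [h, hgp]
      · rw [h, hgp']
    have h1 : ∀ j, q (y j) (∑ i, f i) = q (y j) (f j) := by
      intro j
      rw [hqp j _ (hcombφ f hfp), hcomb f hfp]
    refine ⟨⟨hcombφ f hfp, fun j => ?_⟩, h1⟩
    rw [h1]
    rcases hf j with h | h
    · rw [h]; exact ⟨g1 j, g2 j⟩
    · rw [h]; exact ⟨g1' j, g2' j⟩
  -- (E)
  have hEE : ∀ M : J → ZMod 2, ∃ c, (X M, c) ∈ Λ ∧ ∀ j, M j = 0 → q (y j) c = 0 := by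
    intro M
    have key : ∀ h, Gen h → ∃ c, (X M, c) ∈ Λ ∧ ∀ j, M j = 0 →
        q (y j) c = 0 ∨ q (y j) c = q (y j) h := by
      intro h hh
      obtain ⟨K0, hK0⟩ := hcount h hh 0
      obtain ⟨K1, hK1⟩ := hcount h hh M
      rw [map_zero, add_zero] at hK0
      have hφ' : φ (h + X M) = 0 := by rw [map_add, hh.1, hφX, add_zero]
      have m0 := hmem K0 h hh.1 hK0
      have m1 := hmem K1 _ hφ' hK1
      have m2 := Λ.add_mem m0 m1
      rw [Prod.mk_add_mk, ← add_assoc, self_add, zero_add] at m2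
      refine ⟨_, m2, fun j hj => ?_⟩
      rw [map_add, hqcut K0 h hh.1, hqcut K1 _ hφ', map_add, hqyX, hj, zero_smul, add_zero,
        ← add_smul]
      rcases z2 (K0 j + K1 j) with h1 | h1
      · left; rw [h1, zero_smul]
      · right; rw [h1, one_smul]
    obtain ⟨h1, h2⟩ := hgen g fun j => Or.inl rfl
    obtain ⟨c, hc, hc'⟩ := key _ h1
    refine ⟨c, hc, fun j hj => ?_⟩
    rcases hc' j hj with h3 | h3
    · exact h3
    · obtain ⟨h4, h5⟩ := hgen (fun i => if i = j then g' i else g i) fun i => by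
        by_cases hi : i = j
        · right; rw [if_pos hi]
        · left; rw [if_neg hi]
      obtain ⟨c', hc2, hc2'⟩ := key _ h4
      have h6 := huniq _ _ _ hc hc2 j
      rcases hc2' j hj with h7 | h7
      · rw [h6, h7]
      · exfalso
        rw [h5, if_pos rfl] at h7
        rw [h2] at h3
        exact g3 j (h3.symm.trans (h6.trans h7))
  -- the values at the `y i`
  choose c hc hc' using fun i : J => hEE (Pi.single i 1)
  have hXs : ∀ i : J, X (Pi.single i 1) = y i := by
    intro i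
    rw [hXa, Finset.sum_eq_single i]
    · rw [Pi.single_eq_same, one_smul]
    · intro j _ hj
      rw [Pi.single_eq_of_ne hj, zero_smul]
    · intro h
      exact absurd (Finset.mem_univ i) h
  have hcX : ∀ K : J → ZMod 2, (X K, ∑ i, K i • c i) ∈ Λ := by
    intro K
    have h1 : (X K, ∑ i, K i • c i) = ∑ i, K i • ((y i, c i) : V × V) := by
      rw [hXa]
      apply Prod.ext
      · rw [Prod.fst_sum]; rfl
      · rw [Prod.snd_sum]; rfl
    rw [h1]
    refine Λ.sum_mem fun i _ => Λ.smul_mem _ ?_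
    have := hc i
    rwa [hXs] at this
  have hqc : ∀ (K : J → ZMod 2) j, q (y j) (∑ i, K i • c i) = K j • q (y j) (c j) := by
    intro K j
    rw [map_sum, Finset.sum_eq_single j]
    · rw [map_smul]
    · intro i _ hij
      rw [map_smul, hc' i j (Pi.single_eq_of_ne (Ne.symm hij) 1), smul_zero]
    · intro h
      exact absurd (Finset.mem_univ j) h
  -- all elements of `H`
  have hall : ∀ γ, φ γ = 0 → ∃ γ', (γ, γ') ∈ Λ ∧ ∀ j, q (y j) γ' = 0 ∨
      q (y j) γ' = q (y j) γ + q (y j) (y j) + q (y j) (c j) := by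
    intro γ hγ
    obtain ⟨K, hK⟩ := ST v hv hxv γ hγ
    have hφ' : φ (γ + X K) = 0 := by rw [map_add, hγ, hφX, add_zero]
    have m1 := Λ.add_mem (hmem K _ hφ' hK) (hcX K)
    rw [Prod.mk_add_mk, add_assoc, self_add, add_zero] at m1
    refine ⟨_, m1, fun j => ?_⟩
    rw [map_add, hqcut K _ hφ', hqc, map_add, hqyX]
    rcases z2 (K j) with h1 | h1
    · left; rw [h1, zero_smul, zero_smul, add_zero]
    · right; rw [h1, one_smul, one_smul, one_smul]
  choose! l hl hl' using hall
  have hladd : ∀ a b, φ a = 0 → φ b = 0 → ∀ j, q (y j) (l (a + b)) =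
      q (y j) (l a) + q (y j) (l b) := by
    intro a b ha hb j
    have h1 := Λ.add_mem (hl a ha) (hl b hb)
    rw [Prod.mk_add_mk] at h1
    rw [← map_add]
    exact huniq _ _ _ (hl _ (by rw [map_add, ha, hb, add_zero])) h1 j
  have hly : ∀ j, q (y j) (l (y j)) = q (y j) (c j) := by
    intro j
    refine huniq _ _ _ (hl _ (hφy j)) ?_ j
    have := hc j
    rwa [hXs] at this
  have hl2 : ∀ γ, φ γ = 0 → ∀ j, q (y j) (l γ) = q (y j) (c j) ∨
      q (y j) (l γ) = q (y j) γ := by
    intro γ hγ j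
    have h1 := hl' (γ + y j) (by rw [map_add, hγ, hφy, add_zero]) j
    rw [hladd γ (y j) hγ (hφy j), hly, map_add (q (y j))] at h1
    rcases h1 with h1 | h1
    · left; exact eq_iff_add.2 h1
    · right
      have h2 : q (y j) γ + q (y j) (y j) + q (y j) (y j) + q (y j) (c j) =
          q (y j) γ + q (y j) (c j) := by
        rw [add_assoc (q (y j) γ), self_add, add_zero]
      rw [h2] at h1
      exact add_right_cancel h1
  have hκ : ∀ j : J, ∃ κ : ZMod 2, ∀ γ, φ γ = 0 → q (y j) (l γ) = κ • q (y j) γ := by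
    intro j
    have hσ : q (y j) (c j) = 0 ∨ q (y j) (c j) = q (y j) (y j) := by
      obtain ⟨⟨hh, h1⟩, -⟩ := hgen g fun j => Or.inl rfl
      obtain ⟨h1, h2⟩ := h1 j
      rcases hl2 _ hh j with h3 | h3 <;> rcases hl' _ hh j with h4 | h4
      · left; rw [← h3, h4]
      · exfalso
        apply h2
        rw [h3] at h4
        have h5 : q (y j) (∑ j, g j) + q (y j) (y j) = 0 := by
          have : (0 : B) + q (y j) (c j) =
              q (y j) (∑ j, g j) + q (y j) (y j) + q (y j) (c j) := by rw [zero_add]; exact h4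
          exact (add_right_cancel this).symm
        exact eq_iff_add.2 h5
      · exfalso
        exact h1 (h3.symm.trans h4)
      · right
        rw [h3] at h4
        have h5 : q (y j) (y j) + q (y j) (c j) = 0 := by
          have : q (y j) (∑ j, g j) + 0 =
              q (y j) (∑ j, g j) + (q (y j) (y j) + q (y j) (c j)) := by
            rw [add_zero, ← add_assoc]; exact h4
          exact (add_left_cancel this).symm
        exact (eq_iff_add.2 h5).symm
    by_cases hs : q (y j) (y j) = 0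
    · have hσ0 : q (y j) (c j) = 0 := by
        rcases hσ with h | h
        · exact h
        · rw [h, hs]
      have h1 : ∀ γ, φ γ = 0 → q (y j) (l γ) = 0 ∨ q (y j) (l γ) = q (y j) γ := by
        intro γ hγ
        have := hl2 γ hγ j
        rwa [hσ0] at this
      by_cases h2 : ∀ γ, φ γ = 0 → q (y j) (l γ) = 0
      · exact ⟨0, fun γ hγ => by rw [h2 γ hγ, zero_smul]⟩
      · push Not at h2
        obtain ⟨a, ha, ha'⟩ := h2
        refine ⟨1, fun γ hγ => ?_⟩
        rw [one_smul]
        rcases h1 γ hγ with h3 | h3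
        · have ha1 := (h1 a ha).resolve_left ha'
          have h4 := h1 (a + γ) (by rw [map_add, ha, hγ, add_zero])
          rw [hladd a γ ha hγ, h3, add_zero, map_add (q (y j))] at h4
          rcases h4 with h4 | h4
          · exact absurd h4 ha'
          · rw [ha1] at h4
            have h5 : q (y j) a + 0 = q (y j) a + q (y j) γ := by rw [add_zero]; exact h4
            rw [h3]
            exact add_left_cancel h5
        · exact h3
    · rcases hσ with h0 | h0
      · refine ⟨0, fun γ hγ => ?_⟩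
        rw [zero_smul]
        rcases hl2 γ hγ j with h1 | h1
        · rw [h1, h0]
        · rcases hl' γ hγ j with h2 | h2
          · exact h2
          · exfalso
            rw [h1, h0, add_zero] at h2
            apply hs
            have : q (y j) γ + 0 = q (y j) γ + q (y j) (y j) := by rw [add_zero]; exact h2
            exact (add_left_cancel this).symm
      · refine ⟨1, fun γ hγ => ?_⟩
        rw [one_smul]
        rcases hl2 γ hγ j with h1 | h1
        · rcases hl' γ hγ j with h2 | h2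
          · exfalso
            apply hs
            rw [← h0, ← h1, h2]
          · rw [h2, h0, add_assoc, self_add, add_zero]
        · exact h1
  choose κ hκ using hκ
  -- the element `v + X κ` commutes with `H`
  have hcomm : ∀ γ, φ γ = 0 → D.q (v + X κ) γ = D.z := by
    intro γ hγ
    apply (dq' D).1
    obtain ⟨-, h1, h2⟩ := (hΛ _).1 (hl γ hγ)
    have h1' : φ (l γ) = 0 := h1
    have h2' : D.q v γ = D.q (X fun _ => 1) (l γ) := h2
    rw [h2', ← hS.cmp _ _ _ _ (hφX _) h1' (hφX _) hγ, hqX, hqX]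
    refine Finset.sum_congr rfl fun j _ => ?_
    rw [one_smul, hκ j γ hγ]
  have hu0 : v + X κ = 0 := by
    apply hS.r1
    intro a b
    rcases z2 (φ a) with h1 | h1
    · exact Or.inl (hcomm a h1)
    · rcases z2 (φ b) with h2 | h2
      · exact Or.inr (Or.inl (hcomm b h2))
      · exact Or.inr (Or.inr (hcomm _ (by rw [map_add, h1, h2, one_add_one2])))
  have h1 : φ (v + X κ) = 0 := by rw [hu0, map_zero]
  rw [map_add, hφX, add_zero, hv] at h1
  exact one_ne_zero h1

end Pool.Agent.ASE
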