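import Pool.Agent.ASE.Stmts
import Pool.Agent.AST.SYM

/-!
THEOREM A* for arbitrary `-1` (notes 1876, 1881): symbols of `H = ker φ` have components (module
SYM).  The element `-1` plays no role here; `HC.q_comp`, `HC.q_pp`, `HC.q_sum`, `HC.p_sum` of
`Pool.Agent.AST.SYM` are used.
-/

set_option autoImplicit false

namespace Pool.Agent.ASE

open scoped BigOperators
open Pool.Agent.RFT Pool.Agent.AST

theorem SYM : Stmt_SYM := by
  intro V B _ _ _ _ q φ e hS k C
  have h1 : ∀ x y x' y', φ x = 0 → φ y = 0 → φ x' = 0 → φ y' = 0 → q x y = q x' y' →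
      ∀ j, q (C.p j x) (C.p j y) = q (C.p j x') (C.p j y') := by
    intro x y x' y' hx hy hx' hy' h j
    obtain ⟨s, hs, e1, e2⟩ := hS.link x y x' y' hx hy hx' hy' h
    have e3 := C.ind x (y + s) hx (by rw [map_add, hy, hs, add_zero])
      (by rw [map_add, e1, self_add]) j
    have e4 := C.ind x' (y' + s) hx' (by rw [map_add, hy', hs, add_zero])
      (by rw [map_add, e2, h, self_add]) j
    have e5 := C.ind (x + x') s (by rw [map_add, hx, hx', add_zero]) hs
      (by rw [map_add, LinearMap.add_apply, e1, e2, self_add]) j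
    rw [map_add, map_add, ← eq_iff_add] at e3 e4
    rw [map_add, map_add, LinearMap.add_apply, ← eq_iff_add] at e5
    rw [e3, e5, e4]
  refine ⟨h1, fun x y hx hy => C.q_sum hx hy, ?_, fun j v y hv hy => C.q_comp hv hy⟩
  intro x y g hx hy hg
  constructor
  · rintro ⟨y', hy', h⟩ j
    exact ⟨C.p j y', C.mem j y', h1 g y' x y hg hy' hx hy h j⟩
  · intro h
    choose z hz h' using h
    refine ⟨∑ j, C.p j (z j), ?_, ?_⟩
    · rw [map_sum]
      exact Finset.sum_eq_zero fun j _ => C.mem j _
    · have hz0 : φ (∑ j, C.p j (z j)) = 0 := by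
        rw [map_sum]
        exact Finset.sum_eq_zero fun j _ => C.mem j _
      rw [C.q_sum hg hz0, C.q_sum hx hy]
      refine Finset.sum_congr rfl fun j _ => ?_
      rw [C.p_sum, ← C.q_pp j g (hz j), h' j]

end Pool.Agent.ASE
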