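import Pool.Agent.ASE.BAS
import Pool.Agent.ASE.SYM

/-!
THEOREM A* FOR ARBITRARY `-1`: Proposition 1 when no component is local of dimension at least two.
-/

set_option autoImplicit false

namespace Pool.Agent.ASE

open scoped BigOperators
open Pool.Agent.RFT Pool.Agent.AST
open Pool.Agent.Helper58.PLine (QData)

/-- a symbol of a component `D[t]` has a nonzero slot in `D` -/
theorem P1E_ext {V B : Type} [AddCommGroup V] [Module (ZMod 2) V] [AddCommGroup B]
    [Module (ZMod 2) B] {q : V →ₗ[ZMod 2] V →ₗ[ZMod 2] B} {φ : V →ₗ[ZMod 2] ZMod 2} {e : V}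
    (hS : SitH q φ e) {k : ℕ} (C : HC q φ k)
    (hD : ∀ j v y, C.p j v = v → φ y = 0 → q v y = q v (C.p j y))
    (j : Fin k) (τ : V →ₗ[ZMod 2] ZMod 2) (hE : ExtC C e j τ) (a b : V) :
    ∃ y, C.p j y = y ∧ y ≠ 0 ∧ τ y = 0 ∧ QH q φ y (q (C.p j a) (C.p j b)) := by
  by_cases h0 : q (C.p j a) (C.p j b) = 0
  · rw [h0]
    obtain ⟨d, d', h1, h2, h3, h4, h5, h6, h7⟩ := hE.two
    exact ⟨d, h1, h5, h3, QH.zero _⟩
  · have n1 : C.p j a ≠ 0 := fun h => h0 (by rw [h, map_zero, LinearMap.zero_apply])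
    have n2 : C.p j b ≠ 0 := fun h => h0 (by rw [h, map_zero])
    have hbe : q (C.p j b) (C.p j e) = q (C.p j b) e := (hD j _ _ (C.idem j b) hS.phe).symm
    have hae : q (C.p j a) (C.p j e) = q (C.p j a) e := (hD j _ _ (C.idem j a) hS.phe).symm
    have n3 : C.p j a + C.p j b + C.p j e ≠ 0 := fun h => h0 (by
      have h1 : C.p j b = C.p j a + C.p j e := by
        have h2 : C.p j b + (C.p j a + C.p j e) = 0 := by
          rw [← h]
          abel
        exact eq_iff_add.2 h2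
      rw [h1, map_add, hae, hS.wu, self_add])
    rcases z2 (τ (C.p j a)) with t1 | t1
    · exact ⟨_, C.idem j a, n1, t1, C.p j b, C.mem j b, rfl⟩
    · rcases z2 (τ (C.p j b)) with t2 | t2
      · exact ⟨_, C.idem j b, n2, t2, C.p j a, C.mem j a, hS.symm _ _⟩
      · refine ⟨C.p j a + C.p j b + C.p j e, ?_, n3, ?_, C.p j b, C.mem j b, ?_⟩
        · rw [map_add, map_add, C.idem, C.idem, C.idem]
        · rw [map_add, map_add, t1, t2, hE.te, one_add_one2, add_zero]
        · rw [map_add, map_add, LinearMap.add_apply, LinearMap.add_apply, hS.wu (C.p j b),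
            hS.symm (C.p j e) (C.p j b), hbe, add_assoc, self_add, add_zero]

/-- the elements `y_j` -/
theorem P1E_slot {V B : Type} [AddCommGroup V] [Module (ZMod 2) V] [AddCommGroup B]
    [Module (ZMod 2) B] {q : V →ₗ[ZMod 2] V →ₗ[ZMod 2] B} {φ : V →ₗ[ZMod 2] ZMod 2} {e : V}
    (hS : SitH q φ e) {k : ℕ} (C : HC q φ k)
    (hD : ∀ j v y, C.p j v = v → φ y = 0 → q v y = q v (C.p j y))
    (j : Fin k) (τ : V →ₗ[ZMod 2] ZMod 2) (hE : OneC C j ∨ ExtC C e j τ) (a b : V) :
    ∃ y, C.p j y = y ∧ QH q φ y (q (C.p j a) (C.p j b)) ∧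
      (OneC C j → ∀ v, C.p j v = v → q y v = 0 → v = 0) ∧
      (¬ OneC C j → y ≠ 0 ∧ τ y = 0) := by
  by_cases h1 : OneC C j
  · obtain ⟨u, hu, hu', hu2⟩ := id h1
    refine ⟨u, hu, ?_, fun _ v hv hv' => ?_, fun h => absurd h1 h⟩
    · rcases hu2 _ (C.idem j a) with ha | ha
      · rw [ha, map_zero, LinearMap.zero_apply]
        exact QH.zero _
      · rcases hu2 _ (C.idem j b) with hb | hb
        · rw [hb, map_zero]
          exact QH.zero _
        · rw [ha, hb]
          exact ⟨u, by rw [← hu]; exact C.mem j u, rfl⟩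
    · rcases hu2 v hv with h2 | h2
      · exact h2
      · rw [h2] at hv'
        exact absurd hv' hu'
  · have hE' : ExtC C e j τ := hE.resolve_left h1
    obtain ⟨y, h2, h3, h4, h5⟩ := P1E_ext hS C hD j τ hE' a b
    exact ⟨y, h2, h5, fun h => absurd h h1, fun _ => ⟨h3, h4⟩⟩

theorem P1E_of (hSYM : Stmt_SYM) : Stmt_P1E := by
  classical
  intro V B Q _ _ _ _ _ D q φ hS k C τ hF hT z a b hz hzN ha hb hzc
  have hH := hS.toSitH
  by_contra hQ
  obtain ⟨-, hSb, hSc, hSd⟩ := hSYM V B q φ D.e hH k C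
  have hs := fun j => P1E_slot hH C hSd j (τ j) (hF j) a b
  choose y hy1 hy4 hyO hyE using hs
  have hE : ∀ j, ∃ t, C.p j t = t ∧ (OneC C j → t = 0) ∧ (¬ OneC C j → τ j t = 1) := by
    intro j
    by_cases h1 : OneC C j
    · exact ⟨0, map_zero _, fun _ => rfl, fun h => absurd h1 h⟩
    · obtain ⟨t, ht, ht'⟩ := ((hF j).resolve_left h1).t
      exact ⟨t, ht, fun h => absurd h h1, fun _ => ht'⟩
  choose t ht1 ht0 ht2 using hE
  have hpsum : ∀ f : Fin k → V, (∀ j, C.p j (f j) = f j) → ∀ j, C.p j (∑ i, f i) = f j := by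
    intro f hf j
    rw [map_sum, Finset.sum_eq_single j, hf j]
    · intro i _ hij
      rw [← hf i]
      exact C.orth j i (Ne.symm hij) _
    · intro h
      exact absurd (Finset.mem_univ j) h
  have hφsum : ∀ f : Fin k → V, (∀ j, C.p j (f j) = f j) → φ (∑ i, f i) = 0 := by
    intro f hf
    rw [map_sum]
    refine Finset.sum_eq_zero fun i _ => ?_
    rw [← hf i]
    exact C.mem i _
  set Y : V := ∑ i, y i with hY
  set T : V := ∑ i, t i with hTT
  have hpY : ∀ j, C.p j Y = y j := hpsum y hy1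
  have hpT : ∀ j, C.p j T = t j := hpsum t ht1
  have hφY : φ Y = 0 := hφsum y hy1
  have hφT : φ T = 0 := hφsum t ht1
  have hYc : QH q φ Y (q a b) := by
    rw [hSc a b Y ha hb hφY]
    intro j
    rw [hpY j]
    exact hy4 j
  have hYN : NS D φ Y := (hS.b1 hz hφY hzc hQ ((hS.qh hφY ha hb).1 hYc)).2
  obtain ⟨w, hw, hw'⟩ := hYN.2
  obtain ⟨w', h1, h2, h3⟩ := hS.S hYN (w := w + T) (by rw [map_add, hw, hφT, add_zero])
  have hφ1 : φ (w + w') = 0 := by rw [map_add, hw, h1, one_add_one2]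
  have hq1 : q Y (w + w') = 0 := (hS.cmp0 hφY hφ1).2 (dadd D hw' h2)
  have hind := C.ind Y (w + w') hφY hφ1 hq1
  have hφx : φ (w + w' + T + D.e) = 0 := by
    rw [map_add, map_add, hφ1, hφT, hS.phe, add_zero, add_zero]
  refine hT (w + w' + T + D.e) ⟨hφx, fun j => ?_⟩ ⟨hφx, w', h1, ?_⟩
  · by_cases hO : OneC C j
    · left
      refine ⟨hO, ?_⟩
      have h4 : C.p j (w + w') = 0 := by
        apply hyO j hO _ (C.idem j _)
        have := hind j
        rwa [hpY j] at this
      rw [map_add, map_add, h4, hpT j, ht0 j hO, zero_add, zero_add]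
      intro h5
      obtain ⟨u, hu, hu', -⟩ := hO
      apply hu'
      rw [hH.wu, hSd j u D.e hu hS.phe, h5, map_zero]
    · right
      refine ⟨hO, ?_⟩
      obtain ⟨hy2, hy3⟩ := hyE j hO
      have hEj : ExtC C D.e j (τ j) := (hF j).resolve_left hO
      have hτ : τ j (C.p j (w + w')) = 0 := by
        rcases z2 (τ j (C.p j (w + w'))) with h | h
        · exact h
        · exfalso
          have h4 := hind j
          rw [hpY j, hH.symm] at h4
          rcases hEj.rg _ _ (C.idem j (w + w')) (hy1 j) h h4 with h5 | h5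
          · exact hy2 h5
          · rw [h5, map_add, h, hEj.te, add_zero] at hy3
            exact one_ne_zero hy3
      rw [map_add, map_add, map_add, map_add, hτ, hpT j, ht2 j hO, hEj.te, zero_add, add_zero]
  · have h5 : w + w' + T + D.e = (w + T) + (w' + D.e) := by abel
    rw [h5]
    refine dadd' D h3 ?_
    rw [D.symm]
    exact D.diag w'

theorem P1E : Stmt_P1E := P1E_of SYM

end Pool.Agent.ASE
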