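import Pool.Agent.ASE.BAS
import Pool.Agent.ASE.LEM0
import Pool.Agent.ASE.SYM
import Pool.Agent.ASE.LOC

/-!
THEOREM A* FOR ARBITRARY `-1` (note 1881): Proposition 1 when some component of `H` is local of
dimension at least two, set valued (port of the module P1L of helper51 / SP1L of helper76).
-/

set_option autoImplicit false

namespace Pool.Agent.ASE

open scoped BigOperators
open Pool.Agent.RFT Pool.Agent.AST
open Pool.Agent.Helper58.PLine (QData)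

theorem pl1 {V B : Type} [AddCommGroup V] [Module (ZMod 2) V] [AddCommGroup B] [Module (ZMod 2) B]
    (q : V →ₗ[ZMod 2] V →ₗ[ZMod 2] B) (a b x : V) : q (a + b) x = q a x + q b x := by
  rw [map_add, LinearMap.add_apply]

theorem pl2 {V B : Type} [AddCommGroup V] [Module (ZMod 2) V] [AddCommGroup B] [Module (ZMod 2) B]
    (q : V →ₗ[ZMod 2] V →ₗ[ZMod 2] B) (a x y : V) : q a (x + y) = q a x + q a y := map_add _ _ _

/-- the set valued symbol `q(w, h)` is a symbol of `H` with group value `b` -/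
def PLV {V B Q : Type} [AddCommGroup V] [Module (ZMod 2) V] [AddCommGroup B] [Module (ZMod 2) B]
    (D : QData V Q) (q : V →ₗ[ZMod 2] V →ₗ[ZMod 2] B) (φ : V →ₗ[ZMod 2] ZMod 2)
    (w h : V) (b : B) : Prop :=
  ∃ a c, φ a = 0 ∧ φ c = 0 ∧ D.q w h = D.q a c ∧ q a c = b

theorem P1L_of (hLEM0 : ASE.Stmt_LEM0) (hSYM : ASE.Stmt_SYM) (hLOC : ASE.Stmt_LOC) :
    ASE.Stmt_P1L := by
  intro V B Q _ _ _ _ _ D q φ hS k C i hi
  have hH := hS.toSitH
  obtain ⟨s1, -, -, s4⟩ := hSYM V B q φ D.e hH k C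
  obtain ⟨e, he, l1, l2⟩ := hLOC V B q φ D.e hH k C i hi.1
  obtain ⟨v1, v2, gv1, gv2, nv1, nv2, nv12⟩ := hi.2
  have hv1 : C.p i v1 ≠ 0 := by rwa [gv1]
  have hsy := hH.symm
  -- elements of `H_i`
  have pz : ∀ v, C.p i v = v → φ v = 0 := fun v hv => by rw [← hv]; exact C.mem i v
  have l1' : ∀ h v, C.p i h = h → φ v = 0 → q h v = 0 ∨ q h v = e := by
    intro h v hh hv
    have := l1 h v hv
    rwa [hh] at this
  have l2' : ∀ h, C.p i h = h → h ≠ 0 → ∃ w, C.p i w = w ∧ q h w = e := by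
    intro h hh h0
    have := l2 h (by rwa [hh])
    rwa [hh] at this
  have ee : ∀ d d' : B, (d = 0 ∨ d = e) → (d' = 0 ∨ d' = e) → (d + d' = 0 ∨ d + d' = e) := by
    rintro d d' (rfl | rfl) (rfl | rfl)
    · left; rw [add_zero]
    · right; rw [zero_add]
    · right; rw [add_zero]
    · left; rw [self_add]
  -- vanishing
  have v0 : ∀ h y, C.p i h = h → φ y = 0 → C.p i y = 0 → q h y = 0 := by
    intro h y hh hy hy'
    rw [s4 i h y hh hy, hy', map_zero]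
  have v0' : ∀ h y, C.p i h = h → φ y = 0 → C.p i y = 0 → q y h = 0 := by
    intro h y hh hy hy'
    rw [hsy]
    exact v0 h y hh hy hy'
  have q0 : ∀ y, C.p i (y + C.p i y) = 0 := by
    intro y
    rw [map_add, C.idem, self_add]
  have f0 : ∀ y, φ y = 0 → φ (y + C.p i y) = 0 := by
    intro y hy
    rw [map_add, hy, C.mem, add_zero]
  -- (R)
  have R : ∀ y' u g d, φ y' = 0 → C.p i y' = 0 → φ u = 0 → C.p i g = g → g ≠ 0 →
      (d = 0 ∨ d = e) → ∃ x, φ x = 0 ∧ q (y' + g) x = q y' u + d := by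
    intro y' u g d hy' hp hu hg hg0 hd
    obtain ⟨w', hw', hw''⟩ : ∃ w', C.p i w' = w' ∧ q g w' = d := by
      rcases hd with hd | hd
      · exact ⟨0, map_zero _, by rw [hd, map_zero]⟩
      · obtain ⟨w', h2, h3⟩ := l2' g hg hg0
        exact ⟨w', h2, by rw [hd, h3]⟩
    refine ⟨u + C.p i u + w', by rw [map_add, f0 _ hu, pz _ hw', add_zero], ?_⟩
    rw [pl1, pl2 q y', v0' _ _ hw' hy' hp, pl2 q y' u, v0' _ _ (C.idem i u) hy' hp,
      pl2 q g _ w', v0 _ _ hg (f0 _ hu) (q0 _), hw'', add_zero, add_zero, zero_add]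
  -- (L1)
  have L1 : ∀ y' u y'' u'', φ y' = 0 → φ u = 0 → φ y'' = 0 → φ u'' = 0 → C.p i y' = 0 →
      C.p i y'' = 0 → q y' u ≠ q y'' u'' + e := by
    intro y' u y'' u'' hy' hu hy'' hu'' h1 h2 h3
    obtain ⟨v, hv⟩ := C.ne i
    obtain ⟨w0, hw0, hw0'⟩ := l2' (C.p i v) (C.idem i v) hv
    have ha : φ (y'' + C.p i v) = 0 := by rw [map_add, hy'', C.mem, add_zero]
    have hb : φ (u'' + C.p i u'' + w0) = 0 := by
      rw [map_add, f0 _ hu'', pz _ hw0, add_zero]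
    have h4 : q (y'' + C.p i v) (u'' + C.p i u'' + w0) = q y'' u'' + e := by
      rw [pl1, pl2 q y'', pl2 q y'', pl2 q (C.p i v) _ w0, v0' _ _ (C.idem i u'') hy'' h2,
        v0' _ _ hw0 hy'' h2, v0 _ _ (C.idem i v) (f0 _ hu'') (q0 _), hw0', add_zero, add_zero,
        zero_add]
    have h5 := s1 _ _ _ _ ha hb hy' hu (h4.trans h3.symm) i
    rw [h1, map_zero, LinearMap.zero_apply, map_add, h2, zero_add, C.idem, map_add, q0, zero_add,
      hw0, hw0'] at h5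
    exact he h5
  have L1' : ∀ y' u y'' u'' d d', φ y' = 0 → φ u = 0 → φ y'' = 0 → φ u'' = 0 → C.p i y' = 0 →
      C.p i y'' = 0 → (d = 0 ∨ d = e) → (d' = 0 ∨ d' = e) → q y' u + d = q y'' u'' + d' →
      q y' u = q y'' u'' := by
    intro y' u y'' u'' d d' a1 a2 a3 a4 a5 a6 h1 h2 h3
    rcases h1 with rfl | rfl <;> rcases h2 with rfl | rfl
    · rwa [add_zero, add_zero] at h3
    · rw [add_zero] at h3
      exact absurd h3 (L1 _ _ _ _ a1 a2 a3 a4 a5 a6)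
    · rw [add_zero] at h3
      exact absurd h3.symm (L1 _ _ _ _ a3 a4 a1 a2 a6 a5)
    · exact add_right_cancel h3
  -- values
  have huniq : ∀ w h b b', PLV D q φ w h b → PLV D q φ w h b' → b = b' := by
    rintro w h b b' ⟨a, c, ha, hc, h1, rfl⟩ ⟨a', c', ha', hc', h1', rfl⟩
    exact (hS.cmp _ _ _ _ ha hc ha' hc').2 (h1.symm.trans h1')
  -- a nonzero element of `H_i`
  have hslot : ∀ w h y' u d, φ y' = 0 → C.p i y' = 0 → φ u = 0 → (d = 0 ∨ d = e) →
      PLV D q φ w h (q y' u + d) →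
      ∃ x, φ x = 0 ∧ D.q w h = D.q (y' + C.p i v1) x ∧ q (y' + C.p i v1) x = q y' u + d := by
    rintro w h y' u d hy' hp hu hd ⟨a, c, ha, hc, h1, h2⟩
    obtain ⟨x, hx, hx'⟩ := R y' u (C.p i v1) d hy' hp hu (C.idem i v1) hv1 hd
    refine ⟨x, hx, ?_, hx'⟩
    rw [h1]
    exact (hS.cmp _ _ _ _ ha hc (by rw [map_add, hy', C.mem, add_zero]) hx).1 (by rw [h2, hx'])
  have hsum : ∀ w h1 h2 y' u1 u2 d1 d2, φ y' = 0 → C.p i y' = 0 → φ u1 = 0 → φ u2 = 0 →
      (d1 = 0 ∨ d1 = e) → (d2 = 0 ∨ d2 = e) → PLV D q φ w h1 (q y' u1 + d1) →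
      PLV D q φ w h2 (q y' u2 + d2) → PLV D q φ w (h1 + h2) (q y' (u1 + u2) + (d1 + d2)) := by
    intro w h1 h2 y' u1 u2 d1 d2 hy' hp hu1 hu2 hd1 hd2 a1 a2
    obtain ⟨x1, hx1, e1, f1⟩ := hslot w h1 y' u1 d1 hy' hp hu1 hd1 a1
    obtain ⟨x2, hx2, e2, f2⟩ := hslot w h2 y' u2 d2 hy' hp hu2 hd2 a2
    refine ⟨y' + C.p i v1, x1 + x2, by rw [map_add, hy', C.mem, add_zero],
      by rw [map_add, hx1, hx2, add_zero], dsum D e1 e2, ?_⟩
    rw [pl2, f1, f2, pl2 q y']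
    abel
  -- (A)
  have A : ∀ w y', φ w = 1 → φ y' = 0 → C.p i y' = 0 →
      (∀ h, C.p i h = h → h ≠ 0 → NS D φ (y' + h)) → ∀ h, C.p i h = h → h ≠ 0 →
      ∃ u d, φ u = 0 ∧ (d = 0 ∨ d = e) ∧ PLV D q φ w h (q y' u + d) := by
    intro w y' hw hy' hpy hN h hh h0
    obtain ⟨h', hh', n1, n2'⟩ : ∃ h', C.p i h' = h' ∧ h' ≠ 0 ∧ h' ≠ h := by
      by_cases hv : v1 = h
      · exact ⟨v2, gv2, nv2, fun h2 => nv12 (hv.trans h2.symm)⟩
      · exact ⟨v1, gv1, nv1, hv⟩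
    have n2 : h' + h ≠ 0 := fun h1 => n2' (eq_iff_add.2 h1)
    have p2 : C.p i (h' + h) = h' + h := by rw [map_add, hh', hh]
    have main : ∀ g, C.p i g = g → g ≠ 0 → ∃ u d, φ u = 0 ∧ (d = 0 ∨ d = e) ∧
        PLV D q φ w (y' + g) (q y' u + d) := by
      intro g hg hg0
      obtain ⟨u, hu, e1⟩ := hS.NQ (hN g hg hg0) w
      refine ⟨u, q g u, hu, l1' g u hg hu, y' + g, u, by rw [map_add, hy', pz _ hg, add_zero],
        hu, ?_, pl1 _ _ _ _⟩
      rw [e1, D.symm]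
    obtain ⟨u1, d1, hu1, hd1, e1⟩ := main h' hh' n1
    obtain ⟨u2, d2, hu2, hd2, e2⟩ := main (h' + h) p2 n2
    refine ⟨u1 + u2, d1 + d2, by rw [map_add, hu1, hu2, add_zero], ee _ _ hd1 hd2, ?_⟩
    have h3 := hsum w _ _ y' u1 u2 d1 d2 hy' hpy hu1 hu2 hd1 hd2 e1 e2
    have h4 : y' + h' + (y' + (h' + h)) = h := by
      have : y' + h' + (y' + (h' + h)) = (y' + y') + (h' + h') + h := by abel
      rw [this, self_add, self_add, zero_add, zero_add]
    rwa [h4] at h3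
  -- (B)
  have Bs : ∀ y'' (b : B) h, φ y'' = 0 → C.p i y'' = 0 → QH q φ y'' b → C.p i h = h →
      QH q φ (y'' + h) b := by
    rintro y'' b h hy hpy ⟨u, hu, rfl⟩ hh
    refine ⟨u + C.p i u, f0 _ hu, ?_⟩
    rw [pl1, pl2 q y'', v0' _ _ (C.idem i u) hy hpy, v0 _ _ hh (f0 _ hu) (q0 _), add_zero,
      add_zero]
  intro z x y hz hnz hx hy hzc
  by_contra hcon
  have hN0 : ∀ g, φ g = 0 → QH q φ g (q x y) → NS D φ g := fun g hg h =>
    (hS.b1 hz hg hzc hcon ((hS.qh hg hx hy).1 h)).2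
  obtain ⟨w, hw⟩ := hS.out
  -- the element `y'`
  have hy' := f0 y hy
  have hpy' := q0 y
  have hN1 : ∀ h, C.p i h = h → h ≠ 0 → NS D φ (y + C.p i y + h) := by
    intro h hh h0
    apply hN0
    · rw [map_add, hy', pz _ hh, add_zero]
    · obtain ⟨w', hw', hw''⟩ : ∃ w', C.p i w' = w' ∧ q h w' = q (C.p i x) (C.p i y) := by
        rcases l1' (C.p i x) (C.p i y) (C.idem i x) (C.mem i y) with h1 | h1
        · exact ⟨0, map_zero _, by rw [h1, map_zero]⟩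
        · obtain ⟨w', h2, h3⟩ := l2' h hh h0
          exact ⟨w', h2, by rw [h1, h3]⟩
      refine ⟨x + C.p i x + w', by rw [map_add, f0 _ hx, pz _ hw', add_zero], ?_⟩
      rw [pl1 q (y + C.p i y) h, pl2 q (y + C.p i y) _ w',
        v0' _ _ hw' hy' hpy', pl2 q h _ w', v0 _ _ hh (f0 _ hx) (q0 _), hw'',
        pl1 q y (C.p i y), pl2 q y x, pl2 q (C.p i y) x,
        hsy y (C.p i x), s4 i (C.p i x) y (C.idem i x) hy, s4 i (C.p i y) x (C.idem i y) hx,
        hsy (C.p i y) (C.p i x), hsy y x]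
      have : ∀ a b : B, a + b + (b + b) + 0 + (0 + b) = a + (b + b) + (b + b) := by
        intro a b; abel
      rw [this, self_add, add_zero, add_zero]
  have A1 := A w _ hw hy' hpy' hN1
  -- `b(h)`
  have key : ∀ h u d, C.p i h = h → h ≠ 0 → φ u = 0 → (d = 0 ∨ d = e) →
      PLV D q φ w h (q (y + C.p i y) u + d) →
      q (y + C.p i y) u ≠ 0 ∧ (∃ v, D.q h v = D.q (y + C.p i y) u) ∧
        ¬ QHS D φ h (D.q (y + C.p i y) u) := by
    intro h u d hh h0 hu hd hwh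
    obtain ⟨w', hw', hw''⟩ := l2' h hh h0
    have k1 : q (y + C.p i y) u ≠ 0 := by
      intro h1
      obtain ⟨a, c, ha, hc, h2, h3⟩ := hwh
      rw [h1, zero_add] at h3
      apply h0
      -- `q h v` is `q h s` with `s = 0` or `s = w'`
      have hr1 : ∀ v, φ v = 0 → ∃ s, (s = 0 ∨ s = w') ∧ D.q h v = D.q h s := by
        intro v hv
        rcases l1' h v hh hv with h4 | h4
        · refine ⟨0, Or.inl rfl, ?_⟩
          rw [dz]
          exact (hS.cmp0 (pz _ hh) hv).1 h4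
        · exact ⟨w', Or.inr rfl, (hS.cmp _ _ _ _ (pz _ hh) hv (pz _ hh) (pz _ hw')).1
            (by rw [h4, hw''])⟩
      have hr2 : ∃ s, (s = 0 ∨ s = w') ∧ D.q h w = D.q h s := by
        rw [D.symm h w, h2]
        rcases hd with hd | hd
        · refine ⟨0, Or.inl rfl, ?_⟩
          rw [dz]
          exact (hS.cmp0 ha hc).1 (by rw [h3, hd])
        · exact ⟨w', Or.inr rfl, (hS.cmp _ _ _ _ ha hc (pz _ hh) (pz _ hw')).1
            (by rw [h3, hd, hw''])⟩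
      have hr : ∀ v, D.q h v = D.z ∨ D.q h v = D.q h w' := by
        intro v
        obtain ⟨s, hs, hs'⟩ : ∃ s, (s = 0 ∨ s = w') ∧ D.q h v = D.q h s := by
          rcases z2 (φ v) with h5 | h5
          · exact hr1 v h5
          · obtain ⟨s, hs, hs'⟩ := hr1 (v + w) (by rw [map_add, h5, hw, one_add_one2])
            obtain ⟨s2, hs2, hs2'⟩ := hr2
            have h6 := dsum D hs' hs2'
            rw [add_assoc, self_add, add_zero] at h6
            refine ⟨s + s2, ?_, h6⟩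
            rcases hs with rfl | rfl <;> rcases hs2 with rfl | rfl
            · left; rw [add_zero]
            · right; rw [zero_add]
            · right; rw [add_zero]
            · left; rw [self_add]
        rcases hs with rfl | rfl
        · left; rw [hs', dz]
        · right; exact hs'
      apply hS.r1
      intro v v'
      rcases hr v with h5 | h5
      · exact Or.inl h5
      · rcases hr v' with h6 | h6
        · exact Or.inr (Or.inl h6)
        · exact Or.inr (Or.inr ((dq D).1 (h5.trans h6.symm)))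
    refine ⟨k1, ?_, ?_⟩
    · rcases hd with hd | hd
      · obtain ⟨a, c, ha, hc, h2, h3⟩ := hwh
        refine ⟨w, ?_⟩
        rw [D.symm, h2]
        exact (hS.cmp _ _ _ _ ha hc hy' hu).1 (by rw [h3, hd, add_zero])
      · obtain ⟨x1, hx1, e1, f1⟩ := hslot w h _ u d hy' hpy' hu (Or.inr hd) hwh
        obtain ⟨x2, hx2, f2⟩ := R (y + C.p i y) 0 (C.p i v1) e hy' hpy' (map_zero φ)
          (C.idem i v1) hv1 (Or.inr rfl)
        rw [map_zero, zero_add] at f2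
        have hr : φ (y + C.p i y + C.p i v1) = 0 := by rw [map_add, hy', C.mem, add_zero]
        have e2 : D.q h w' = D.q (y + C.p i y + C.p i v1) x2 :=
          (hS.cmp _ _ _ _ (pz _ hh) (pz _ hw') hr hx2).1 (by rw [hw'', f2])
        rw [D.symm w h] at e1
        refine ⟨w + w', ?_⟩
        rw [dsum D e1 e2]
        refine (hS.cmp _ _ _ _ hr (by rw [map_add, hx1, hx2, add_zero]) hy' hu).1 ?_
        rw [pl2, f1, f2, hd, add_assoc, self_add, add_zero]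
    · rintro ⟨v, hv, hv'⟩
      have hv2 := (hS.cmp _ _ _ _ (pz _ hh) hv hy' hu).2 hv'
      rcases l1' h v hh hv with h1 | h1
      · exact k1 (by rw [← hv2, h1])
      · apply L1 (y + C.p i y) u 0 0 hy' hu (map_zero _) (map_zero _) hpy' (map_zero _)
        rw [map_zero, zero_add, ← hv2, h1]
  -- same slots
  have slots : ∀ h1 u1 d1 h2 u2 d2, C.p i h1 = h1 → h1 ≠ 0 → φ u1 = 0 → (d1 = 0 ∨ d1 = e) →
      PLV D q φ w h1 (q (y + C.p i y) u1 + d1) →
      C.p i h2 = h2 → h2 ≠ 0 → φ u2 = 0 → (d2 = 0 ∨ d2 = e) →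
      PLV D q φ w h2 (q (y + C.p i y) u2 + d2) →
      ∀ g, φ g = 0 → QH q φ g (q (y + C.p i y) u1) → QH q φ g (q (y + C.p i y) u2) := by
    intro h1 u1 d1 h2 u2 d2 a1 a2 a3 a3' a4 b1 b2 b3 b3' b4 g hg hgb
    obtain ⟨-, k2, k3⟩ := key h1 u1 d1 a1 a2 a3 a3' a4
    obtain ⟨s, hs, hs'⟩ := hgb
    have h3 : q g s = q (g + C.p i g) s + q (C.p i g) s := by
      rw [pl1, add_assoc, self_add, add_zero]
    have h4 : q (y + C.p i y) u1 = q (g + C.p i g) s := by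
      rw [hs'] at h3
      rcases l1' (C.p i g) s (C.idem i g) hs with h5 | h5
      · rw [h3, h5, add_zero]
      · rw [h5] at h3
        exact absurd h3 (L1 _ _ _ _ hy' a3 (f0 _ hg) hs hpy' (q0 _))
    have hN2 : ∀ h, C.p i h = h → h ≠ 0 → NS D φ (g + C.p i g + h) := by
      intro h hh _
      have h5 : QH q φ (g + C.p i g + h) (q (y + C.p i y) u1) :=
        Bs _ _ _ (f0 _ hg) (q0 _) ⟨s, hs, h4.symm⟩ hh
      have h6 : φ (g + C.p i g + h) = 0 := by rw [map_add, f0 _ hg, pz _ hh, add_zero]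
      exact (hS.b1 (pz _ a1) h6 k2 k3 ((hS.qh h6 hy' a3).1 h5)).2
    obtain ⟨u, d, hu, hd, hu'⟩ := A w _ hw (f0 _ hg) (q0 _) hN2 h2 b1 b2
    have h6 := L1' _ _ _ _ _ _ hy' b3 (f0 _ hg) hu hpy' (q0 _) b3' hd (huniq _ _ _ _ b4 hu')
    have h7 : QH q φ (g + C.p i g + C.p i g) (q (y + C.p i y) u2) :=
      Bs _ _ _ (f0 _ hg) (q0 _) ⟨u, hu, h6.symm⟩ (C.idem i g)
    rwa [add_assoc, self_add, add_zero] at h7
  -- LEM0 on `H`
  have n3 : v1 + v2 ≠ 0 := fun h1 => nv12 (eq_iff_add.2 h1)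
  have p3 : C.p i (v1 + v2) = v1 + v2 := by rw [map_add, gv1, gv2]
  obtain ⟨u1, d1, hu1, hd1, e1⟩ := A1 _ gv1 nv1
  obtain ⟨u2, d2, hu2, hd2, e2⟩ := A1 _ gv2 nv2
  obtain ⟨u3, d3, hu3, hd3, e3⟩ := A1 _ p3 n3
  have hsl := slots _ _ _ _ _ _ gv1 nv1 hu1 hd1 e1 gv2 nv2 hu2 hd2 e2
  have hsl' := slots _ _ _ _ _ _ gv2 nv2 hu2 hd2 e2 gv1 nv1 hu1 hd1 e1
  have hb : q (y + C.p i y) u1 = q (y + C.p i y) u2 := by
    let H := LinearMap.ker φ
    let qH : H →ₗ[ZMod 2] H →ₗ[ZMod 2] B := q.domRestrict₁₂ H H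
    have hqH : ∀ a b : H, qH a b = q a b := fun a b => rfl
    have mH : ∀ a : H, φ (a : V) = 0 := fun a => LinearMap.mem_ker.1 a.2
    have hl : LinkedE qH (⟨D.e, LinearMap.mem_ker.2 hH.phe⟩ : H) := by
      refine ⟨fun a b => hH.symm _ _, fun a => hH.wu _, fun a b c d h => ?_⟩
      obtain ⟨s, hs, hs1, hs2⟩ := hH.link a b c d (mH a) (mH b) (mH c) (mH d) h
      exact ⟨⟨s, LinearMap.mem_ker.2 hs⟩, hs1, hs2⟩
    have hex : ∀ (g : H) (b : B), (∃ y, qH g y = b) ↔ QH q φ g b := by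
      intro g b
      constructor
      · rintro ⟨y, hy⟩
        exact ⟨y, mH y, hy⟩
      · rintro ⟨y, hy, hy'⟩
        exact ⟨⟨y, LinearMap.mem_ker.2 hy⟩, hy'⟩
    refine hLEM0 H B qH _ hl _ _ (fun g => ?_)
      ⟨⟨y + C.p i y, LinearMap.mem_ker.2 hy'⟩, ⟨u1, LinearMap.mem_ker.2 hu1⟩, rfl⟩
    rw [hex, hex]
    exact ⟨hsl g (mH g), hsl' g (mH g)⟩
  -- contradiction
  obtain ⟨k1, -, -⟩ := key _ _ _ p3 n3 hu3 hd3 e3
  apply k1
  have e4 := hsum w _ _ _ u1 u2 d1 d2 hy' hpy' hu1 hu2 hd1 hd2 e1 e2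
  have h9 := L1' _ _ _ _ _ _ hy' hu3 hy' (by rw [map_add, hu1, hu2, add_zero] : φ (u1 + u2) = 0)
    hpy' hpy' hd3 (ee _ _ hd1 hd2) (huniq _ _ _ _ e3 e4)
  rw [h9, pl2, hb, self_add]

/-- Proposition 1, some component is local of dimension at least two -/
theorem P1L : ASE.Stmt_P1L := P1L_of ASE.LEM0 ASE.SYM ASE.LOC

end Pool.Agent.ASE
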