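import Pool.Agent.ASE.Stmts

/-!
THEOREM A* for arbitrary `-1` (notes 1876, 1881): module P23, steps (2) and (3).
-/

set_option autoImplicit false

namespace Pool.Agent.ASE

open scoped BigOperators
open Pool.Agent.RFT Pool.Agent.AST

/-- steps (2), (3) -/
theorem P23 : Stmt_P23 := by
  intro V B _ _ _ _ q φ e hS hP1
  have hsymm := hS.lk.symm
  have hphe : φ e = 0 := hS.phe
  have hwu : ∀ x, q x (x + e) = 0 := by
    intro x
    rw [map_add, hS.lk.wu, ZModModule.add_self]
  have hNQ : ∀ h v, NN q φ h → QH q φ h (q h v) := by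
    rintro h v ⟨-, w, hw1, hw0⟩
    rcases z2 (φ v) with hv | hv1
    · exact ⟨v, hv, rfl⟩
    · refine ⟨v + w, ?_, ?_⟩
      · rw [map_add, hv1, hw1, one_add_one2]
      · rw [map_add, hw0, add_zero]
  have hQN : ∀ h w, φ h = 0 → φ w = 1 → QH q φ h (q h w) → NN q φ h := by
    rintro h w hh hw ⟨y, hy, hhy⟩
    refine ⟨hh, w + y, ?_, ?_⟩
    · rw [map_add, hw, hy, add_zero]
    · rw [map_add, hhy, ZModModule.add_self]
  constructor
  · intro h g hh hg
    by_contra hz
    obtain ⟨hh0, -⟩ := id hh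
    obtain ⟨hg0, w, hw1, hgw⟩ := id hg
    have hz0 : φ (h + g) = 0 := by rw [map_add, hh0, hg0, add_zero]
    have hc : q (h + g) w = q h w := by
      rw [map_add, LinearMap.add_apply, hgw, add_zero]
    have h1 : QH q φ h (q (h + g) w) := by
      rw [hc]
      exact hNQ h w hh
    exact hz (hQN _ w hz0 hw1 (hP1 (h + g) _ hz0 hz ⟨h, hh0, h1⟩ ⟨w, rfl⟩))
  · intro h u hh hu
    obtain ⟨hh0, w, hw1, hhw⟩ := id hh
    have hv : φ (w + u + e) = 1 := by rw [map_add, map_add, hw1, hu, hphe, add_zero, add_zero]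
    obtain ⟨w', h1, h2, h3⟩ := hS.pr.2 h (w + u + e) ⟨w, hhw, hw1⟩
      ⟨w + u + e + e, hwu _, by rw [map_add, hv, hphe, add_zero]⟩
      ⟨h + (w + u + e) + e, hwu _, by rw [map_add, map_add, hh0, hv, hphe, zero_add, add_zero]⟩
    have h4 : w + u + w' = (w + u + e) + (w' + e) := by
      rw [show (w + u + e) + (w' + e) = (w + u + w') + (e + e) by abel, ZModModule.add_self,
        add_zero]
    refine ⟨w + u + w', ⟨?_, w', h3, ?_⟩, ?_⟩
    · rw [map_add, map_add, hw1, hu, h3, add_zero, one_add_one2]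
    · rw [h4, map_add, LinearMap.add_apply, h2, zero_add, hsymm, hwu]
    · rw [map_add, map_add, hhw, h1, zero_add, add_zero]

end Pool.Agent.ASE
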