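import Pool.Agent.ASE.BAS

/-!
THEOREM A* for arbitrary `-1` (notes 1876, 1881): module P2S, step (2), set valued.
-/

set_option autoImplicit false

namespace Pool.Agent.ASE

open scoped BigOperators
open Pool.Agent.RFT Pool.Agent.AST
open Pool.Agent.Helper58.PLine (QData)

/-- step (2) from Proposition 1, set valued -/
theorem P2S : Stmt_P2S := by
  intro V Q _ _ D φ hS hP1 h g hh hg
  by_contra hz
  obtain ⟨hg0, w, hw, hgw⟩ := id hg
  have hz0 : φ (h + g) = 0 := by rw [map_add, hh.1, hg0, add_zero]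
  obtain ⟨y, hy, e⟩ := hS.NQ hh w
  have hc : D.q (h + g) w = D.q h y := by rw [dq_add' D hgw, e]
  have h1 := hP1 (h + g) h y hz0 hz hh.1 hy ⟨w, hc⟩
  rw [← hc] at h1
  exact hz (hS.QN hz0 hw h1)

end Pool.Agent.ASE
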