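import Pool.Agent.ASE.Stmts
import Pool.Agent.ETCMR.Fin2

/-!
THEOREM A* for arbitrary `-1`, module RED: a minimal structure that is not of elementary type has
no element of rank at most one and no birigid element.
-/

set_option autoImplicit false

namespace Pool.Agent.ASE

open QS Pool.Agent.ETCMR

theorem RED : Stmt_RED := by
  intro S hf hsm hS
  have hT : ∀ T : QStruct, Finite T.G → Nat.card T.G < Nat.card S.G → ElemType T := hsm
  refine ⟨?_, ?_⟩
  · intro x hx
    by_contra hx1
    apply hS
    by_cases hrad : ∀ v, S.q x v = S.zero
    · exact elem_of_rad S hT hx1 hrad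
    · push Not at hrad
      obtain ⟨y, hy⟩ := hrad
      refine rank_one S hT (x := x) (c := S.q x y) hy ?_ ⟨y, rfl⟩
      intro v
      rcases hx y v with h | h | h
      · exact absurd h hy
      · exact Or.inl h
      · exact Or.inr ((S.qs3 _ _ _).2 h).symm
  · intro t ht1 htn hrt
    by_contra hno
    push Not at hno
    apply hS
    apply elem_of_ext S hT
    refine ETCC.ext_of_bir (z := t) ⟨ht1, htn, ?_, ?_⟩
    · intro z hz
      rcases hrt z hz with h | h
      · exact Or.inl h
      · exact Or.inr (by rw [h, mul_comm])
    · intro z hz
      rw [mul_comm] at hz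
      by_cases h : z = 1
      · exact Or.inl h
      · right
        rw [hno z hz h, ← mul_assoc, S.exp_two, one_mul]

end Pool.Agent.ASE
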