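import Pool.Agent.ASE.BAS
import Pool.Agent.AST.SBIL

/-!
THEOREM A* for arbitrary `-1` (notes 1876, 1881): once `N` is closed under addition, the set valued
structure comes from a group valued map (module SBIL).

As for `-1 = 1` (`Pool.Agent.AST.SBIL`), with the additional summand `φ(v) φ(v') k(w₀, e)`.
-/

set_option autoImplicit false

namespace Pool.Agent.ASE

open scoped BigOperators
open Pool.Agent.RFT Pool.Agent.AST
open Pool.Agent.Helper58.PLine (QData)

namespace SBIL_

variable {V B Q : Type} [AddCommGroup V] [Module (ZMod 2) V] [AddCommGroup B] [Module (ZMod 2) B]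
variable {D : QData V Q} {q : V →ₗ[ZMod 2] V →ₗ[ZMod 2] B} {φ : V →ₗ[ZMod 2] ZMod 2}

/-- `N` as a subspace -/
def NM (hS : SitS D q φ) (hP : P2S D φ) : Submodule (ZMod 2) V where
  carrier := {h | NS D φ h}
  add_mem' := fun {a b} ha hb => hP a b ha hb
  zero_mem' := hS.zero_mem
  smul_mem' := by
    intro c x hx
    rcases z2 c with h | h
    · rw [h, zero_smul]
      exact hS.zero_mem
    · rw [h, one_smul]
      exact hx

/-- the map `g` on `N` -/
theorem exists_g (hS : SitS D q φ) (hP : P2S D φ) {w : V} (hw : φ w = 1) :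
    ∃ g : V →ₗ[ZMod 2] B, ∀ n u, NS D φ n → φ u = 0 → D.q n (w + u) = D.z → g n = q n u := by
  have h1 : ∀ n : NM hS hP, ∃ u, φ u = 0 ∧ D.q n (w + u) = D.z := by
    rintro ⟨n, hn0, w', hw', hn⟩
    refine ⟨w + w', by rw [map_add, hw, hw', one_add_one2], ?_⟩
    rw [← add_assoc, self_add, zero_add]
    exact hn
  choose u hu hu' using h1
  -- uniqueness
  have huniq : ∀ n : NM hS hP, ∀ v, φ v = 0 → D.q n (w + v) = D.z →
      q (n : V) (u n) = q (n : V) v := by
    intro n v hv h
    have h2 := dadd D (hu' n) h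
    have h3 : w + u n + (w + v) = u n + v := by
      have : w + u n + (w + v) = (w + w) + (u n + v) := by abel
      rw [this, self_add, zero_add]
    rw [h3] at h2
    rw [eq_iff_add, ← map_add]
    exact (hS.cmp0 n.2.1 (by rw [map_add, hu, hv, add_zero])).2 h2
  let g0 : NM hS hP →ₗ[ZMod 2] B := AddMonoidHom.toZModLinearMap 2
    { toFun := fun n => q (n : V) (u n)
      map_zero' := by
        show q ((0 : NM hS hP) : V) _ = 0
        rw [ZeroMemClass.coe_zero, map_zero, LinearMap.zero_apply]
      map_add' := by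
        intro n m
        obtain ⟨w', hw', h2, h3⟩ := hS.W n.2 m.2 (hP _ _ n.2 m.2)
        have h4 : w + (w + w') = w' := by rw [← add_assoc, self_add, zero_add]
        have h5 : φ (w + w') = 0 := by rw [map_add, hw, hw', one_add_one2]
        have e1 := huniq n _ h5 (by rw [h4]; exact h2)
        have e2 := huniq m _ h5 (by rw [h4]; exact h3)
        have e3 := huniq (n + m) _ h5 (by
          rw [h4]
          exact dadd' D h2 h3)
        rw [e1, e2, e3]
        show q ((n : V) + (m : V)) _ = _
        rw [map_add q, LinearMap.add_apply] }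
  obtain ⟨g, hg⟩ := g0.exists_extend
  refine ⟨g, fun n v hn hv h => ?_⟩
  have e1 : g n = g0 ⟨n, hn⟩ := by
    rw [← hg]
    rfl
  rw [e1]
  exact huniq ⟨n, hn⟩ v hv h

end SBIL_

open SBIL_ AST.SBIL_ in
theorem SBIL : Stmt_SBIL := by
  intro V B Q _ _ _ _ D q φ hS hP
  obtain ⟨w, hw⟩ := hS.out
  obtain ⟨g, hg⟩ := exists_g hS hP hw
  set N := ASE.SBIL_.NM hS hP with hN
  have hNm : ∀ h, h ∈ N ↔ NS D φ h := fun h => Iff.rfl
  obtain ⟨k, kap⟩ : ∃ k : V →ₗ[ZMod 2] V →ₗ[ZMod 2] (B × (V ⧸ N)),
      ∀ v v', k v v' = AST.SBIL_.K q φ w g N v v' +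
        φ v • (φ v' • ((g D.e, N.mkQ D.e) : B × (V ⧸ N))) :=
    ⟨AST.SBIL_.K q φ w g N +
      φ.smulRight (φ.smulRight ((g D.e, N.mkQ D.e) : B × (V ⧸ N))), fun v v' => rfl⟩
  -- values of `k` for the first argument in `H`
  have k0 : ∀ h y, φ h = 0 → φ y = 0 → k h y = (q h y, 0) := by
    intro h y hh hy
    rw [kap, K_apply, hh, hy, pr_H hh, pr_H hy]
    simp
  have k1 : ∀ h y, φ h = 0 → φ y = 1 → k h y = (q h (y + w) + g h, N.mkQ h) := by
    intro h y hh hy
    rw [kap, K_apply, hh, hy, pr_H hh, pr_out hy]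
    simp
  have kdiag : ∀ x, k x (x + D.e) = 0 := by
    intro x
    rcases z2 (φ x) with hx | hx
    · rw [k0 x (x + D.e) hx (hS.phw0 hx), map_add, hS.wu, self_add]
      rfl
    · have h1 : φ (x + D.e) = 1 := hS.phw hx
      have h2 : q (x + w) (x + D.e + w) = 0 := by
        rw [show x + D.e + w = (x + w) + D.e by abel, map_add, hS.wu, self_add]
      have h3 : g (x + w) + g (x + D.e + w) = g D.e := by
        rw [← map_add, show x + w + (x + D.e + w) = (x + x) + (w + w) + D.e by abel, self_add,
          self_add, zero_add, zero_add]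
      have h4 : N.mkQ (x + w) + N.mkQ (x + D.e + w) = N.mkQ D.e := by
        rw [← map_add, show x + w + (x + D.e + w) = (x + x) + (w + w) + D.e by abel, self_add,
          self_add, zero_add, zero_add]
      rw [kap, K_apply, hx, h1, pr_out hx, pr_out h1, one_smul, one_smul, one_smul, one_smul,
        one_smul, one_smul, h2, h3, h4, zero_add, self_add]
  have ksymm : ∀ x y, k x y = k y x := by
    intro x y
    rw [kap, kap, K_apply, K_apply, hS.symm (pr φ w x), smul_comm (φ x) (φ y),
      add_comm (φ y • g _), add_comm (φ y • N.mkQ _)]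
  have kdiag' : ∀ x, k (x + D.e) x = 0 := fun x => by rw [ksymm, kdiag]
  have ddiag' : ∀ x, D.q (x + D.e) x = D.z := fun x => by rw [D.symm, D.diag]
  -- zero pairs
  have kz' : ∀ h y, φ h = 0 → D.q h y = D.z → k h y = 0 := by
    intro h y hh h1
    rcases z2 (φ y) with hy | hy
    · rw [k0 h y hh hy, (hS.cmp0 hh hy).2 h1]
      rfl
    · have hn : NS D φ h := ⟨hh, y, hy, h1⟩
      have hu : φ (y + w) = 0 := by rw [map_add, hy, hw, one_add_one2]
      have h2 : w + (y + w) = y := by
        rw [add_comm y w, ← add_assoc, self_add, zero_add]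
      rw [k1 h y hh hy, hg h (y + w) hn hu (by rw [h2]; exact h1), self_add,
        Submodule.mkQ_apply, (Submodule.Quotient.mk_eq_zero N).2 ((hNm h).2 hn)]
      rfl
  have kz : ∀ a b, D.q a b = D.z → k a b = 0 := by
    intro a b h1
    rcases z2 (φ a) with ha | ha
    · exact kz' a b ha h1
    · rcases z2 (φ b) with hb | hb
      · rw [ksymm]
        exact kz' b a hb (by rw [D.symm]; exact h1)
      · have h2 : k (a + (b + D.e)) b = 0 := kz' _ _ (by rw [map_add, ha, hS.phw hb, one_add_one2])
          (dadd' D h1 (ddiag' b))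
        rwa [map_add, LinearMap.add_apply, kdiag', add_zero] at h2
  -- equality of symbols gives equality of values
  have keq : ∀ a b c d, D.q a b = D.q c d → k a b = k c d := by
    intro a b c d h
    obtain ⟨x, h1, h2⟩ := dlink D h rfl
    have e1 : k a b = k a x := by
      rw [eq_iff_add, ← map_add]
      exact kz _ _ ((dq D).1 (h.trans h1.symm))
    have e2 : k c d = k c x := by
      rw [eq_iff_add, ← map_add]
      exact kz _ _ ((dq D).1 h2.symm)
    have e3 : k a x = k c x := by
      rw [eq_iff_add, ← LinearMap.add_apply, ← map_add]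
      exact kz _ _ ((dq' D).1 (h1.trans h2.symm))
    rw [e1, e2, e3]
  -- the converse, first arguments in `H`
  have mixed : ∀ h y h' y', φ h = 0 → φ y = 0 → φ h' = 0 → φ y' = 1 → k h y = k h' y' →
      D.q h y = D.q h' y' := by
    intro h y h' y' hh hy hh' hy' e
    rw [k0 h y hh hy, k1 h' y' hh' hy', Prod.mk.injEq] at e
    obtain ⟨e1, e2⟩ := e
    have hn : NS D φ h' := by
      rw [← hNm, ← Submodule.Quotient.mk_eq_zero]
      exact e2.symm
    obtain ⟨-, v, hv, hv'⟩ := id hn
    have hu : φ (w + v) = 0 := by rw [map_add, hw, hv, one_add_one2]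
    have h2 : w + (w + v) = v := by rw [← add_assoc, self_add, zero_add]
    rw [hg h' (w + v) hn hu (by rw [h2]; exact hv'), ← map_add] at e1
    have h3 : y' + w + (w + v) = y' + v := by
      have : y' + w + (w + v) = (w + w) + (y' + v) := by abel
      rw [this, self_add, zero_add]
    rw [h3] at e1
    rw [(hS.cmp h y h' (y' + v) hh hy hh' (by rw [map_add, hy', hv, one_add_one2])).1 e1,
      dq_add D hv']
  have both : ∀ h y h' y', φ h = 0 → φ y = 1 → φ h' = 0 → φ y' = 1 → k h y = k h' y' →
      D.q h y = D.q h' y' := by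
    intro h y h' y' hh hy hh' hy' e
    rw [k1 h y hh hy, k1 h' y' hh' hy', Prod.mk.injEq] at e
    obtain ⟨e1, e2⟩ := e
    have hn : NS D φ (h + h') := by
      rw [← hNm, ← Submodule.Quotient.mk_eq_zero, Submodule.Quotient.mk_add]
      rw [Submodule.mkQ_apply, Submodule.mkQ_apply] at e2
      rw [e2, self_add]
    obtain ⟨-, v, hv, hv'⟩ := id hn
    have hu : φ (w + v) = 0 := by rw [map_add, hw, hv, one_add_one2]
    have h2 : w + (w + v) = v := by rw [← add_assoc, self_add, zero_add]
    have hgn := hg (h + h') (w + v) hn hu (by rw [h2]; exact hv')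
    have e3 : q h (y + v) = q h' (y' + v) := by
      rw [eq_iff_add]
      have e4 : q h (y + w) + g h + (q h' (y' + w) + g h') = 0 := by rw [e1, self_add]
      have e5 : q h (y + w) + g h + (q h' (y' + w) + g h') =
          q h (y + w) + q h' (y' + w) + g (h + h') := by
        rw [map_add g]
        abel
      rw [e5, hgn] at e4
      rw [← e4]
      simp only [map_add, LinearMap.add_apply]
      have : q h y + q h v + (q h' y' + q h' v) =
        q h y + q h v + (q h' y' + q h' v) + ((q h w + q h w) + (q h' w + q h' w)) := by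
        rw [self_add, self_add, add_zero, add_zero]
      rw [this]
      abel
    have hyv : φ (y + v) = 0 := by rw [map_add, hy, hv, one_add_one2]
    have hyv' : φ (y' + v) = 0 := by rw [map_add, hy', hv, one_add_one2]
    have e6 := (hS.cmp _ _ _ _ hh hyv hh' hyv').1 e3
    obtain ⟨s, hs, s1, s2⟩ := hS.slot2 hh hh' ⟨y + v, hyv, rfl⟩ ⟨y' + v, hyv', e6.symm⟩
    have f1 : D.q h y = D.q h (v + s) := by
      rw [dq] at s1 ⊢
      have : y + (v + s) = s + (y + v) := by abel
      rwa [this]
    have f2 : D.q h' y' = D.q h' (v + s) := by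
      rw [e6] at s2
      rw [dq] at s2 ⊢
      have : y' + (v + s) = s + (y' + v) := by abel
      rwa [this]
    rw [f1, f2, dq']
    exact dadd D hv' ((dq' D).1 (s1.trans s2.symm))
  have conv : ∀ h y h' y', φ h = 0 → φ h' = 0 → k h y = k h' y' → D.q h y = D.q h' y' := by
    intro h y h' y' hh hh' e
    rcases z2 (φ y) with hy | hy <;> rcases z2 (φ y') with hy' | hy'
    · rw [k0 h y hh hy, k0 h' y' hh' hy', Prod.mk.injEq] at e
      exact (hS.cmp _ _ _ _ hh hy hh' hy').1 e.1
    · exact mixed h y h' y' hh hy hh' hy' e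
    · exact (mixed h' y' h y hh' hy' hh hy e.symm).symm
    · exact both h y h' y' hh hy hh' hy' e
  -- normal forms
  have nf : ∀ a b, ∃ h y, φ h = 0 ∧ D.q a b = D.q h y ∧ k a b = k h y := by
    intro a b
    rcases z2 (φ a) with ha | ha
    · exact ⟨a, b, ha, rfl, rfl⟩
    · rcases z2 (φ b) with hb | hb
      · exact ⟨b, a, hb, D.symm a b, ksymm a b⟩
      · refine ⟨a + (b + D.e), b, by rw [map_add, ha, hS.phw hb, one_add_one2],
          (dq_add' D (ddiag' b)).symm, ?_⟩
        rw [map_add, LinearMap.add_apply, kdiag', add_zero]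
  have kiff : ∀ a b c d, k a b = k c d ↔ D.q a b = D.q c d := by
    intro a b c d
    refine ⟨fun h => ?_, keq a b c d⟩
    obtain ⟨h1, y1, a1, a2, a3⟩ := nf a b
    obtain ⟨h2, y2, b1, b2, b3⟩ := nf c d
    rw [a2, b2]
    exact conv _ _ _ _ a1 b1 (by rw [← a3, ← b3, h])
  refine ⟨B × (V ⧸ N), inferInstance, inferInstance, k, ⟨ksymm, ?_, ?_⟩, kiff⟩
  · intro x
    have h := kdiag x
    rw [map_add] at h
    exact eq_iff_add.2 h
  intro a b c d h
  obtain ⟨x, h1, h2⟩ := dlink D ((kiff a b c d).1 h) rfl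
  refine ⟨x, ?_, ?_⟩
  · rw [h]
    exact keq _ _ _ _ h1
  · rw [h]
    exact keq _ _ _ _ h2

end Pool.Agent.ASE
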