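import Pool.Agent.ASE.Stmts
import Pool.Agent.ETCMR.Fin2

/-!
THEOREM A* for arbitrary `-1`, module SPL: a linked structure with a proper orthogonal
decomposition with disjoint values is a product of two smaller structures.
-/

set_option autoImplicit false

namespace Pool.Agent.ASE

open QS Pool.Agent.AST Pool.Agent.ETCMR
open Pool.Agent.Helper58.PLine (QData)

/-- the image of a subspace -/
def imS {V : Type} [AddCommGroup V] [Module (ZMod 2) V] {G : Type} [CommGroup G]
    (f : Multiplicative V ≃* G) (A : Submodule (ZMod 2) V) : Subgroup G where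
  carrier := {x | ∃ a ∈ A, f (Multiplicative.ofAdd a) = x}
  mul_mem' := by
    rintro x y ⟨a, ha, rfl⟩ ⟨b, hb, rfl⟩
    exact ⟨a + b, A.add_mem ha hb, map_mul f _ _⟩
  one_mem' := ⟨0, A.zero_mem, map_one f⟩
  inv_mem' := by
    rintro x ⟨a, ha, rfl⟩
    exact ⟨-a, A.neg_mem ha, map_inv f _⟩

theorem SPL : Stmt_SPL := by
  intro V B Q _ _ _ _ _ D q hl hz hsm hsp S hQ
  obtain ⟨f, hfe, hf⟩ := hQ
  obtain ⟨A, A', hc, hA, hA', h0, hd⟩ := hsp
  have hfin : Finite S.G := Finite.of_equiv _ f.toEquiv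
  have hcard : Nat.card S.G = Nat.card V :=
    (Nat.card_congr (f.toEquiv : Multiplicative V ≃ S.G)).symm
  have hinj : ∀ a b : V, f (Multiplicative.ofAdd a) = f (Multiplicative.ofAdd b) → a = b :=
    fun a b h => f.injective h
  have hadd : ∀ x y : V, f (Multiplicative.ofAdd (x + y)) =
      f (Multiplicative.ofAdd x) * f (Multiplicative.ofAdd y) := fun x y => map_mul f _ _
  have hdec : ∀ v : V, ∃ a ∈ A, ∃ b ∈ A', a + b = v := by
    intro v
    have hv : v ∈ A ⊔ A' := by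
      rw [hc.sup_eq_top]
      trivial
    exact Submodule.mem_sup.1 hv
  have hcompl : IsCompl (imS f A) (imS f A') := by
    constructor
    · rw [Subgroup.disjoint_def]
      rintro x ⟨a, ha, rfl⟩ ⟨b, hb, hab⟩
      have h1 := hinj _ _ hab
      subst h1
      have h2 := Submodule.disjoint_def.1 hc.disjoint _ ha hb
      rw [h2]
      exact map_one f
    · rw [codisjoint_iff, eq_top_iff]
      intro x _
      obtain ⟨m, rfl⟩ := f.surjective x
      obtain ⟨a, ha, b, hb, hab⟩ := hdec m.toAdd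
      rw [Subgroup.mem_sup]
      refine ⟨_, ⟨a, ha, rfl⟩, _, ⟨b, hb, rfl⟩, ?_⟩
      rw [← hadd, hab]
      rfl
  obtain ⟨a0, ha0, b0, hb0, hab0⟩ := hdec D.e
  have h0' : ∀ a ∈ A', ∀ a' ∈ A, q a a' = 0 := by
    intro a ha a' ha'
    rw [hl.symm]
    exact h0 a' ha' a ha
  obtain ⟨SA, SB, φ, ψ, -, -, -, -, h5⟩ := ETCM.prodrec S (imS f A) (imS f A') hcompl
    (a0 := f (Multiplicative.ofAdd a0)) (b0 := f (Multiplicative.ofAdd b0)) ⟨a0, ha0, rfl⟩
    ⟨b0, hb0, rfl⟩ (by rw [← hadd, hab0, hfe]) (by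
      rintro _ ⟨a, ha, rfl⟩ _ ⟨b, hb, rfl⟩ _ ⟨a', ha', rfl⟩ _ ⟨b', hb', rfl⟩
      rw [← hadd, ← hadd, hf, hf, hf, ← hz, ← hz, ← hz, map_add (q (a + b)), map_add q,
        LinearMap.add_apply, LinearMap.add_apply, h0 a ha b' hb', h0' b hb a' ha', add_zero,
        zero_add]
      constructor
      · intro h
        have h1 : q a a' = q b b' := eq_iff_add.2 h
        have h2 := hd a ha a' ha' b hb b' hb' h1
        exact ⟨h2, by rw [← h1, h2]⟩
      · rintro ⟨h1, h2⟩
        rw [h1, h2, add_zero])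
  have two : ∀ W : Submodule (ZMod 2) V, W ≠ ⊥ → 2 ≤ Nat.card (imS f W) := by
    intro W hW
    obtain ⟨v, hv, hv0⟩ := Submodule.exists_mem_ne_zero_of_ne_bot hW
    have : Nontrivial (imS f W) := by
      refine ⟨⟨⟨_, v, hv, rfl⟩, 1, fun h => hv0 ?_⟩⟩
      have h1 : f (Multiplicative.ofAdd v) = 1 := congrArg Subtype.val h
      rw [map_eq_one_iff f f.injective] at h1
      exact h1
    exact (Nat.succ_le_iff.2 Finite.one_lt_card)
  refine elem_of_prod S (fun T hT hcT => hsm T hT (hcard ▸ hcT)) ⟨SA, SB, ?_, ?_, h5⟩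
  · rw [Nat.card_congr φ.toEquiv]
    exact two A hA
  · rw [Nat.card_congr ψ.toEquiv]
    exact two A' hA'

end Pool.Agent.ASE
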