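import Pool.Agent.ETC.Char

/-!
Saturation for finite linked symmetric maps with values in a set and without a distinguished
element `-1` (the proof of Pool/Agent/ETC/QSat.lean and QSat2.lean never uses `-1`; copied here for
the weaker structure `QD0`).
-/

set_option linter.unusedSectionVars false

namespace Pool.Agent.ASE.Q0

open Finset ETC

/-- Symmetric linked data without a distinguished element. -/
structure QD0 (V Q : Type) [AddCommGroup V] [Module (ZMod 2) V] where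
  q : V → V → Q
  z : Q
  symm : ∀ x y, q x y = q y x
  add : ∀ x y w, q x y = q x w ↔ q x (y + w) = z
  link : ∀ a b c d, q a b = q c d → ∃ x, q a b = q a x ∧ q c d = q c x

theorem add_self_add {M : Type} [AddCommGroup M] [Module (ZMod 2) M] (x y : M) :
    x + y + y = x := by
  rw [add_assoc, ZModModule.add_self, add_zero]

namespace QD0

variable {V Q : Type} [AddCommGroup V] [Module (ZMod 2) V] (D : QD0 V Q)

theorem q_zero (x : V) : D.q x 0 = D.z := by
  have := (D.add x 0 0).1 rfl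
  rwa [add_zero] at this

/-- `V_x = {v : q (x, v) = 0}`. -/
def ann (x : V) : Submodule (ZMod 2) V where
  carrier := {v | D.q x v = D.z}
  add_mem' := by
    intro a b ha hb
    exact (D.add x a b).1 (by rw [ha, hb])
  zero_mem' := D.q_zero x
  smul_mem' := by
    intro c v hv
    rcases zm c with rfl | rfl
    · rw [zero_smul]; exact D.q_zero x
    · rw [one_smul]; exact hv

theorem mem_ann {x v : V} : v ∈ D.ann x ↔ D.q x v = D.z := Iff.rfl

theorem eq_iff {x v w : V} : D.q x v = D.q x w ↔ v + w ∈ D.ann x := D.add x v w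

theorem eq_iff' {x y v : V} : D.q x v = D.q y v ↔ v ∈ D.ann (x + y) := by
  rw [D.symm x v, D.symm y v, D.add, D.symm, mem_ann]

end QD0

section A0
variable {V Q Y : Type} [AddCommGroup V] [Module (ZMod 2) V] [AddCommGroup Y] [Module (ZMod 2) Y]

/-- sum of a character over a subspace -/
theorem sum_sub [Fintype Y] (U : Submodule (ZMod 2) Y) (χ : D Y) :
    ∑ η : Y, ind (η ∈ U) * sg (χ η) = (∑ η : Y, ind (η ∈ U)) * ind (∀ η ∈ U, χ η = 0) := by
  classical
  by_cases h : ∀ η ∈ U, χ η = 0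
  · rw [ind_true h, mul_one]
    apply Finset.sum_congr rfl
    intro η _
    by_cases hη : η ∈ U
    · rw [h η hη, sg_zero, mul_one]
    · rw [ind_false hη, zero_mul]
  · rw [ind_false h, mul_zero]
    push Not at h
    obtain ⟨η0, h0, h1⟩ := h
    have h1 : χ η0 = 1 := (zm _).resolve_left h1
    have e1 : ∑ η : Y, ind (η ∈ U) * sg (χ η) =
        ∑ η : Y, ind (η + η0 ∈ U) * sg (χ (η + η0)) :=
      (Equiv.sum_comp (Equiv.addRight η0) (fun η => ind (η ∈ U) * sg (χ η))).symm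
    have e2 : ∑ η : Y, ind (η + η0 ∈ U) * sg (χ (η + η0)) =
        - ∑ η : Y, ind (η ∈ U) * sg (χ η) := by
      rw [← Finset.sum_neg_distrib]
      apply Finset.sum_congr rfl
      intro η _
      have : ind (η + η0 ∈ U) = ind (η ∈ U) := ind_congr (U.add_mem_iff_left h0)
      rw [this, map_add, sg_add, h1, sg_one]
      ring
    omega

theorem sum_sub_nonneg [Fintype Y] (U : Submodule (ZMod 2) Y) (χ : D Y) :
    0 ≤ ∑ η : Y, ind (η ∈ U) * sg (χ η) := by
  rw [sum_sub]
  exact mul_nonneg (Finset.sum_nonneg fun _ _ => ind_nonneg _) (ind_nonneg _)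

theorem sum_sub_pos [Fintype Y] (U : Submodule (ZMod 2) Y) : 0 < ∑ η : Y, ind (η ∈ U) :=
  Finset.sum_pos' (fun _ _ => ind_nonneg _) ⟨0, Finset.mem_univ _, by
    rw [ind_true U.zero_mem]; exact one_pos⟩

section
variable {S : QD0 V Q}

theorem q_zero_left (x : V) : S.q 0 x = S.z := by rw [S.symm, S.q_zero]

/-- partial addition of quaternions with common slots -/
theorem add_common {x v s t s' t' : V} (h : S.q x s = S.q v t) (h' : S.q x s' = S.q v t') :
    S.q x (s + s') = S.q v (t + t') := by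
  obtain ⟨r, h1, h2⟩ := S.link _ _ _ _ h
  obtain ⟨r', h1', h2'⟩ := S.link _ _ _ _ h'
  have e1 : S.q x (s + s') = S.q x (r + r') := by
    rw [S.eq_iff] at h1 h1' ⊢
    have := add_mem h1 h1'
    rwa [add_add_add_comm] at this
  have e2 : S.q v (t + t') = S.q v (r + r') := by
    rw [S.eq_iff] at h2 h2' ⊢
    have := add_mem h2 h2'
    rwa [add_add_add_comm] at this
  have e3 : r ∈ S.ann (x + v) := S.eq_iff'.1 (by rw [← h1, h, h2])
  have e4 : r' ∈ S.ann (x + v) := S.eq_iff'.1 (by rw [← h1', h', h2'])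
  rw [e1, e2]
  exact S.eq_iff'.2 (add_mem e3 e4)

variable (S) in
/-- a family of maps `g η : V → Q`, `g η x = q (x, w x η)`, additive in `η` and compatible with
sums of pairs of elements of `V` -/
structure Fam (w : V → Y →ₗ[ZMod 2] V) : Prop where
  cons : ∀ x x', ∃ l : Y →ₗ[ZMod 2] V, ∀ η, S.q x (w x η) = S.q x (l η) ∧
    S.q x' (w x' η) = S.q x' (l η) ∧ S.q (x + x') (w (x + x') η) = S.q (x + x') (l η)

variable (S) in
/-- the maps of the family -/
def gg (w : V → Y →ₗ[ZMod 2] V) (η : Y) (x : V) : Q := S.q x (w x η)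

variable (S) in
/-- the family is linked at `η`, `η'` -/
def LkQ (w : V → Y →ₗ[ZMod 2] V) (η η' : Y) : Prop :=
  ∀ x x', gg S w η x = gg S w η' x' → ∃ t, gg S w η t = gg S w η x ∧ gg S w η' t = gg S w η x

variable {w : V → Y →ₗ[ZMod 2] V}

theorem gg_zero (η : Y) : gg S w η 0 = S.z := q_zero_left _

theorem gg_add (η η' : Y) (x : V) : gg S w (η + η') x = S.z ↔ gg S w η x = gg S w η' x := by
  unfold gg
  rw [map_add, S.add]

theorem Fam.eq_iff (hw : Fam S w) (η : Y) (x x' : V) :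
    gg S w η x = gg S w η x' ↔ gg S w η (x + x') = S.z := by
  obtain ⟨l, h⟩ := hw.cons x x'
  obtain ⟨h1, h2, h3⟩ := h η
  unfold gg
  rw [h1, h2, h3, S.eq_iff']
  rfl

/-- the subspace of all `η` with `g η x = 0` -/
def Vx (S : QD0 V Q) (w : V → Y →ₗ[ZMod 2] V) (x : V) : Submodule (ZMod 2) Y :=
  (S.ann x).comap (w x)

theorem mem_Vx {x : V} {η : Y} : η ∈ Vx S w x ↔ gg S w η x = S.z := Iff.rfl

/-- `η` such that `g η x` is a value of `g y` -/
def Wx (hw : Fam S w) (x : V) (y : Y) : Submodule (ZMod 2) Y where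
  carrier := {η | ∃ t, gg S w η x = gg S w y t}
  add_mem' := by
    rintro η η' ⟨t, ht⟩ ⟨t', ht'⟩
    refine ⟨t + t', ?_⟩
    obtain ⟨l, h⟩ := hw.cons t t'
    obtain ⟨h1, h2, h3⟩ := h y
    unfold gg at ht ht' ⊢
    rw [h3, map_add, S.symm (t + t')]
    apply add_common
    · rw [ht, h1, S.symm]
    · rw [ht', h2, S.symm]
  zero_mem' := ⟨0, by
    rw [gg_zero]
    unfold gg
    rw [map_zero, S.q_zero]⟩
  smul_mem' := by
    rintro a η ⟨t, ht⟩
    rcases zm a with rfl | rfl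
    · refine ⟨0, ?_⟩
      rw [zero_smul, gg_zero]
      unfold gg
      rw [map_zero, S.q_zero]
    · exact ⟨t, by rw [one_smul, ht]⟩

section counting
variable [Fintype V]

variable (S w) in
/-- number of zeros -/
noncomputable def cc (η : Y) : ℤ := ∑ x : V, ind (gg S w η x = S.z)

variable (S w) in
/-- number of coincidences -/
noncomputable def AA (η η' : Y) : ℤ := ∑ x : V, ∑ x' : V, ind (gg S w η x = gg S w η' x')

variable (S w) in
/-- number of common zeros -/
noncomputable def ZZ (η η' : Y) : ℤ := ∑ x : V, ind (gg S w η x = S.z ∧ gg S w η' x = S.z)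

variable (S w) in
/-- number of linked pairs -/
noncomputable def LL (η η' : Y) : ℤ :=
  ∑ x : V, ∑ x' : V, ind (∃ t, gg S w η t = gg S w η x ∧ gg S w η' t = gg S w η' x' ∧
    gg S w η t = gg S w η' t)

theorem cc_pos (η : Y) : 0 < cc S w η := by
  unfold cc
  apply Finset.sum_pos' (fun v _ => ind_nonneg _)
  exact ⟨0, Finset.mem_univ _, by rw [ind_true (gg_zero η)]; exact one_pos⟩

theorem ZZ_pos (η η' : Y) : 0 < ZZ S w η η' := by
  unfold ZZ
  apply Finset.sum_pos' (fun v _ => ind_nonneg _)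
  exact ⟨0, Finset.mem_univ _, by rw [ind_true ⟨gg_zero η, gg_zero η'⟩]; exact one_pos⟩

theorem sum_eq_cc (hw : Fam S w) (η : Y) (t : V) :
    ∑ x : V, ind (gg S w η t = gg S w η x) = cc S w η := by
  symm
  apply sum_ind_shift _ _ t
  intro v
  rw [hw.eq_iff, add_comm]

theorem LL_mul (hw : Fam S w) (η η' : Y) :
    LL S w η η' * ZZ S w η η' = cc S w η * cc S w η' * cc S w (η + η') := by
  have h1 : cc S w η * cc S w η' * cc S w (η + η') = ∑ t : V, ∑ x : V, ∑ x' : V,
      ind (gg S w η t = gg S w η x ∧ gg S w η' t = gg S w η' x' ∧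
        gg S w η t = gg S w η' t) := by
    conv_lhs => rw [mul_comm]; arg 1; unfold cc
    rw [Finset.sum_mul]
    apply Finset.sum_congr rfl
    intro t _
    rw [← sum_eq_cc hw η t, ← sum_eq_cc hw η' t, Finset.sum_mul_sum, Finset.mul_sum]
    apply Finset.sum_congr rfl
    intro x _
    rw [Finset.mul_sum]
    apply Finset.sum_congr rfl
    intro x' _
    rw [ind_and, ind_and, ind_congr (gg_add η η' t)]
    ring
  rw [h1, Finset.sum_comm, LL, Finset.sum_mul]
  apply Finset.sum_congr rfl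
  intro x _
  rw [Finset.sum_comm, Finset.sum_mul]
  apply Finset.sum_congr rfl
  intro x' _
  by_cases h : ∃ t, gg S w η t = gg S w η x ∧ gg S w η' t = gg S w η' x' ∧
      gg S w η t = gg S w η' t
  · rw [ind_true h, one_mul]
    obtain ⟨t0, a1, a2, a3⟩ := h
    symm
    apply sum_ind_shift _ _ t0
    intro v
    have e1 : gg S w η (v + t0) = gg S w η x ↔ gg S w η v = S.z := by
      rw [← a1, hw.eq_iff, add_add_self']
    have e2 : gg S w η' (v + t0) = gg S w η' x' ↔ gg S w η' v = S.z := by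
      rw [← a2, hw.eq_iff, add_add_self']
    constructor
    · rintro ⟨b1, b2, -⟩; exact ⟨e1.1 b1, e2.1 b2⟩
    · rintro ⟨b1, b2⟩
      refine ⟨e1.2 b1, e2.2 b2, ?_⟩
      rw [e1.2 b1, e2.2 b2, ← a1, ← a2, a3]
  · rw [ind_false h, zero_mul]
    symm
    apply Finset.sum_eq_zero
    intro t _
    exact ind_false fun ht => h ⟨t, ht⟩

theorem LL_le_aux (η η' : Y) (x x' : V) : ind (∃ t, gg S w η t = gg S w η x ∧
    gg S w η' t = gg S w η' x' ∧ gg S w η t = gg S w η' t) ≤
      ind (gg S w η x = gg S w η' x') := by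
  apply ind_le
  rintro ⟨t, h1, h2, h3⟩
  rw [← h1, ← h2, h3]

theorem LL_le_AA (η η' : Y) : LL S w η η' ≤ AA S w η η' := by
  apply Finset.sum_le_sum
  intro x _
  apply Finset.sum_le_sum
  intro x' _
  exact LL_le_aux η η' x x'

theorem LL_eq_AA_iff (η η' : Y) : LL S w η η' = AA S w η η' ↔ LkQ S w η η' := by
  constructor
  · intro h x x' hx
    have h1 := (Finset.sum_eq_sum_iff_of_le (s := Finset.univ) (f := fun x : V => ∑ x' : V,
      ind (∃ t, gg S w η t = gg S w η x ∧ gg S w η' t = gg S w η' x' ∧ gg S w η t = gg S w η' t))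
      (g := fun x : V => ∑ x' : V, ind (gg S w η x = gg S w η' x'))
      (fun x _ => Finset.sum_le_sum fun x' _ => LL_le_aux η η' x x')).1 h x (Finset.mem_univ _)
    have h2 := (Finset.sum_eq_sum_iff_of_le (s := Finset.univ) (f := fun x' : V =>
      ind (∃ t, gg S w η t = gg S w η x ∧ gg S w η' t = gg S w η' x' ∧ gg S w η t = gg S w η' t))
      (g := fun x' : V => ind (gg S w η x = gg S w η' x'))
      (fun x' _ => LL_le_aux η η' x x')).1 h1 x' (Finset.mem_univ _)
    rw [ind_true hx] at h2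
    by_contra hc
    rw [ind_false] at h2
    · exact absurd h2 (by norm_num)
    · rintro ⟨t, a1, a2, a3⟩
      exact hc ⟨t, a1, by rw [← a3, a1]⟩
  · intro h
    apply le_antisymm (LL_le_AA η η')
    apply Finset.sum_le_sum
    intro x _
    apply Finset.sum_le_sum
    intro x' _
    apply ind_le
    intro hx
    obtain ⟨t, h1, h2⟩ := h x x' hx
    exact ⟨t, h1, by rw [h2, hx], by rw [h1, h2]⟩

theorem ccc_le (hw : Fam S w) (η η' : Y) :
    cc S w η * cc S w η' * cc S w (η + η') ≤ AA S w η η' * ZZ S w η η' := by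
  rw [← LL_mul hw]
  exact mul_le_mul_of_nonneg_right (LL_le_AA η η') (ZZ_pos η η').le

theorem ccc_eq_iff (hw : Fam S w) (η η' : Y) :
    cc S w η * cc S w η' * cc S w (η + η') = AA S w η η' * ZZ S w η η' ↔ LkQ S w η η' := by
  rw [← LL_mul hw, ← LL_eq_AA_iff]
  constructor
  · intro h
    exact mul_right_cancel₀ (ZZ_pos η η').ne' h
  · intro h; rw [h]

/-! ### the closure lemma -/

theorem AA_eq (hw : Fam S w) (η y : Y) :
    AA S w η y = ∑ x : V, ind (η ∈ Wx hw x y) * cc S w y := by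
  unfold AA
  apply Finset.sum_congr rfl
  intro x _
  by_cases h : η ∈ Wx hw x y
  · obtain ⟨t, ht⟩ := id h
    rw [ind_true h, one_mul, ← sum_eq_cc hw y t, ht]
  · rw [ind_false h, zero_mul]
    apply Finset.sum_eq_zero
    intro t _
    exact ind_false fun ht => h ⟨t, ht⟩

theorem ZZ_eq (η y : Y) :
    ZZ S w η y = ∑ x : V, ind (η ∈ Vx S w x) * ind (gg S w y x = S.z) := by
  unfold ZZ
  apply Finset.sum_congr rfl
  intro x _
  rw [ind_and, ind_congr mem_Vx]

variable [Fintype Y]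

theorem convQ_nonneg (hw : Fam S w) (hL : ∀ η η', LkQ S w η η') (χ : D Y) (y : Y) :
    0 ≤ ∑ η : Y, cc S w η * cc S w (η + y) * sg (χ η) := by
  have h2 : ∑ η : Y, AA S w η y * ZZ S w η y * sg (χ η) =
      cc S w y * ∑ η : Y, cc S w η * cc S w (η + y) * sg (χ η) := by
    rw [Finset.mul_sum]
    apply Finset.sum_congr rfl
    intro η _
    rw [← (ccc_eq_iff hw η y).2 (hL η y)]
    ring
  have h3 : ∑ η : Y, AA S w η y * ZZ S w η y * sg (χ η) =
      ∑ x : V, ∑ x' : V, (cc S w y * ind (gg S w y x' = S.z)) *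
        ∑ η : Y, ind (η ∈ Wx hw x y ⊓ Vx S w x') * sg (χ η) := by
    have e1 : ∀ η : Y, AA S w η y * ZZ S w η y * sg (χ η) = ∑ x : V, ∑ x' : V,
        (cc S w y * ind (gg S w y x' = S.z)) *
          (ind (η ∈ Wx hw x y ⊓ Vx S w x') * sg (χ η)) := by
      intro η
      rw [AA_eq hw, ZZ_eq, Finset.sum_mul_sum, Finset.sum_mul]
      apply Finset.sum_congr rfl
      intro x _
      rw [Finset.sum_mul]
      apply Finset.sum_congr rfl
      intro x' _
      have : ind (η ∈ Wx hw x y ⊓ Vx S w x') = ind (η ∈ Wx hw x y) * ind (η ∈ Vx S w x') := by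
        rw [← ind_and]; exact ind_congr Submodule.mem_inf
      rw [this]
      ring
    rw [Finset.sum_congr rfl fun η _ => e1 η, Finset.sum_comm]
    apply Finset.sum_congr rfl
    intro x _
    rw [Finset.sum_comm]
    apply Finset.sum_congr rfl
    intro x' _
    rw [Finset.mul_sum]
  have h4 : 0 ≤ cc S w y * ∑ η : Y, cc S w η * cc S w (η + y) * sg (χ η) := by
    rw [← h2, h3]
    apply Finset.sum_nonneg
    intro x _
    apply Finset.sum_nonneg
    intro x' _
    exact mul_nonneg (mul_nonneg (cc_pos y).le (ind_nonneg _)) (sum_sub_nonneg _ _)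
  by_contra hc
  push Not at hc
  have := mul_neg_of_pos_of_neg (cc_pos (S := S) (w := w) y) hc
  omega

theorem sum_cc_sg (χ : D Y) :
    ∑ η : Y, cc S w η * sg (χ η) = ∑ x : V, (∑ η : Y, ind (η ∈ Vx S w x)) *
      ind (∀ η ∈ Vx S w x, χ η = 0) := by
  unfold cc
  rw [Finset.sum_congr rfl fun η _ => Finset.sum_mul _ _ _, Finset.sum_comm]
  apply Finset.sum_congr rfl
  intro x _
  rw [← sum_sub]
  rfl

theorem sum_cc_ne (χ : D Y) (h : ∃ x, ∀ η ∈ Vx S w x, χ η = 0) :
    ∑ η : Y, cc S w η * sg (χ η) ≠ 0 := by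
  obtain ⟨x, hx⟩ := h
  rw [sum_cc_sg]
  apply ne_of_gt
  apply Finset.sum_pos' (fun x _ => mul_nonneg (sum_sub_pos _).le (ind_nonneg _))
  refine ⟨x, Finset.mem_univ _, ?_⟩
  rw [ind_true hx, mul_one]
  exact sum_sub_pos _

theorem sum_cc_zero (χ : D Y) (h : ¬ ∃ x, ∀ η ∈ Vx S w x, χ η = 0) :
    ∑ η : Y, cc S w η * sg (χ η) = 0 := by
  rw [sum_cc_sg]
  apply Finset.sum_eq_zero
  intro x _
  rw [ind_false (fun hx => h ⟨x, hx⟩), mul_zero]

end counting

/-- **Closure lemma**, set-valued version. -/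
theorem closureQ [Finite V] [Finite Y] (hw : Fam S w) (hL : ∀ η η', LkQ S w η η') {χ₁ χ₂ : D Y}
    (h₁ : ∃ x, ∀ η ∈ Vx S w x, χ₁ η = 0) (h₂ : ∃ x, ∀ η ∈ Vx S w x, χ₂ η = 0) :
    ∃ x, ∀ η ∈ Vx S w x, (χ₁ + χ₂) η = 0 := by
  classical
  have := Fintype.ofFinite V
  have := Fintype.ofFinite Y
  by_contra hc
  have z1 := sum_cc_zero _ hc
  have z2 : ∑ y : Y, ∑ η : Y, cc S w η * cc S w (η + y) * sg ((χ₁ + χ₂) η) = 0 := by
    rw [Finset.sum_comm]
    have : ∀ η : Y, ∑ y : Y, cc S w η * cc S w (η + y) * sg ((χ₁ + χ₂) η) =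
        (cc S w η * sg ((χ₁ + χ₂) η)) * ∑ v : Y, cc S w v := by
      intro η
      rw [← Equiv.sum_comp (Equiv.addLeft η) (fun v => cc S w v), Finset.mul_sum]
      apply Finset.sum_congr rfl
      intro y _
      simp only [Equiv.coe_addLeft]
      ring
    rw [Finset.sum_congr rfl fun η _ => this η, ← Finset.sum_mul, z1, zero_mul]
  have z3 : ∀ y : Y, ∑ η : Y, cc S w η * cc S w (η + y) * sg ((χ₁ + χ₂) η) = 0 := by
    intro y
    exact (Finset.sum_eq_zero_iff_of_nonneg (fun y _ => convQ_nonneg hw hL (χ₁ + χ₂) y)).1 z2 y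
      (Finset.mem_univ y)
  have z4 : ∑ y : Y, (∑ η : Y, cc S w η * cc S w (η + y) * sg ((χ₁ + χ₂) η)) * sg (χ₂ y) =
      (∑ η : Y, cc S w η * sg (χ₁ η)) * ∑ v : Y, cc S w v * sg (χ₂ v) := by
    rw [Finset.sum_congr rfl fun y _ => Finset.sum_mul _ _ _, Finset.sum_comm, Finset.sum_mul]
    apply Finset.sum_congr rfl
    intro η _
    rw [← Equiv.sum_comp (Equiv.addLeft η) (fun v => cc S w v * sg (χ₂ v)), Finset.mul_sum]
    apply Finset.sum_congr rfl
    intro y _
    simp only [Equiv.coe_addLeft]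
    rw [LinearMap.add_apply, sg_add, map_add χ₂, sg_add]
    ring
  have z5 : ∑ y : Y, (∑ η : Y, cc S w η * cc S w (η + y) * sg ((χ₁ + χ₂) η)) * sg (χ₂ y) = 0 := by
    apply Finset.sum_eq_zero
    intro y _
    rw [z3 y, zero_mul]
  rw [z5] at z4
  rcases mul_eq_zero.1 z4.symm with h | h
  · exact sum_cc_ne _ h₁ h
  · exact sum_cc_ne _ h₂ h

end



end A0

section B0
variable {V Q : Type} [AddCommGroup V] [Module (ZMod 2) V] {S : QD0 V Q}

variable (S) in
/-- `α` is given by an element of `V` on every pair `x, x'` and their sum -/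
def Pairwise2 (α : V → Q) : Prop :=
  ∀ x x', ∃ v, α x = S.q x v ∧ α x' = S.q x' v ∧ α (x + x') = S.q (x + x') v

/-- the family attached to a choice `s` -/
def ws (s : V → V) (x : V) : (V × ZMod 2) →ₗ[ZMod 2] V :=
  LinearMap.fst (ZMod 2) V (ZMod 2) +
    (LinearMap.toSpanSingleton (ZMod 2) V (s x)).comp (LinearMap.snd (ZMod 2) V (ZMod 2))

theorem ws_zero (s : V → V) (x y : V) : ws s x (y, 0) = y := by simp [ws]

theorem ws_one (s : V → V) (x y : V) : ws s x (y, 1) = y + s x := by simp [ws]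

section
variable {α : V → Q} {s : V → V}

theorem gg_ws_zero (y x : V) : gg S (ws s) (y, 0) x = S.q x y := by
  unfold gg; rw [ws_zero]

theorem gg_ws_one (hs : ∀ x, α x = S.q x (s x)) {x v : V} (h : α x = S.q x v) (y : V) :
    gg S (ws s) (y, 1) x = S.q x (y + v) := by
  unfold gg
  rw [ws_one, S.eq_iff, add_add_add_comm, ZModModule.add_self, zero_add]
  rw [← S.eq_iff, ← hs, h]

theorem ws_fam (hα : Pairwise2 S α) (hs : ∀ x, α x = S.q x (s x)) : Fam S (ws s) := by
  constructor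
  intro x x'
  obtain ⟨v, h1, h2, h3⟩ := hα x x'
  refine ⟨LinearMap.fst (ZMod 2) V (ZMod 2) +
    (LinearMap.toSpanSingleton (ZMod 2) V v).comp (LinearMap.snd (ZMod 2) V (ZMod 2)), ?_⟩
  rintro ⟨y, ε⟩
  rcases zm ε with rfl | rfl
  · simp [ws]
  · have e1 := gg_ws_one hs h1 y
    have e2 := gg_ws_one hs h2 y
    have e3 := gg_ws_one hs h3 y
    unfold gg at e1 e2 e3
    rw [e1, e2, e3]
    simp

theorem LkQ_zero_zero (y y' : V) : LkQ S (ws s) (y, 0) (y', 0) := by
  intro x x' h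
  rw [gg_ws_zero, gg_ws_zero] at h
  obtain ⟨t, h1, h2⟩ := S.link y x y' x' (by rw [S.symm y, S.symm y', h])
  refine ⟨t, ?_, ?_⟩
  · rw [gg_ws_zero, gg_ws_zero, S.symm t, ← h1, S.symm]
  · rw [gg_ws_zero, gg_ws_zero, S.symm t, ← h2, S.symm, h]

variable [Fintype V]

theorem sum_AAZZ (hα : Pairwise2 S α) (hs : ∀ x, α x = S.q x (s x)) :
    ∑ a : V × V, AA S (ws s) (a.1, 1) (a.2, 1) * ZZ S (ws s) (a.1, 1) (a.2, 1) =
      ∑ a : V × V, AA S (ws s) (a.1, 0) (a.2, 0) * ZZ S (ws s) (a.1, 0) (a.2, 0) := by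
  have key : ∀ ε : ZMod 2,
      ∑ a : V × V, AA S (ws s) (a.1, ε) (a.2, ε) * ZZ S (ws s) (a.1, ε) (a.2, ε) =
      ∑ b : V × V × V, ∑ a : V × V, ind (gg S (ws s) (a.1, ε) b.1 = gg S (ws s) (a.2, ε) b.2.1 ∧
        gg S (ws s) (a.1, ε) b.2.2 = S.z ∧ gg S (ws s) (a.2, ε) b.2.2 = S.z) := by
    intro ε
    rw [Finset.sum_comm]
    apply Finset.sum_congr rfl
    intro a _
    unfold AA ZZ
    rw [Finset.sum_mul, Fintype.sum_prod_type]
    apply Finset.sum_congr rfl
    intro x _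
    rw [Finset.sum_mul_sum, Fintype.sum_prod_type]
    simp only [ind_and]
  rw [key 1, key 0]
  apply Finset.sum_congr rfl
  rintro ⟨x, x', x''⟩ _
  obtain ⟨y0, a1, a2, -⟩ := hα x'' (x + x')
  obtain ⟨v0, b1, b2, b3⟩ := hα x x'
  apply sum_ind_shift _ _ (y0, y0)
  rintro ⟨y, y'⟩
  simp only [Prod.mk_add_mk, gg_ws_zero]
  rw [gg_ws_one hs a1, gg_ws_one hs a1, gg_ws_one hs b1, gg_ws_one hs b2,
    add_add_self', add_add_self']
  have hw : S.q x (y0 + v0) = S.q x' (y0 + v0) := by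
    rw [S.eq_iff', ← S.eq_iff, ← b3, a2]
  have e : S.q x (y + y0 + v0) = S.q x' (y' + y0 + v0) ↔ S.q x y = S.q x' y' := by
    rw [add_assoc, add_assoc]
    constructor
    · intro h
      have := add_common h hw
      rwa [add_add_self', add_add_self'] at this
    · intro h
      exact add_common h hw
  rw [e]

theorem sum_ccc (hα : Pairwise2 S α) (hs : ∀ x, α x = S.q x (s x)) :
    ∑ a : V × V, cc S (ws s) (a.1, 1) * cc S (ws s) (a.2, 1) * cc S (ws s) (a.1 + a.2, 0) =
      ∑ a : V × V, cc S (ws s) (a.1, 0) * cc S (ws s) (a.2, 0) *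
        cc S (ws s) (a.1 + a.2, 0) := by
  have key : ∀ ε : ZMod 2,
      ∑ a : V × V, cc S (ws s) (a.1, ε) * cc S (ws s) (a.2, ε) * cc S (ws s) (a.1 + a.2, 0) =
      ∑ b : V × V × V, ∑ a : V × V, ind (gg S (ws s) (a.1, ε) b.1 = S.z ∧
        gg S (ws s) (a.2, ε) b.2.1 = S.z ∧ gg S (ws s) (a.1 + a.2, 0) b.2.2 = S.z) := by
    intro ε
    rw [Finset.sum_comm]
    apply Finset.sum_congr rfl
    intro a _
    unfold cc
    rw [mul_assoc, Finset.sum_mul, Fintype.sum_prod_type]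
    apply Finset.sum_congr rfl
    intro x _
    rw [Finset.sum_mul_sum, Finset.mul_sum, Fintype.sum_prod_type]
    apply Finset.sum_congr rfl
    intro x' _
    rw [Finset.mul_sum]
    simp only [ind_and]
  rw [key 1, key 0]
  apply Finset.sum_congr rfl
  rintro ⟨x, x', x''⟩ _
  obtain ⟨y0, a1, a2, -⟩ := hα x x'
  apply sum_ind_shift _ _ (y0, y0)
  rintro ⟨y, y'⟩
  simp only [Prod.mk_add_mk, gg_ws_zero]
  rw [gg_ws_one hs a1, gg_ws_one hs a2, add_add_self', add_add_self', add_add_add_comm,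
    ZModModule.add_self, add_zero]

theorem LkQ_one_one (hα : Pairwise2 S α) (hs : ∀ x, α x = S.q x (s x)) (y y' : V) :
    LkQ S (ws s) (y, 1) (y', 1) := by
  have hw := ws_fam hα hs
  have hz : (1 : ZMod 2) + 1 = 0 := by decide
  have hsum : ∑ a : V × V, cc S (ws s) (a.1, 1) * cc S (ws s) (a.2, 1) *
        cc S (ws s) ((a.1, 1) + (a.2, 1)) =
      ∑ a : V × V, AA S (ws s) (a.1, 1) (a.2, 1) * ZZ S (ws s) (a.1, 1) (a.2, 1) := by
    rw [sum_AAZZ hα hs]
    simp only [Prod.mk_add_mk, hz]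
    rw [sum_ccc hα hs]
    apply Finset.sum_congr rfl
    intro a _
    rw [← (ccc_eq_iff hw (a.1, 0) (a.2, 0)).2 (LkQ_zero_zero a.1 a.2), Prod.mk_add_mk, add_zero]
  have h1 := (Finset.sum_eq_sum_iff_of_le (s := Finset.univ)
    (f := fun a : V × V => cc S (ws s) (a.1, 1) * cc S (ws s) (a.2, 1) *
        cc S (ws s) ((a.1, 1) + (a.2, 1)))
    (g := fun a : V × V => AA S (ws s) (a.1, 1) (a.2, 1) * ZZ S (ws s) (a.1, 1) (a.2, 1))
    (fun a _ => ccc_le hw _ _)).1 hsum (y, y') (Finset.mem_univ _)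
  exact (ccc_eq_iff hw _ _).1 h1

theorem LkQ_one_zero (hα : Pairwise2 S α) (hs : ∀ x, α x = S.q x (s x)) (y y' : V) :
    LkQ S (ws s) (y, 1) (y', 0) := by
  intro x1 x2 h
  have hw := ws_fam hα hs
  obtain ⟨v0, b1, b2, b3⟩ := hα x1 x2
  rw [gg_ws_zero, gg_ws_one hs b1] at h
  have h1 : gg S (ws s) (y, 1) (x1 + x2) = gg S (ws s) (y + y', 1) x2 := by
    rw [gg_ws_one hs b3, gg_ws_one hs b2, S.symm (x1 + x2)]
    have e1 : S.q (y + v0) x1 = S.q x2 y' := by rw [S.symm, h]
    have e2 : S.q (y + v0) x2 = S.q x2 (y + v0) := S.symm _ _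
    have := add_common e1 e2
    rw [this]
    congr 1
    abel
  obtain ⟨t, ht1, ht2⟩ := LkQ_one_one hα hs y (y + y') _ _ h1
  have h3 : gg S (ws s) (y', 0) t = S.z := by
    have : ((y', 0) : V × ZMod 2) = (y, 1) + (y + y', 1) := by
      rw [Prod.mk_add_mk, add_add_self]
      congr 1
    rw [this, gg_add, ht1, ht2]
  refine ⟨x2 + t, ?_, ?_⟩
  · rw [hw.eq_iff, show x2 + t + x1 = x1 + x2 + t by abel, ← hw.eq_iff, ht1]
  · have e1 : gg S (ws s) (y', 0) (x2 + t) = gg S (ws s) (y', 0) x2 := by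
      rw [hw.eq_iff, show x2 + t + x2 = t + (x2 + x2) by abel, ZModModule.add_self, add_zero, h3]
    rw [e1, gg_ws_zero, gg_ws_one hs b1, h]

theorem LkQ_all (hα : Pairwise2 S α) (hs : ∀ x, α x = S.q x (s x)) (η η' : V × ZMod 2) :
    LkQ S (ws s) η η' := by
  obtain ⟨y, ε⟩ := η
  obtain ⟨y', ε'⟩ := η'
  rcases zm ε with rfl | rfl <;> rcases zm ε' with rfl | rfl
  · exact LkQ_zero_zero y y'
  · intro x x' h
    obtain ⟨t, h1, h2⟩ := LkQ_one_zero hα hs y' y x' x h.symm
    exact ⟨t, by rw [h2, h], by rw [h1, h]⟩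
  · exact LkQ_one_zero hα hs y y'
  · exact LkQ_one_one hα hs y y'

end

/-- **Saturation theorem.** In a finite quaternionic structure, a map `α` from the group to the
set of quaternions that is given by an element on every pair and its sum is given by an
element. -/
theorem saturation [Finite V] {α : V → Q} (hα : Pairwise2 S α) : ∃ p, ∀ x, α x = S.q x p := by
  classical
  have := Fintype.ofFinite V
  have hs0 : ∀ x, ∃ v, α x = S.q x v := fun x => by
    obtain ⟨v, h, -, -⟩ := hα x x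
    exact ⟨v, h⟩
  choose s hs using hs0
  have hw := ws_fam hα hs
  have hL := LkQ_all hα hs
  let G : Submodule (ZMod 2) (D (V × ZMod 2)) :=
    { carrier := {χ | ∃ x, ∀ η ∈ Vx S (ws s) x, χ η = 0}
      add_mem' := fun h₁ h₂ => closureQ hw hL h₁ h₂
      zero_mem' := ⟨0, fun η _ => rfl⟩
      smul_mem' := by
        rintro a χ ⟨x, h⟩
        exact ⟨x, fun η hη => by rw [LinearMap.smul_apply, h η hη, smul_zero]⟩ }
  have hmem : ∀ x, ((s x, 1) : V × ZMod 2) ∈ Vx S (ws s) x := by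
    intro x
    rw [mem_Vx]
    unfold gg
    rw [ws_one, ZModModule.add_self, S.q_zero]
  have hτ : LinearMap.snd (ZMod 2) V (ZMod 2) ∉ G := by
    rintro ⟨x, h⟩
    exact one_ne_zero (h _ (hmem x))
  obtain ⟨F, hF1, hF2⟩ := exists_dual_sep hτ
  obtain ⟨z, rfl⟩ := (Module.evalEquiv (ZMod 2) (V × ZMod 2)).surjective F
  obtain ⟨y0, ε⟩ := z
  have h1 : ε = 1 := by simpa using hF1
  subst h1
  refine ⟨y0, fun x => ?_⟩
  have h2 : ((y0, 1) : V × ZMod 2) ∈ Vx S (ws s) x := by
    by_contra hne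
    obtain ⟨χ, hχ1, hχ2⟩ := exists_dual_sep hne
    have h3 := hF2 χ ⟨x, hχ2⟩
    rw [Module.evalEquiv_apply, Module.Dual.eval_apply, hχ1] at h3
    exact one_ne_zero h3
  rw [mem_Vx] at h2
  unfold gg at h2
  rw [ws_one, ← S.add] at h2
  rw [hs, h2]


end B0

end Pool.Agent.ASE.Q0
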