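import Pool.Agent.ASE.Stmts
import Pool.Agent.ASE.RED
import Pool.Agent.ASE.QD0
import Pool.Agent.ETCE.Prime

/-!
THEOREM A* FOR ARBITRARY `-1`, module TOP: prime hyperplanes and isolated elements of quaternionic
structures.
-/

set_option autoImplicit false

namespace Pool.Agent.ASE

open QS
open Pool.Agent.Helper58.PLine (QData)
open Pool.Agent.ASE.Q0 (QD0)

/-- A subgroup `H` of index two is prime if `V_x ∩ V_y` is not contained in `H` as soon as none of
`V_x, V_y, V_{xy}` is contained in `H` (`V_x = {v : q(x, v) = 0}`). -/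
def PrimeHyp (S : QStruct) (H : Subgroup S.G) : Prop :=
  H.index = 2 ∧ ∀ x y : S.G, (∃ v, v ∉ H ∧ S.q x v = S.zero) → (∃ v, v ∉ H ∧ S.q y v = S.zero) →
    (∃ v, v ∉ H ∧ S.q (x * y) v = S.zero) → ∃ v, v ∉ H ∧ S.q x v = S.zero ∧ S.q y v = S.zero

/-- An element `x ≠ 1` is isolated if for any two elements `u, v` outside `V_x` with
`q(u, v) = 0` the element `-uv` lies in `V_x` or both `-u` and `-v` do. -/
def Isolated (S : QStruct) (x : S.G) : Prop :=
  x ≠ 1 ∧ ∀ u v, S.q u v = S.zero → S.q x u ≠ S.zero → S.q x v ≠ S.zero →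
    S.q x (u * v * S.neg) = S.zero ∨ (S.q x (u * S.neg) = S.zero ∧ S.q x (v * S.neg) = S.zero)

/-- `S.G` is a vector space over `F_2` -/
@[reducible] def modG (S : QStruct) : Module (ZMod 2) (Additive S.G) :=
  AddCommGroup.zmodModule (n := 2) (fun x => by
    rw [two_nsmul]; exact S.exp_two (Additive.toMul x))

section data
variable (S : QStruct)

attribute [local instance] modG

/-- the quaternionic data of a structure -/
def toD : QData (Additive S.G) S.Q where
  q := fun x y => S.q (Additive.toMul x) (Additive.toMul y)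
  z := S.zero
  e := Additive.ofMul S.neg
  symm := fun x y => S.qs2 _ _
  add := fun x y w => S.qs3 _ _ _
  diag := by
    intro x
    have h := S.qs1 (Additive.toMul x)
    rwa [mul_comm] at h
  link := by
    intro a b c d h
    obtain ⟨x, h1, h2⟩ := S.qs4 _ _ _ _ h
    exact ⟨Additive.ofMul x, h1, h2⟩

theorem qofd : QOfD (toD S) S :=
  ⟨MulEquiv.refl S.G, rfl, fun _ _ => Iff.rfl⟩

/-- the functional with kernel `H` -/
theorem exists_fun {H : Subgroup S.G} (h2 : H.index = 2) :
    ∃ φ : Additive S.G →ₗ[ZMod 2] ZMod 2, φ ≠ 0 ∧ ∀ a, φ a = 1 ↔ Additive.toMul a ∉ H := by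
  have hmul : ∀ a b : S.G, a ∉ H → b ∉ H → a * b ∈ H := fun a b ha hb =>
    (Subgroup.mul_mem_iff_of_index_two h2).2 (iff_of_false ha hb)
  classical
  let f : Additive S.G →+ ZMod 2 :=
    { toFun := fun a => if Additive.toMul a ∈ H then 0 else 1
      map_zero' := by
        show (if (1 : S.G) ∈ H then (0 : ZMod 2) else 1) = 0
        rw [if_pos H.one_mem]
      map_add' := by
        intro a b
        show (if Additive.toMul a * Additive.toMul b ∈ H then (0 : ZMod 2) else 1) = _
        by_cases ha : Additive.toMul a ∈ H <;> by_cases hb : Additive.toMul b ∈ H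
        · rw [if_pos ha, if_pos hb, if_pos (H.mul_mem ha hb), add_zero]
        · rw [if_pos ha, if_neg hb, if_neg, zero_add]
          intro h
          exact hb ((Subgroup.mul_mem_iff_of_index_two h2).1 h |>.1 ha)
        · rw [if_neg ha, if_pos hb, if_neg, add_zero]
          intro h
          exact ha ((Subgroup.mul_mem_iff_of_index_two h2).1 h |>.2 hb)
        · rw [if_neg ha, if_neg hb, if_pos (hmul _ _ ha hb)]
          decide }
  let φ : Additive S.G →ₗ[ZMod 2] ZMod 2 := f.toZModLinearMap 2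
  have hφ : ∀ a, φ a = 1 ↔ Additive.toMul a ∉ H := by
    intro a
    show (if Additive.toMul a ∈ H then (0 : ZMod 2) else 1) = 1 ↔ _
    split_ifs with h
    · exact ⟨fun h' => absurd h' (by decide), fun h' => absurd h h'⟩
    · exact ⟨fun _ => h, fun _ => rfl⟩
  refine ⟨φ, ?_, hφ⟩
  intro h0
  have hH : H ≠ ⊤ := by
    rintro rfl
    rw [Subgroup.index_top] at h2
    exact absurd h2 (by norm_num)
  apply hH
  rw [Subgroup.eq_top_iff']
  intro a
  by_contra ha
  have := (hφ (Additive.ofMul a)).2 ha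
  rw [h0, LinearMap.zero_apply] at this
  exact absurd this (by decide)

end data

theorem zv {a : ZMod 2} (h : a ≠ 1) : a = 0 := by revert a; decide

/-- a prime hyperplane which does not contain `-1` gives an element of rank one -/
theorem rank_of_neg (S : QStruct) [Finite S.G] {H : Subgroup S.G} (hH : PrimeHyp S H)
    (hn : S.neg ∉ H) : ∃ x, x ≠ 1 ∧
      ∀ v w, S.q x v = S.zero ∨ S.q x w = S.zero ∨ S.q x (v * w) = S.zero := by
  obtain ⟨h2, h3⟩ := hH
  have hmul : ∀ {a b : S.G}, a ∉ H → b ∉ H → a * b ∈ H := fun ha hb =>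
    (Subgroup.mul_mem_iff_of_index_two h2).2 (iff_of_false ha hb)
  have hmul' : ∀ {a b : S.G}, a ∈ H → b ∉ H → a * b ∉ H := fun ha hb h =>
    hb (((Subgroup.mul_mem_iff_of_index_two h2).1 h).1 ha)
  -- `x` commutes with `x * neg`
  have hself : ∀ x, S.q x (x * S.neg) = S.zero := fun x => by
    have := S.qs1 x
    rwa [mul_comm] at this
  -- two elements of `H` commute with a common element outside `H`
  have hpair : ∀ x ∈ H, ∀ y ∈ H, ∃ v, v ∉ H ∧ S.q x v = S.zero ∧ S.q y v = S.zero := by
    intro x hx y hy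
    exact h3 x y ⟨_, hmul' hx hn, hself x⟩ ⟨_, hmul' hy hn, hself y⟩
      ⟨_, hmul' (H.mul_mem hx hy) hn, hself (x * y)⟩
  let _ : Module (ZMod 2) (Additive H) := AddCommGroup.zmodModule (n := 2) (fun x => by
    rw [two_nsmul]
    exact Subtype.ext (S.exp_two (Additive.toMul x : H)))
  let D : QD0 (Additive H) S.Q :=
    { q := fun x y => S.q (Additive.toMul x : H) (Additive.toMul y : H)
      z := S.zero
      symm := fun x y => S.qs2 _ _
      add := fun x y w => S.qs3 _ _ _
      link := by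
        intro a b c d h
        obtain ⟨x, h4, h5⟩ := S.qs4 _ _ _ _ h
        by_cases hx : x ∈ H
        · exact ⟨Additive.ofMul ⟨x, hx⟩, h4, h5⟩
        · obtain ⟨v, hv, hv1, hv2⟩ := hpair (Additive.toMul a : H) (Additive.toMul a : H).2
            (Additive.toMul c : H) (Additive.toMul c : H).2
          refine ⟨Additive.ofMul ⟨v * x, hmul hv hx⟩, ?_, ?_⟩
          · show _ = S.q _ (v * x)
            rw [S.q_zero_mul hv1, h4]
          · show _ = S.q _ (v * x)
            rw [S.q_zero_mul hv2, h5] }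
  have hfin : Finite (Additive H) := (inferInstance : Finite H)
  obtain ⟨p, hp⟩ := Q0.saturation (S := D) (α := fun x => D.q x x) (by
    intro x y
    obtain ⟨v, hv, hv1, hv2⟩ := hpair (Additive.toMul x : H) (Additive.toMul x : H).2
      (Additive.toMul y : H) (Additive.toMul y : H).2
    have key : ∀ x : S.G, S.q x v = S.zero → S.q x x = S.q x (v * S.neg) := by
      intro x hx
      rw [S.q_zero_mul hx, S.qs3]
      exact hself x
    have hv3 : S.q ((Additive.toMul x : H) * (Additive.toMul y : H) : S.G) v = S.zero := by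
      rw [S.qs2, ← S.qs3, S.qs2, hv1, S.qs2, hv2]
    exact ⟨Additive.ofMul ⟨v * S.neg, hmul hv hn⟩, key _ hv1, key _ hv2, key _ hv3⟩)
  let e' : S.G := (Additive.toMul p : H)
  have he' : e' ∈ H := (Additive.toMul p : H).2
  have hcom : ∀ h ∈ H, S.q (e' * S.neg) h = S.zero := by
    intro h hh
    have h4 : S.q h h = S.q h e' := hp (Additive.ofMul ⟨h, hh⟩)
    have h5 : S.q h S.neg = S.q h e' := by
      rw [← h4, S.qs3]
      have := hself h
      rwa [mul_comm] at this
    rw [S.qs2, ← S.qs3, h5]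
  refine ⟨e' * S.neg, fun h => hmul' he' hn (h ▸ H.one_mem), fun v w => ?_⟩
  by_cases hv : v ∈ H
  · exact Or.inl (hcom v hv)
  · by_cases hw : w ∈ H
    · exact Or.inr (Or.inl (hcom w hw))
    · exact Or.inr (Or.inr (hcom _ (hmul hv hw)))

/-- Theorem A*: a minimal structure with a prime hyperplane is of elementary type -/
theorem top_prime (hA : Stmt_ASD) (S : QStruct) [Finite S.G]
    (hT : ∀ T : QStruct, Finite T.G → Nat.card T.G < Nat.card S.G → ElemType T)
    (h : ∃ H, PrimeHyp S H) : ElemType S := by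
  obtain ⟨H, hH⟩ := h
  by_cases hn : S.neg ∈ H
  · let _ := modG S
    obtain ⟨φ, hφ0, hφ⟩ := exists_fun S hH.1
    have hfin : Finite (Additive S.G) := (inferInstance : Finite S.G)
    refine hA (Additive S.G) S.Q (toD S) hT ⟨φ, hφ0, ?_, ?_⟩ S (qofd S)
    · apply zv
      intro h
      exact (hφ _).1 h hn
    · rintro x y ⟨v, h4, h5⟩ ⟨v', h6, h7⟩ ⟨v'', h8, h9⟩
      obtain ⟨u, h10, h11, h12⟩ := hH.2 (Additive.toMul x) (Additive.toMul y)
        ⟨Additive.toMul v, (hφ v).1 h5, h4⟩ ⟨Additive.toMul v', (hφ v').1 h7, h6⟩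
        ⟨Additive.toMul v'', (hφ v'').1 h9, h8⟩
      exact ⟨Additive.ofMul u, h11, h12, (hφ (Additive.ofMul u)).2 h10⟩
  · by_contra hS
    obtain ⟨x, hx1, hx⟩ := rank_of_neg S hH hn
    exact hx1 ((RED S inferInstance hT hS).1 x hx)

/-- an isolated element -/
theorem top_iso (hA : Stmt_ASD) (S : QStruct) [Finite S.G]
    (hT : ∀ T : QStruct, Finite T.G → Nat.card T.G < Nat.card S.G → ElemType T)
    (h : ∃ x, Isolated S x) : ElemType S := by
  by_contra hS
  obtain ⟨h1, -⟩ := RED S inferInstance hT hS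
  obtain ⟨x, hx1, hx⟩ := h
  have h2 : ¬ ∀ v w, S.q x v = S.zero ∨ S.q x w = S.zero ∨ S.q x (v * w) = S.zero :=
    fun h3 => hx1 (h1 x h3)
  push Not at h2
  obtain ⟨v, w, h3, h4, h5⟩ := h2
  let _ := modG S
  have hfin : Finite (Additive S.G) := (inferInstance : Finite S.G)
  obtain ⟨φ, hφ0, hφe, -, hφ⟩ := ETCE.prime_of_isolated (S := toD S) (x := Additive.ofMul x)
    (fun u v huv hu hv => hx (Additive.toMul u) (Additive.toMul v) huv hu hv)
    ⟨Additive.ofMul v, Additive.ofMul w, h3, h4, h5⟩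
  exact hS (hA (Additive S.G) S.Q (toD S) hT ⟨φ, hφ0, hφe, hφ⟩ S (qofd S))

/-! ### Structures of elementary type have isolated elements -/

theorem iso_transport {S T : QStruct} (h : Iso S T) (hx : ∃ x, Isolated S x) :
    ∃ x, Isolated T x := by
  obtain ⟨e, he, h1⟩ := h
  obtain ⟨x, hx1, hx2⟩ := hx
  have hz : ∀ a b, S.q a b = S.zero ↔ T.q (e a) (e b) = T.zero := by
    intro a b
    have := h1 a b 1 1
    rwa [S.q_one, map_one, T.q_one] at this
  refine ⟨e x, fun h => hx1 (e.injective (h.trans (map_one e).symm)), fun u v huv hu hv => ?_⟩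
  obtain ⟨u, rfl⟩ := e.surjective u
  obtain ⟨v, rfl⟩ := e.surjective v
  rw [ne_eq, ← hz] at hu hv
  rw [← hz] at huv
  rw [← he, ← map_mul, ← map_mul, ← map_mul, ← map_mul, ← hz, ← hz, ← hz]
  exact hx2 u v huv hu hv

theorem iso_prod_left {S T : QStruct} (hx : ∃ x, Isolated S x) :
    ∃ x, Isolated (QS.prod S T) x := by
  obtain ⟨x, hx1, hx2⟩ := hx
  have hz : ∀ w : S.G × T.G, (QS.prod S T).q (x, 1) w = (QS.prod S T).zero ↔
      S.q x w.1 = S.zero := by
    intro w
    constructor
    · exact fun h => congrArg Prod.fst h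
    · exact fun h => Prod.ext h (by
        show T.q 1 w.2 = T.zero
        rw [T.qs2, T.q_one])
  refine ⟨(x, 1), fun h => hx1 (congrArg Prod.fst h), fun u v huv hu hv => ?_⟩
  rcases hx2 u.1 v.1 (congrArg Prod.fst huv) (fun h => hu ((hz u).2 h))
    (fun h => hv ((hz v).2 h)) with h | ⟨h, h'⟩
  · exact Or.inl ((hz _).2 h)
  · exact Or.inr ⟨(hz _).2 h, (hz _).2 h'⟩

theorem iso_prod_right {S T : QStruct} (hx : ∃ x, Isolated T x) :
    ∃ x, Isolated (QS.prod S T) x := by
  obtain ⟨x, hx1, hx2⟩ := hx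
  have hz : ∀ w : S.G × T.G, (QS.prod S T).q (1, x) w = (QS.prod S T).zero ↔
      T.q x w.2 = T.zero := by
    intro w
    constructor
    · exact fun h => congrArg Prod.snd h
    · exact fun h => Prod.ext (by
        show S.q 1 w.1 = S.zero
        rw [S.qs2, S.q_one]) h
  refine ⟨(1, x), fun h => hx1 (congrArg Prod.snd h), fun u v huv hu hv => ?_⟩
  rcases hx2 u.2 v.2 (congrArg Prod.snd huv) (fun h => hu ((hz u).2 h))
    (fun h => hv ((hz v).2 h)) with h | ⟨h, h'⟩
  · exact Or.inl ((hz _).2 h)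
  · exact Or.inr ⟨(hz _).2 h, (hz _).2 h'⟩

theorem ext_zero_iff (S : QStruct) (u v : (QS.ext S).G) :
    (QS.ext S).q u v = (QS.ext S).zero ↔ extMap S u v = (S.zero, 1) := Subtype.ext_iff

theorem iso_ext {S : QStruct} (hx : ∃ x, Isolated S x) : ∃ x, Isolated (QS.ext S) x := by
  obtain ⟨x, hx1, hx2⟩ := hx
  have h0 : ∀ w : (QS.ext S).G, w.2 = 1 →
      ((QS.ext S).q (x, 1) w = (QS.ext S).zero ↔ S.q x w.1 = S.zero) := by
    rintro ⟨b, β⟩ hw
    obtain rfl : β = 1 := hw
    refine (ext_zero_iff S (x, 1) (b, 1)).trans ?_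
    rw [extMap_one_one, Prod.mk.injEq]
    exact ⟨fun h => h.1, fun h => ⟨h, rfl⟩⟩
  have hm1 : ∀ u v : (QS.ext S).G, (u * v).1 = u.1 * v.1 := fun _ _ => rfl
  have hm2 : ∀ u v : (QS.ext S).G, (u * v).2 = u.2 * v.2 := fun _ _ => rfl
  have hn1 : (QS.ext S).neg.1 = S.neg := rfl
  have hn2 : (QS.ext S).neg.2 = 1 := rfl
  refine ⟨(x, 1), fun h => hx1 (congrArg Prod.fst h), fun u v huv hu hv => ?_⟩
  have huv' := (ext_zero_iff S u v).1 huv
  rcases two_cases u.2 with hu2 | hu2
  · have hu' : S.q x u.1 ≠ S.zero := fun h => hu ((h0 u hu2).2 h)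
    rcases two_cases v.2 with hv2 | hv2
    · have hv' : S.q x v.1 ≠ S.zero := fun h => hv ((h0 v hv2).2 h)
      have h1 : S.q u.1 v.1 = S.zero := congrArg Prod.fst huv'
      have e1 : (u * v * (QS.ext S).neg).2 = 1 := by
        rw [hm2, hm2, hu2, hv2, hn2, mul_one, mul_one]
      have e2 : ∀ w : (QS.ext S).G, w.2 = 1 → (w * (QS.ext S).neg).2 = 1 := by
        intro w hw
        rw [hm2, hw, hn2, mul_one]
      rcases hx2 u.1 v.1 h1 hu' hv' with h | ⟨h, h'⟩
      · exact Or.inl ((h0 _ e1).2 h)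
      · exact Or.inr ⟨(h0 _ (e2 u hu2)).2 h, (h0 _ (e2 v hv2)).2 h'⟩
    · exfalso
      have h1 : (extMap S (u.1, 1) (v.1, Multiplicative.ofAdd 1)) = (S.zero, 1) := by
        rw [← hu2, ← hv2]
        exact huv'
      rw [extMap_one_x, Prod.mk.injEq] at h1
      rw [h1.2, S.q_one] at hu'
      exact hu' rfl
  · rcases two_cases v.2 with hv2 | hv2
    · exfalso
      have hv' : S.q x v.1 ≠ S.zero := fun h => hv ((h0 v hv2).2 h)
      have h1 : (extMap S (u.1, Multiplicative.ofAdd 1) (v.1, 1)) = (S.zero, 1) := by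
        rw [← hu2, ← hv2]
        exact huv'
      rw [extMap_x_one, Prod.mk.injEq] at h1
      rw [h1.2, S.q_one] at hv'
      exact hv' rfl
    · left
      have e3 : extMap S (u.1, u.2) (v.1, v.2) = (S.zero, 1) := huv'
      have h1 : (extMap S (u.1, Multiplicative.ofAdd 1) (v.1, Multiplicative.ofAdd 1)) =
          (S.zero, 1) := by
        rw [hu2, hv2] at e3
        exact e3
      rw [extMap_x_x, Prod.mk.injEq] at h1
      have e1 : (u * v * (QS.ext S).neg).2 = 1 := by
        rw [hm2, hm2, hu2, hv2, hn2, x_mul_x, mul_one]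
      refine (h0 _ e1).2 ?_
      rw [hm1, hm1, hn1, show u.1 * v.1 * S.neg = S.neg * u.1 * v.1 by ac_rfl, h1.2, S.q_one]

theorem elem_isolated {S : QStruct} (h : ElemType S) : (∃ g : S.G, g ≠ 1) →
    ∃ x, Isolated S x := by
  induction h with
  | L0 S h =>
    rintro ⟨g, hg⟩
    exfalso
    have := (Nat.card_eq_one_iff_unique.1 h).1
    exact hg (Subsingleton.elim _ _)
  | L10 S h h1 h2 =>
    rintro ⟨g, hg⟩
    exact ⟨g, hg, fun u v _ hu => absurd (h2 g u) hu⟩
  | L11 S h h1 h2 =>
    rintro ⟨g, hg⟩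
    exact ⟨g, hg, fun u v _ hu => absurd (h2 g u) hu⟩
  | L1 S h h1 h2 =>
    rintro -
    have hG : ∀ a : S.G, a = 1 ∨ a = S.neg := by
      intro a
      have hf : Finite S.G := Nat.finite_of_card_ne_zero (by rw [h]; norm_num)
      by_contra hne
      push Not at hne
      have h3 : 3 ≤ Nat.card S.G := by
        classical
        have := Fintype.ofFinite S.G
        rw [Nat.card_eq_fintype_card]
        have h4 : ({1, S.neg, a} : Finset S.G).card = 3 := by
          rw [Finset.card_insert_of_notMem, Finset.card_insert_of_notMem,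
            Finset.card_singleton]
          · simpa using fun h => hne.2 h.symm
          · simp only [Finset.mem_insert, Finset.mem_singleton, not_or]
            exact ⟨fun h => h1 h.symm, fun h => hne.1 h.symm⟩
        rw [← h4]
        exact Finset.card_le_univ _
      omega
    refine ⟨S.neg, h1, fun u v huv hu hv => ?_⟩
    rcases hG u with rfl | rfl
    · exact absurd (S.q_one _) hu
    rcases hG v with rfl | rfl
    · exact absurd (S.q_one _) hv
    exact absurd huv h2
  | loc S hf h h1 h2 =>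
    rintro ⟨g, hg⟩
    have hQ : ∀ a b : S.G, S.q g a ≠ S.zero → S.q g b ≠ S.zero → S.q g (a * b) = S.zero := by
      intro a b ha hb
      rw [← S.qs3]
      have hf : Finite S.Q := Nat.finite_of_card_ne_zero (by rw [h2]; norm_num)
      by_contra hne
      have h3 : 3 ≤ Nat.card S.Q := by
        classical
        have := Fintype.ofFinite S.Q
        rw [Nat.card_eq_fintype_card]
        have h4 : ({S.zero, S.q g a, S.q g b} : Finset S.Q).card = 3 := by
          rw [Finset.card_insert_of_notMem, Finset.card_insert_of_notMem,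
            Finset.card_singleton]
          · simpa using hne
          · simp only [Finset.mem_insert, Finset.mem_singleton, not_or]
            exact ⟨fun h => ha h.symm, fun h => hb h.symm⟩
        rw [← h4]
        exact Finset.card_le_univ _
      omega
    refine ⟨g, hg, fun u v _ hu hv => ?_⟩
    by_cases hn : S.q g S.neg = S.zero
    · left
      rw [mul_comm, S.q_zero_mul hn]
      exact hQ u v hu hv
    · exact Or.inr ⟨hQ u _ hu hn, hQ v _ hv hn⟩
  | prod S T _ _ ihS ihT =>
    rintro ⟨g, hg⟩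
    by_cases h3 : g.1 = 1
    · exact iso_prod_right (ihT ⟨g.2, fun h => hg (Prod.ext h3 h)⟩)
    · exact iso_prod_left (ihS ⟨g.1, h3⟩)
  | ext S _ ih =>
    rintro -
    by_cases h2 : ∃ g : S.G, g ≠ 1
    · exact iso_ext (ih h2)
    · push Not at h2
      refine ⟨((1 : S.G), Multiplicative.ofAdd (1 : ZMod 2)), ?_, ?_⟩
      · intro h
        have h3 : Multiplicative.ofAdd (1 : ZMod 2) = 1 := congrArg Prod.snd h
        exact absurd h3 (by decide)
      · rintro ⟨b, β⟩ v _ hu
        exfalso
        apply hu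
        refine (ext_zero_iff S (1, Multiplicative.ofAdd 1) (b, β)).2 ?_
        refine Prod.ext ?_ (h2 _)
        show S.q 1 b = S.zero
        rw [S.qs2, S.q_one]
  | iso S T h1 _ ih =>
    rintro ⟨g, hg⟩
    obtain ⟨e, he, he'⟩ := h1
    refine iso_transport ⟨e, he, he'⟩ (ih ⟨e.symm g, fun h => hg ?_⟩)
    rw [← e.apply_symm_apply g, h, map_one]

/-! ### Structures of elementary type have prime hyperplanes -/

theorem prime_of_index_two {S : QStruct} (h2 : Nat.card S.G = 2)
    (h : ∀ v : S.G, v ≠ 1 → ∀ x y : S.G, S.q x v = S.zero → S.q y v = S.zero ∨ x = 1 ∨ y = 1) :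
    ∃ H, PrimeHyp S H := by
  refine ⟨⊥, by rw [Subgroup.index_bot, h2], ?_⟩
  rintro x y ⟨v, hv, hxv⟩ ⟨w, hw, hyw⟩ -
  rw [Subgroup.mem_bot] at hv hw
  rcases h v hv x y hxv with h3 | rfl | rfl
  · exact ⟨v, hv, hxv, h3⟩
  · exact ⟨w, hw, by rw [S.qs2, S.q_one], hyw⟩
  · exact ⟨v, hv, hxv, by rw [S.qs2, S.q_one]⟩

theorem prime_comap {S T : QStruct} (f : S.G →* T.G) (hf : Function.Surjective f)
    (h1 : ∀ x v, S.q x v = S.zero → T.q (f x) (f v) = T.zero)
    (h2 : ∀ x y t, T.q (f x) t = T.zero → T.q (f y) t = T.zero →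
      ∃ v, f v = t ∧ S.q x v = S.zero ∧ S.q y v = S.zero) (hx : ∃ H, PrimeHyp T H) :
    ∃ H, PrimeHyp S H := by
  obtain ⟨H, hH2, hH⟩ := hx
  refine ⟨H.comap f, by rw [Subgroup.index_comap_of_surjective H hf, hH2], ?_⟩
  rintro x y ⟨v, hv, hxv⟩ ⟨w, hw, hyw⟩ ⟨z, hz, hxyz⟩
  obtain ⟨t, ht, h3, h4⟩ := hH (f x) (f y) ⟨f v, hv, h1 _ _ hxv⟩ ⟨f w, hw, h1 _ _ hyw⟩
    ⟨f z, hz, by rw [← map_mul]; exact h1 _ _ hxyz⟩
  obtain ⟨v', rfl, h5, h6⟩ := h2 x y t h3 h4
  exact ⟨v', ht, h5, h6⟩

theorem card_mul_two : Nat.card (Multiplicative (ZMod 2)) = 2 := by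
  rw [Nat.card_congr Multiplicative.toAdd, Nat.card_zmod]

theorem prime_ext (S : QStruct) : ∃ H, PrimeHyp (QS.ext S) H := by
  let f : (QS.ext S).G →* Multiplicative (ZMod 2) := MonoidHom.snd S.G (Multiplicative (ZMod 2))
  have hfs : Function.Surjective f := Prod.snd_surjective
  have hf : ∀ u : (QS.ext S).G, u ∈ (⊥ : Subgroup (Multiplicative (ZMod 2))).comap f ↔
      u.2 = 1 := fun u => Iff.rfl
  refine ⟨(⊥ : Subgroup (Multiplicative (ZMod 2))).comap f, ?_, ?_⟩
  · rw [Subgroup.index_comap_of_surjective _ hfs, Subgroup.index_bot, card_mul_two]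
  · -- the elements of `G` which commute with an element outside are trivial
    have key : ∀ u : (QS.ext S).G, u.2 = 1 → (∃ v : (QS.ext S).G,
        v ∉ (⊥ : Subgroup (Multiplicative (ZMod 2))).comap f ∧
        (QS.ext S).q u v = (QS.ext S).zero) → u = 1 := by
      rintro u hu ⟨v, hv, huv⟩
      have hv2 : v.2 = Multiplicative.ofAdd 1 := (two_cases v.2).resolve_left hv
      have e3 : extMap S (u.1, u.2) (v.1, v.2) = (S.zero, 1) := (ext_zero_iff S u v).1 huv
      rw [hu, hv2, extMap_one_x, Prod.mk.injEq] at e3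
      exact Prod.ext e3.2 hu
    rintro x y ⟨v, hv, hxv⟩ ⟨w, hw, hyw⟩ hxy
    rcases two_cases x.2 with hx2 | hx2
    · obtain rfl := key x hx2 ⟨v, hv, hxv⟩
      exact ⟨w, hw, by rw [(QS.ext S).qs2, (QS.ext S).q_one], hyw⟩
    · rcases two_cases y.2 with hy2 | hy2
      · obtain rfl := key y hy2 ⟨w, hw, hyw⟩
        exact ⟨v, hv, hxv, by rw [(QS.ext S).qs2, (QS.ext S).q_one]⟩
      · have h3 : (x * y).2 = 1 := by
          show x.2 * y.2 = 1
          rw [hx2, hy2, x_mul_x]
        have h4 := key (x * y) h3 hxy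
        have h5 : x = y := (eq_iff_mul (QS.ext S) x y).2 h4
        subst h5
        exact ⟨v, hv, hxv, hxv⟩

theorem elem_prime {S : QStruct} (h : ElemType S) : (∃ g : S.G, g ≠ 1) →
    ∃ H, PrimeHyp S H := by
  induction h with
  | L0 S h =>
    rintro ⟨g, hg⟩
    exfalso
    have := (Nat.card_eq_one_iff_unique.1 h).1
    exact hg (Subsingleton.elim _ _)
  | L10 S h h1 h2 => exact fun _ => prime_of_index_two h fun v _ x y _ => Or.inl (h2 y v)
  | L11 S h h1 h2 => exact fun _ => prime_of_index_two h fun v _ x y _ => Or.inl (h2 y v)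
  | L1 S h h1 h2 =>
    intro _
    have hG : ∀ a : S.G, a = 1 ∨ a = S.neg := by
      intro a
      have hf : Finite S.G := Nat.finite_of_card_ne_zero (by rw [h]; norm_num)
      by_contra hne
      push Not at hne
      have h3 : 3 ≤ Nat.card S.G := by
        classical
        have := Fintype.ofFinite S.G
        rw [Nat.card_eq_fintype_card]
        have h4 : ({1, S.neg, a} : Finset S.G).card = 3 := by
          rw [Finset.card_insert_of_notMem, Finset.card_insert_of_notMem,
            Finset.card_singleton]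
          · simpa using fun h => hne.2 h.symm
          · simp only [Finset.mem_insert, Finset.mem_singleton, not_or]
            exact ⟨fun h => h1 h.symm, fun h => hne.1 h.symm⟩
        rw [← h4]
        exact Finset.card_le_univ _
      omega
    refine prime_of_index_two h fun v hv x y hxv => Or.inr (Or.inl ?_)
    rcases hG v with rfl | rfl
    · exact absurd rfl hv
    rcases hG x with rfl | rfl
    · rfl
    · exact absurd hxv h2
  | loc S hf h h1 h2 =>
    rintro ⟨g, hg⟩
    have hQ : ∀ x a b : S.G, S.q x a ≠ S.zero → S.q x b ≠ S.zero → S.q x (a * b) = S.zero := by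
      intro x a b ha hb
      rw [← S.qs3]
      have hf : Finite S.Q := Nat.finite_of_card_ne_zero (by rw [h2]; norm_num)
      by_contra hne
      have h3 : 3 ≤ Nat.card S.Q := by
        classical
        have := Fintype.ofFinite S.Q
        rw [Nat.card_eq_fintype_card]
        have h4 : ({S.zero, S.q x a, S.q x b} : Finset S.Q).card = 3 := by
          rw [Finset.card_insert_of_notMem, Finset.card_insert_of_notMem,
            Finset.card_singleton]
          · simpa using hne
          · simp only [Finset.mem_insert, Finset.mem_singleton, not_or]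
            exact ⟨fun h => ha h.symm, fun h => hb h.symm⟩
        rw [← h4]
        exact Finset.card_le_univ _
      omega
    -- multiplication rules
    have hz0 : ∀ x a b : S.G, S.q x a = S.zero → S.q x b = S.zero → S.q x (a * b) = S.zero :=
      fun x a b ha hb => by rw [S.q_zero_mul ha, hb]
    have hz1 : ∀ x a b : S.G, S.q x a = S.zero → S.q x b ≠ S.zero → S.q x (a * b) ≠ S.zero :=
      fun x a b ha hb => by rwa [S.q_zero_mul ha]
    obtain ⟨a0, ha0⟩ : ∃ a, S.q g a ≠ S.zero := by
      by_contra hc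
      push Not at hc
      exact hg (h1 g hc)
    let H : Subgroup S.G :=
      { carrier := {v | S.q g v = S.zero}
        mul_mem' := fun {a b} ha hb => hz0 g a b ha hb
        one_mem' := S.q_one g
        inv_mem' := fun {a} ha => by
          show S.q g a⁻¹ = S.zero
          rw [inv_eq_of_mul_eq_one_left (S.exp_two a)]
          exact ha }
    have hH : ∀ v, v ∈ H ↔ S.q g v = S.zero := fun v => Iff.rfl
    refine ⟨H, ?_, ?_⟩
    · rw [Subgroup.index_eq_two_iff]
      refine ⟨a0, fun b => ?_⟩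
      by_cases hb : S.q g b = S.zero
      · exact Or.inr ⟨hb, hz1 g b a0 hb ha0⟩
      · exact Or.inl ⟨hQ g b a0 hb ha0, hb⟩
    · rintro x y ⟨a, ha, hxa⟩ ⟨b, hb, hyb⟩ ⟨c, hc, hxyc⟩
      by_cases hya : S.q y a = S.zero
      · exact ⟨a, ha, hxa, hya⟩
      by_cases hxb : S.q x b = S.zero
      · exact ⟨b, hb, hxb, hyb⟩
      have hxyc' : S.q x c = S.q y c := by
        rw [S.qs2 x c, S.qs2 y c, S.qs3, S.qs2]
        exact hxyc
      by_cases hxc : S.q x c = S.zero
      · exact ⟨c, hc, hxc, by rw [← hxyc', hxc]⟩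
      have hyc : S.q y c ≠ S.zero := by rwa [← hxyc']
      refine ⟨a * (b * c), ?_, ?_, ?_⟩
      · rw [hH]
        rw [hH] at ha hb hc
        intro hh
        have h5 := hQ g b c hb hc
        rw [mul_comm, S.q_zero_mul h5] at hh
        exact ha hh
      · exact hz0 x _ _ hxa (hQ x b c hxb hxc)
      · rw [show a * (b * c) = b * (a * c) by ac_rfl]
        exact hz0 y _ _ hyb (hQ y a c hya hyc)
  | prod S T _ _ ihS ihT =>
    rintro ⟨g, hg⟩
    by_cases h3 : g.1 = 1
    · refine prime_comap (S := QS.prod S T) (T := T) (MonoidHom.snd S.G T.G) Prod.snd_surjective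
        (fun x v h => congrArg Prod.snd h) (fun x y t h4 h5 => ⟨(1, t), rfl, ?_, ?_⟩)
        (ihT ⟨g.2, fun h => hg (Prod.ext h3 h)⟩)
      · exact Prod.ext (S.q_one _) h4
      · exact Prod.ext (S.q_one _) h5
    · refine prime_comap (S := QS.prod S T) (T := S) (MonoidHom.fst S.G T.G) Prod.fst_surjective
        (fun x v h => congrArg Prod.fst h) (fun x y t h4 h5 => ⟨(t, 1), rfl, ?_, ?_⟩)
        (ihS ⟨g.1, h3⟩)
      · exact Prod.ext h4 (T.q_one _)
      · exact Prod.ext h5 (T.q_one _)
  | ext S _ ih => exact fun _ => prime_ext S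
  | iso S T h1 _ ih =>
    rintro ⟨g, hg⟩
    obtain ⟨e, he, he'⟩ := h1
    have hz : ∀ a b, S.q a b = S.zero ↔ T.q (e a) (e b) = T.zero := by
      intro a b
      have := he' a b 1 1
      rwa [S.q_one, map_one, T.q_one] at this
    have hz' : ∀ a b, T.q a b = T.zero ↔ S.q (e.symm a) (e.symm b) = S.zero := by
      intro a b
      rw [hz, e.apply_symm_apply, e.apply_symm_apply]
    refine prime_comap (S := T) (T := S) e.symm.toMonoidHom e.symm.surjective
      (fun x v h => (hz' x v).1 h) (fun x y t h4 h5 => ⟨e t, e.symm_apply_apply t, ?_, ?_⟩)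
      (ih ⟨e.symm g, fun h => hg ?_⟩)
    · rw [hz', e.symm_apply_apply]
      exact h4
    · rw [hz', e.symm_apply_apply]
      exact h5
    · rw [← e.apply_symm_apply g, h, map_one]

/-- induction -/
theorem all_of {P : QStruct → Prop}
    (h : ∀ S : QStruct, Finite S.G → (∀ T : QStruct, Finite T.G →
      Nat.card T.G < Nat.card S.G → ElemType T) → P S → ElemType S)
    (hP : ∀ S : QStruct, Finite S.G → (∃ g : S.G, g ≠ 1) → P S) :
    ∀ S : QStruct, Finite S.G → ElemType S := by
  have key : ∀ n, ∀ S : QStruct, Finite S.G → Nat.card S.G = n → ElemType S := by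
    intro n
    induction n using Nat.strong_induction_on with
    | _ n ih =>
      intro S hf hn
      by_cases h1 : ∃ g : S.G, g ≠ 1
      · refine h S hf (fun T hT hc => ?_) (hP S hf h1)
        exact ih (Nat.card T.G) (by omega) T hT rfl
      · push Not at h1
        refine ElemType.L0 S ?_
        rw [Nat.card_eq_one_iff_unique]
        exact ⟨⟨fun a b => (h1 a).trans (h1 b).symm⟩, ⟨1⟩⟩
  exact fun S hf => key _ S hf rfl

/-- Theorem A* for quaternionic structures with arbitrary `-1`. -/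
theorem final (hA : Stmt_ASD) :
    (∀ S : QStruct, Finite S.G → (∀ T : QStruct, Finite T.G →
      Nat.card T.G < Nat.card S.G → ElemType T) → (∃ H, PrimeHyp S H) → ElemType S) ∧
    (∀ S : QStruct, Finite S.G → (∀ T : QStruct, Finite T.G →
      Nat.card T.G < Nat.card S.G → ElemType T) → (∃ x, Isolated S x) → ElemType S) ∧
    ((∀ S : QStruct, Finite S.G → ElemType S) ↔
      ∀ S : QStruct, Finite S.G → (∃ g : S.G, g ≠ 1) → ∃ H, PrimeHyp S H) ∧
    ((∀ S : QStruct, Finite S.G → ElemType S) ↔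
      ∀ S : QStruct, Finite S.G → (∃ g : S.G, g ≠ 1) → ∃ x, Isolated S x) := by
  have h1 : ∀ S : QStruct, Finite S.G → (∀ T : QStruct, Finite T.G →
      Nat.card T.G < Nat.card S.G → ElemType T) → (∃ H, PrimeHyp S H) → ElemType S :=
    fun S hf hT h => top_prime hA S hT h
  have h2 : ∀ S : QStruct, Finite S.G → (∀ T : QStruct, Finite T.G →
      Nat.card T.G < Nat.card S.G → ElemType T) → (∃ x, Isolated S x) → ElemType S :=
    fun S hf hT h => top_iso hA S hT h
  exact ⟨h1, h2, ⟨fun h S hf hg => elem_prime (h S hf) hg, fun h => all_of h1 h⟩,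
    fun h S hf hg => elem_isolated (h S hf) hg, fun h => all_of h2 h⟩

end Pool.Agent.ASE
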