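import Pool.Agent.ASE.LEM0
import Pool.Agent.ASE.SYM
import Pool.Agent.ASE.LOC
import Pool.Agent.ASE.P1L
import Pool.Agent.ASE.LEM2
import Pool.Agent.ASE.P1E
import Pool.Agent.ASE.P2S
import Pool.Agent.ASE.SBIL
import Pool.Agent.ASE.P23
import Pool.Agent.ASE.CNT
import Pool.Agent.ASE.INN
import Pool.Agent.ASE.DCP
import Pool.Agent.ASE.CMP
import Pool.Agent.ASE.RED
import Pool.Agent.ASE.SPL
import Pool.Agent.ASE.TOP

/-!
THEOREM A* FOR ARBITRARY `-1`: assembly of the modules.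
-/

set_option autoImplicit false

namespace Pool.Agent.ASE

theorem ASD : Stmt_ASD := asd_of (P1L_of LEM0 SYM LOC) LEM2 P1E P2S SBIL P23 CNT INN DCP CMP RED SPL

end Pool.Agent.ASE
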