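import Pool.Agent.ASE.Defs
import Pool.Agent.Lib_MP_d26ff6_al.Defs

/-!
THEOREM A* FOR ARBITRARY `-1`: statements of the modules (table `ase`).
Recipes: notes 1742 (e = 0), 1881 (ETC-13A), 1876 B (ETC-16B) and the Lean modules of
Pool/Agent/AST.  Every module proves `theorem XXX : Stmt_XXX` in Pool/Agent/ASE/XXX.lean.
-/

set_option autoImplicit false

namespace Pool.Agent.ASE

open scoped BigOperators
open QS Pool.Agent.RFT Pool.Agent.AST
open Pool.Agent.Helper58.PLine (QData)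

/-- Lemma 0: in a finite linked structure the set of slots determines the symbol -/
def Stmt_LEM0 : Prop := ∀ (U B : Type) [AddCommGroup U] [Module (ZMod 2) U] [AddCommGroup B]
  [Module (ZMod 2) B] [Finite U] (q : U →ₗ[ZMod 2] U →ₗ[ZMod 2] B) (e : U), LinkedE q e →
  ∀ c c' : B, (∀ x, (∃ y, q x y = c) ↔ ∃ y, q x y = c') → (∃ x y, q x y = c) → c = c'

/-- symbols of `H` have components -/
def Stmt_SYM : Prop := ∀ (V B : Type) [AddCommGroup V] [Module (ZMod 2) V] [AddCommGroup B]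
  [Module (ZMod 2) B] (q : V →ₗ[ZMod 2] V →ₗ[ZMod 2] B) (φ : V →ₗ[ZMod 2] ZMod 2) (e : V),
  SitH q φ e → ∀ (k : ℕ) (C : HC q φ k),
  (∀ x y x' y', φ x = 0 → φ y = 0 → φ x' = 0 → φ y' = 0 → q x y = q x' y' →
    ∀ j, q (C.p j x) (C.p j y) = q (C.p j x') (C.p j y')) ∧
  (∀ x y, φ x = 0 → φ y = 0 → q x y = ∑ j, q (C.p j x) (C.p j y)) ∧
  (∀ x y g, φ x = 0 → φ y = 0 → φ g = 0 → (QH q φ g (q x y) ↔
    ∀ j, QH q φ (C.p j g) (q (C.p j x) (C.p j y)))) ∧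
  (∀ j v y, C.p j v = v → φ y = 0 → q v y = q v (C.p j y))

/-- a local component (of any dimension) has one value `d` -/
def Stmt_LOC : Prop := ∀ (V B : Type) [AddCommGroup V] [Module (ZMod 2) V] [AddCommGroup B]
  [Module (ZMod 2) B] (q : V →ₗ[ZMod 2] V →ₗ[ZMod 2] B) (φ : V →ₗ[ZMod 2] ZMod 2) (e : V),
  SitH q φ e → ∀ (k : ℕ) (C : HC q φ k) (i : Fin k), C.Loc i → ∃ d, d ≠ 0 ∧
  (∀ v w, φ w = 0 → q (C.p i v) w = 0 ∨ q (C.p i v) w = d) ∧
  ∀ v, C.p i v ≠ 0 → ∃ w, C.p i w = w ∧ q (C.p i v) w = d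

/-- Proposition 1, some component is local of dimension at least two -/
def Stmt_P1L : Prop := ∀ (V B Q : Type) [AddCommGroup V] [Module (ZMod 2) V] [AddCommGroup B]
  [Module (ZMod 2) B] [Finite V] (D : QData V Q) (q : V →ₗ[ZMod 2] V →ₗ[ZMod 2] B)
  (φ : V →ₗ[ZMod 2] ZMod 2), SitS D q φ → ∀ (k : ℕ) (C : HC q φ k) (i : Fin k), LocC C i →
  P1S D φ

/-- Lemma 2: no total element is in `N` -/
def Stmt_LEM2 : Prop := ∀ (V B Q : Type) [AddCommGroup V] [Module (ZMod 2) V] [AddCommGroup B]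
  [Module (ZMod 2) B] [Finite V] (D : QData V Q) (q : V →ₗ[ZMod 2] V →ₗ[ZMod 2] B)
  (φ : V →ₗ[ZMod 2] ZMod 2), SitS D q φ → ∀ (k : ℕ) (C : HC q φ k)
  (τ : Fin k → (V →ₗ[ZMod 2] ZMod 2)), Fam C D.e τ → ∀ x, TotE C τ x → ¬ NS D φ x

/-- Proposition 1, no component is local of dimension at least two -/
def Stmt_P1E : Prop := ∀ (V B Q : Type) [AddCommGroup V] [Module (ZMod 2) V] [AddCommGroup B]
  [Module (ZMod 2) B] [Finite V] (D : QData V Q) (q : V →ₗ[ZMod 2] V →ₗ[ZMod 2] B)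
  (φ : V →ₗ[ZMod 2] ZMod 2), SitS D q φ → ∀ (k : ℕ) (C : HC q φ k)
  (τ : Fin k → (V →ₗ[ZMod 2] ZMod 2)), Fam C D.e τ → (∀ x, TotE C τ x → ¬ NS D φ x) → P1S D φ

/-- step (2), set valued -/
def Stmt_P2S : Prop := ∀ (V Q : Type) [AddCommGroup V] [Module (ZMod 2) V] (D : QData V Q)
  (φ : V →ₗ[ZMod 2] ZMod 2), SitD D φ → P1S D φ → P2S D φ

/-- once `N` is closed under addition there is a group valued map -/
def Stmt_SBIL : Prop := ∀ (V B Q : Type) [AddCommGroup V] [Module (ZMod 2) V] [AddCommGroup B]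
  [Module (ZMod 2) B] (D : QData V Q) (q : V →ₗ[ZMod 2] V →ₗ[ZMod 2] B)
  (φ : V →ₗ[ZMod 2] ZMod 2), SitS D q φ → P2S D φ →
  ∃ (B' : Type) (_ : AddCommGroup B') (_ : Module (ZMod 2) B')
  (q' : V →ₗ[ZMod 2] V →ₗ[ZMod 2] B'), LinkedE q' D.e ∧
  ∀ a b c d, q' a b = q' c d ↔ D.q a b = D.q c d

/-- steps (2), (3), group valued -/
def Stmt_P23 : Prop := ∀ (V B : Type) [AddCommGroup V] [Module (ZMod 2) V] [AddCommGroup B]
  [Module (ZMod 2) B] (q : V →ₗ[ZMod 2] V →ₗ[ZMod 2] B) (φ : V →ₗ[ZMod 2] ZMod 2) (e : V),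
  Sit q φ e → P1 q φ → P2 q φ ∧ P3 q φ

/-- step (4), counting -/
def Stmt_CNT : Prop := ∀ (V B : Type) [AddCommGroup V] [Module (ZMod 2) V] [AddCommGroup B]
  [Module (ZMod 2) B] [Finite V] (q : V →ₗ[ZMod 2] V →ₗ[ZMod 2] B) (φ : V →ₗ[ZMod 2] ZMod 2)
  (e : V), Sit q φ e → P2 q φ → P3 q φ → P4 q φ

/-- saturation of `N` -/
def Stmt_INN : Prop := ∀ (V B : Type) [AddCommGroup V] [Module (ZMod 2) V] [AddCommGroup B]
  [Module (ZMod 2) B] [Finite V] (q : V →ₗ[ZMod 2] V →ₗ[ZMod 2] B) (φ : V →ₗ[ZMod 2] ZMod 2)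
  (e : V), Sit q φ e → P2 q φ → P4 q φ → P5 q φ

/-- steps (5), (6), (7): the decomposition `V = N + V'` -/
def Stmt_DCP : Prop := ∀ (V B : Type) [AddCommGroup V] [Module (ZMod 2) V] [AddCommGroup B]
  [Module (ZMod 2) B] [Finite V] (q : V →ₗ[ZMod 2] V →ₗ[ZMod 2] B) (φ : V →ₗ[ZMod 2] ZMod 2)
  (e : V), Sit q φ e → P2 q φ → P3 q φ → P4 q φ → P5 q φ → Splits q

/-! ### The frame -/

/-- `S` is the quaternionic structure of the data `D` -/
def QOfD {V Q : Type} [AddCommGroup V] [Module (ZMod 2) V] (D : QData V Q) (S : QStruct) : Prop :=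
  ∃ f : Multiplicative V ≃* S.G, S.neg = f (Multiplicative.ofAdd D.e) ∧ ∀ a b : V,
    S.q (f (Multiplicative.ofAdd a)) (f (Multiplicative.ofAdd b)) = S.zero ↔ D.q a b = D.z

/-- all smaller structures are of elementary type -/
def Smaller (V : Type) : Prop := ∀ T : QStruct, Finite T.G → Nat.card T.G < Nat.card V → ElemType T

/-- Components and a group valued map for nondegenerate data of elementary type.  Here `H = V`
(`φ = 0`). -/
def Stmt_OSE : Prop := ∀ (V Q : Type) [AddCommGroup V] [Module (ZMod 2) V] [Finite V]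
  (D : QData V Q) (S : QStruct), QOfD D S → ElemType S → (∀ x, (∀ y, D.q x y = D.z) → x = 0) →
  ∃ (B : Type) (_ : AddCommGroup B) (_ : Module (ZMod 2) B)
  (q : V →ₗ[ZMod 2] V →ₗ[ZMod 2] B), (∀ a b c d, q a b = q c d ↔ D.q a b = D.q c d) ∧
  ∃ (k : ℕ) (C : HC q (0 : V →ₗ[ZMod 2] ZMod 2) k),
  ∀ j, OneC C j ∨ LocC C j ∨ ∃ τ, ExtC C D.e j τ

/-- components of `H` and a group valued map on `H` -/
def Stmt_CMP : Prop := ∀ (V Q : Type) [AddCommGroup V] [Module (ZMod 2) V] [Finite V]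
  (D : QData V Q) (φ : V →ₗ[ZMod 2] ZMod 2), SitD D φ → Smaller V →
  ∃ (B : Type) (_ : AddCommGroup B) (_ : Module (ZMod 2) B)
  (q : V →ₗ[ZMod 2] V →ₗ[ZMod 2] B), SitS D q φ ∧
  ∃ (k : ℕ) (C : HC q φ k), ∀ j, OneC C j ∨ LocC C j ∨ ∃ τ, ExtC C D.e j τ

/-- a minimal structure not of elementary type has no element of rank at most one and no birigid
element -/
def Stmt_RED : Prop := ∀ S : QStruct, Finite S.G → Smaller S.G → ¬ ElemType S →
  (∀ x : S.G, (∀ v w, S.q x v = S.zero ∨ S.q x w = S.zero ∨ S.q x (v * w) = S.zero) → x = 1) ∧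
  ∀ t : S.G, t ≠ 1 → t ≠ S.neg → (∀ v, S.q t v = S.zero → v = 1 ∨ v = t * S.neg) →
    ∃ v, S.q (t * S.neg) v = S.zero ∧ v ≠ 1 ∧ v ≠ t

/-- a structure that splits is of elementary type if the smaller ones are -/
def Stmt_SPL : Prop := ∀ (V B Q : Type) [AddCommGroup V] [Module (ZMod 2) V] [AddCommGroup B]
  [Module (ZMod 2) B] [Finite V] (D : QData V Q) (q : V →ₗ[ZMod 2] V →ₗ[ZMod 2] B),
  LinkedE q D.e → (∀ a b, q a b = 0 ↔ D.q a b = D.z) → Smaller V → Splits q →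
  ∀ S, QOfD D S → ElemType S

/-- Theorem A* for quaternionic data, arbitrary `-1` -/
def Stmt_ASD : Prop := ∀ (V Q : Type) [AddCommGroup V] [Module (ZMod 2) V] [Finite V]
  (D : QData V Q), Smaller V → (∃ φ : V →ₗ[ZMod 2] ZMod 2, φ ≠ 0 ∧ φ D.e = 0 ∧
    ∀ x y, (∃ v, D.q x v = D.z ∧ φ v = 1) → (∃ v, D.q y v = D.z ∧ φ v = 1) →
    (∃ v, D.q (x + y) v = D.z ∧ φ v = 1) → ∃ v, D.q x v = D.z ∧ D.q y v = D.z ∧ φ v = 1) →
  ∀ S, QOfD D S → ElemType S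

/-- Proposition 1, set valued -/
theorem p1s_all (h1 : Stmt_P1L) (h2 : Stmt_LEM2) (h3 : Stmt_P1E) {V B Q : Type} [AddCommGroup V]
    [Module (ZMod 2) V] [AddCommGroup B] [Module (ZMod 2) B] [Finite V] {D : QData V Q}
    {q : V →ₗ[ZMod 2] V →ₗ[ZMod 2] B} {φ : V →ₗ[ZMod 2] ZMod 2} (hS : SitS D q φ) {k : ℕ}
    (C : HC q φ k) (hC : ∀ j, OneC C j ∨ LocC C j ∨ ∃ τ, ExtC C D.e j τ) : P1S D φ := by
  by_cases h : ∃ i, LocC C i
  · obtain ⟨i, hi⟩ := h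
    exact h1 V B Q D q φ hS k C i hi
  · have h' : ∀ j, ∃ τ : V →ₗ[ZMod 2] ZMod 2, OneC C j ∨ ExtC C D.e j τ := by
      intro j
      rcases hC j with hj | hj | ⟨τ, hτ⟩
      · exact ⟨0, Or.inl hj⟩
      · exact absurd ⟨j, hj⟩ h
      · exact ⟨τ, Or.inr hτ⟩
    choose τ hτ using h'
    exact h3 V B Q D q φ hS k C τ hτ (h2 V B Q D q φ hS k C τ hτ)

/-- Theorem A* for data from the modules. -/
theorem asd_of (h1 : Stmt_P1L) (h2 : Stmt_LEM2) (h3 : Stmt_P1E) (h4 : Stmt_P2S) (h5 : Stmt_SBIL)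
    (h6 : Stmt_P23) (h7 : Stmt_CNT) (h8 : Stmt_INN) (h9 : Stmt_DCP) (h10 : Stmt_CMP)
    (h11 : Stmt_RED) (h12 : Stmt_SPL) : Stmt_ASD := by
  intro V Q _ _ _ D hsm ⟨φ, hφ0, hφe, hφ⟩ S hQ
  by_contra hS
  have hQ' := hQ
  obtain ⟨f, hf, hf'⟩ := hQ
  have hfin : Finite S.G := Finite.of_equiv _ f.toEquiv
  have hcard : Nat.card S.G = Nat.card V :=
    (Nat.card_congr (f.toEquiv : Multiplicative V ≃ S.G)).symm
  obtain ⟨hr1, hrg⟩ := h11 S hfin (fun T hT hc => hsm T hT (hcard ▸ hc)) hS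
  let g : V → S.G := fun v => f (Multiplicative.ofAdd v)
  have g0 : g 0 = 1 := map_one f
  have gadd : ∀ a b, g (a + b) = g a * g b := fun a b => map_mul f _ _
  have ginj : ∀ a b, g a = g b → a = b := fun a b h => f.injective h
  have gsurj : ∀ x, ∃ v, g v = x := by
    intro x
    obtain ⟨m, hm⟩ := f.surjective x
    exact ⟨Multiplicative.toAdd m, hm⟩
  have hz : ∀ a b, S.q (g a) (g b) = S.zero ↔ D.q a b = D.z := hf'
  have hSD : SitD D φ := by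
    refine ⟨hφe, fun x hx => ?_, fun t ht => ?_, hφ0, hφ⟩
    · apply ginj
      rw [g0]
      apply hr1
      intro v w
      obtain ⟨v, rfl⟩ := gsurj v
      obtain ⟨w, rfl⟩ := gsurj w
      rw [← gadd, hz, hz, hz]
      exact hx v w
    · obtain ⟨ht0, hte, ht1, ht2⟩ := ht
      have e1 : g (t + D.e) = g t * S.neg := by rw [gadd, hf]
      obtain ⟨v, hv, hv1, hv2⟩ := hrg (g t) (fun h => ht0 (ginj _ _ (h.trans g0.symm)))
        (fun h => hte (ginj _ _ (h.trans hf))) (by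
          intro v hv
          obtain ⟨v, rfl⟩ := gsurj v
          rcases ht1 v ((hz _ _).1 hv) with rfl | rfl
          · exact Or.inl g0
          · exact Or.inr e1)
      obtain ⟨v, rfl⟩ := gsurj v
      rw [← e1, hz] at hv
      rcases ht2 v hv with rfl | rfl
      · exact hv1 g0
      · exact hv2 rfl
  obtain ⟨B, _, _, q, hSS, k, C, hC⟩ := h10 V Q D φ hSD hsm
  have hP1 := p1s_all h1 h2 h3 hSS C hC
  have hP2 := h4 V Q D φ hSD hP1
  obtain ⟨B', _, _, q', hl, hq'⟩ := h5 V B Q D q φ hSS hP2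
  have hz' : ∀ a b, q' a b = 0 ↔ D.q a b = D.z := by
    intro a b
    have h3 := hq' a b 0 0
    rw [map_zero, dz] at h3
    exact h3
  have hSit : Sit q' φ D.e := by
    refine ⟨hl, hφe, ?_, ?_, hφ0, ?_⟩
    · intro x hx
      apply hSD.r1
      intro v w
      rw [← hz', ← hz', ← hz']
      exact hx v w
    · intro t ht
      apply hSD.rig t
      unfold BiRig at ht ⊢
      simpa only [hz'] using ht
    · intro x y
      simp only [hz']
      exact hφ x y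
  have hNN : ∀ x, NN q' φ x ↔ NS D φ x := by
    intro x
    unfold NN NS
    simp only [hz']
  have hP1' : P1 q' φ := by
    rintro z c hzz hzN ⟨a, ha, b, hb, rfl⟩ ⟨y, hy⟩
    obtain ⟨y', h3, h4⟩ := hP1 z a b hzz (fun h => hzN ((hNN z).2 h)) ha hb ⟨y, (hq' _ _ _ _).1 hy⟩
    exact ⟨y', h3, (hq' _ _ _ _).2 h4⟩
  obtain ⟨g2, g3⟩ := h6 V B' q' φ D.e hSit hP1'
  have g4 := h7 V B' q' φ D.e hSit g2 g3
  have g5 := h8 V B' q' φ D.e hSit g2 g4
  have g6 := h9 V B' q' φ D.e hSit g2 g3 g4 g5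
  exact hS (h12 V B' Q D q' hl hz' hsm g6 S hQ')

end Pool.Agent.ASE
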