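import Pool.Agent.ASE.Main
import Pool.Agent.AST.Main
import Pool.Agent.ETCE.MType
import Pool.Agent.ETCH.Main

/-!
Unmixed elements of finite quaternionic structures (library file for the hand-in).
-/

set_option autoImplicit false

namespace Pool.Agent.ASE.UM

open QS

/-- `S` has a prime hyperplane: a subgroup `H` of index two of `G` such that, for all `x, y`, if each
of `x`, `y` and `xy` commutes (`q (x, v) = 0`) with some element outside `H`, then `x` and `y`
commute with a common element outside `H`. -/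
def HasPrime (S : QStruct) : Prop :=
  ∃ H : Subgroup S.G, H.index = 2 ∧
    ∀ x y : S.G, (∃ v, v ∉ H ∧ S.q x v = S.zero) → (∃ v, v ∉ H ∧ S.q y v = S.zero) →
      (∃ v, v ∉ H ∧ S.q (x * y) v = S.zero) → ∃ v, v ∉ H ∧ S.q x v = S.zero ∧ S.q y v = S.zero

/-- `S` has an isolated element: an `x ≠ 1` such that for all `u, v` with `q (u, v) = 0`,
`q (x, u) ≠ 0`, `q (x, v) ≠ 0` one has `q (x, -uv) = 0` or `q (x, -u) = q (x, -v) = 0`. -/
def HasIsolated (S : QStruct) : Prop :=
  ∃ x : S.G, x ≠ 1 ∧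
    ∀ u v, S.q u v = S.zero → S.q x u ≠ S.zero → S.q x v ≠ S.zero →
      S.q x (u * v * S.neg) = S.zero ∨ (S.q x (u * S.neg) = S.zero ∧ S.q x (v * S.neg) = S.zero)

/-- `β` is a value of `x`: `β = q (x, y)` for some `y`. -/
def IsVal (S : QStruct) (β : S.Q) (x : S.G) : Prop := ∃ y, S.q x y = β

/-- `w` is unmixed: for every `z`, as soon as `w`, `z` and `wz` have a common nonzero value, every
common value of `w` and `z` is a value of `wz`. -/
def Unmixed (S : QStruct) (w : S.G) : Prop :=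
  ∀ (z : S.G) (α β : S.Q), α ≠ S.zero → IsVal S α w → IsVal S α z →
    IsVal S α (w * z) → IsVal S β w → IsVal S β z → IsVal S β (w * z)

/-- Unless the group `D = {w : q (w, -1) = 0}` is trivial, it contains an unmixed `w ≠ 1`. -/
def HasUnmixed (S : QStruct) : Prop :=
  (∃ w : S.G, w ≠ 1 ∧ S.q w S.neg = S.zero) → ∃ w : S.G, w ≠ 1 ∧ S.q w S.neg = S.zero ∧ Unmixed S w

/-! ### Unmixed elements -/

theorem unmixed_transport {S T : QStruct} (h : Iso S T) (hx : HasUnmixed S) : HasUnmixed T := by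
  obtain ⟨e, he, h1⟩ := h
  have hz : ∀ a b, S.q a b = S.zero ↔ T.q (e a) (e b) = T.zero := by
    intro a b
    have := h1 a b 1 1
    rwa [S.q_one, map_one, T.q_one] at this
  rintro ⟨w0, hw0, hw0'⟩
  obtain ⟨w0, rfl⟩ := e.surjective w0
  obtain ⟨w, hw1, hwn, hw⟩ := hx ⟨w0, fun h => hw0 (by rw [h, map_one]), by rwa [hz, he]⟩
  -- every quaternion of `T` comes from a quaternion of `S`
  have hQ : ∀ α : T.Q, ∃ α' : S.Q, (∀ x, IsVal S α' x ↔ IsVal T α (e x)) ∧
      (α ≠ T.zero → α' ≠ S.zero) := by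
    intro α
    obtain ⟨a, b, hab⟩ := T.surj α
    obtain ⟨a, rfl⟩ := e.surjective a
    obtain ⟨b, rfl⟩ := e.surjective b
    refine ⟨S.q a b, fun x => ⟨?_, ?_⟩, fun hα h => hα ?_⟩
    · rintro ⟨y, hy⟩
      exact ⟨e y, by rw [← hab]; exact (h1 _ _ _ _).1 hy⟩
    · rintro ⟨y, hy⟩
      obtain ⟨y, rfl⟩ := e.surjective y
      exact ⟨y, (h1 _ _ _ _).2 (hy.trans hab.symm)⟩
    · rw [← hab]
      exact (hz a b).1 h
  refine ⟨e w, fun h => hw1 (e.injective (h.trans (map_one e).symm)), by rw [← he, ← hz]; exact hwn,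
    fun z α β h1 h2 h3 h4 h5 h6 => ?_⟩
  obtain ⟨z, rfl⟩ := e.surjective z
  obtain ⟨α', ha, ha'⟩ := hQ α
  obtain ⟨β', hb, -⟩ := hQ β
  rw [← map_mul] at h4 ⊢
  exact (hb _).1 (hw z α' β' (ha' h1) ((ha _).2 h2) ((ha _).2 h3) ((ha _).2 h4) ((hb _).2 h5)
    ((hb _).2 h6))

theorem unmixed_prod_left {S T : QStruct} {w : S.G} (hw1 : w ≠ 1) (hwn : S.q w S.neg = S.zero)
    (hw : Unmixed S w) : ∃ w : (QS.prod S T).G, w ≠ 1 ∧
      (QS.prod S T).q w (QS.prod S T).neg = (QS.prod S T).zero ∧ Unmixed (QS.prod S T) w := by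
  have key : ∀ (β : S.Q × T.Q), IsVal (QS.prod S T) β (w, 1) → β.2 = T.zero := by
    rintro β ⟨y, hy⟩
    have : T.q 1 y.2 = β.2 := congrArg Prod.snd hy
    rw [← this, T.qs2, T.q_one]
  have key2 : ∀ (β : S.Q × T.Q) (z : S.G × T.G), IsVal (QS.prod S T) β z → IsVal S β.1 z.1 := by
    rintro β z ⟨y, hy⟩
    exact ⟨y.1, congrArg Prod.fst hy⟩
  refine ⟨(w, 1), fun h => hw1 (congrArg Prod.fst h), Prod.ext hwn ?_,
    fun z α β h1 h2 h3 h4 h5 h6 => ?_⟩
  · show T.q 1 T.neg = T.zero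
    rw [T.qs2, T.q_one]
  have ha := key α h2
  have hb := key β h5
  obtain ⟨y, hy⟩ := hw z.1 α.1 β.1 (fun h => h1 (Prod.ext h ha)) (key2 α _ h2) (key2 α _ h3)
    (key2 α _ h4) (key2 β _ h5) (key2 β _ h6)
  refine ⟨(y, 1), Prod.ext hy ?_⟩
  rw [hb]
  exact T.q_one _

theorem unmixed_prod_right {S T : QStruct} {w : T.G} (hw1 : w ≠ 1) (hwn : T.q w T.neg = T.zero)
    (hw : Unmixed T w) : ∃ w : (QS.prod S T).G, w ≠ 1 ∧
      (QS.prod S T).q w (QS.prod S T).neg = (QS.prod S T).zero ∧ Unmixed (QS.prod S T) w := by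
  have key : ∀ (β : S.Q × T.Q), IsVal (QS.prod S T) β (1, w) → β.1 = S.zero := by
    rintro β ⟨y, hy⟩
    have : S.q 1 y.1 = β.1 := congrArg Prod.fst hy
    rw [← this, S.qs2, S.q_one]
  have key2 : ∀ (β : S.Q × T.Q) (z : S.G × T.G), IsVal (QS.prod S T) β z → IsVal T β.2 z.2 := by
    rintro β z ⟨y, hy⟩
    exact ⟨y.2, congrArg Prod.snd hy⟩
  refine ⟨(1, w), fun h => hw1 (congrArg Prod.snd h), Prod.ext ?_ hwn,
    fun z α β h1 h2 h3 h4 h5 h6 => ?_⟩
  · show S.q 1 S.neg = S.zero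
    rw [S.qs2, S.q_one]
  have ha := key α h2
  have hb := key β h5
  obtain ⟨y, hy⟩ := hw z.2 α.2 β.2 (fun h => h1 (Prod.ext ha h)) (key2 α _ h2) (key2 α _ h3)
    (key2 α _ h4) (key2 β _ h5) (key2 β _ h6)
  refine ⟨(1, y), Prod.ext ?_ hy⟩
  rw [hb]
  exact S.q_one _

theorem val_one {S : QStruct} {β : S.Q} (h : IsVal S β 1) : β = S.zero := by
  obtain ⟨y, hy⟩ := h
  rw [← hy, S.qs2, S.q_one]

theorem val_zero (S : QStruct) (x : S.G) : IsVal S S.zero x := ⟨1, S.q_one x⟩

/-- values of `(x, 1)` in the extension -/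
theorem val_ext_one {S : QStruct} {x : (QS.ext S).G} (hx : x.2 = 1) {β : (QS.ext S).Q} :
    IsVal (QS.ext S) β x ↔ IsVal S β.1.1 x.1 ∧ (β.1.2 = 1 ∨ β.1.2 = x.1) := by
  have hex : ∀ v : (QS.ext S).G, (QS.ext S).q x v = β ↔ extMap S (x.1, x.2) (v.1, v.2) = β.1 :=
    fun v => Subtype.ext_iff
  constructor
  · rintro ⟨v, hv⟩
    have h1 := (hex v).1 hv
    rw [hx] at h1
    rcases two_cases v.2 with h2 | h2
    · rw [h2, extMap_one_one] at h1
      rw [← h1]
      exact ⟨⟨_, rfl⟩, Or.inl rfl⟩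
    · rw [h2, extMap_one_x] at h1
      rw [← h1]
      exact ⟨⟨_, rfl⟩, Or.inr rfl⟩
  · rintro ⟨⟨y, hy⟩, h | h⟩
    · refine ⟨(y, 1), (hex _).2 ?_⟩
      rw [hx, extMap_one_one]
      exact Prod.ext hy h.symm
    · refine ⟨(y, Multiplicative.ofAdd 1), (hex _).2 ?_⟩
      rw [hx, extMap_one_x]
      exact Prod.ext hy h.symm

/-- values of `(x, t)` in the extension -/
theorem val_ext_x {S : QStruct} {x : (QS.ext S).G} (hx : x.2 = Multiplicative.ofAdd 1)
    {β : (QS.ext S).Q} : IsVal (QS.ext S) β x ↔ β.1.1 = S.q x.1 β.1.2 := by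
  have hex : ∀ v : (QS.ext S).G, (QS.ext S).q x v = β ↔ extMap S (x.1, x.2) (v.1, v.2) = β.1 :=
    fun v => Subtype.ext_iff
  constructor
  · rintro ⟨v, hv⟩
    have h1 := (hex v).1 hv
    rw [hx, extMap_x] at h1
    rw [← h1]
  · intro h
    refine ⟨(β.1.2, 1), (hex _).2 ?_⟩
    rw [hx, extMap_x_one]
    exact Prod.ext h.symm rfl

theorem zero_ext {S : QStruct} {β : (QS.ext S).Q} :
    β = (QS.ext S).zero ↔ β.1.1 = S.zero ∧ β.1.2 = 1 :=
  (Subtype.ext_iff (a1 := β) (a2 := (QS.ext S).zero)).trans Prod.ext_iff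

theorem unmixed_ext {S : QStruct} {w : S.G} (hw1 : w ≠ 1) (hwn : S.q w S.neg = S.zero)
    (hw : Unmixed S w) : ∃ w : (QS.ext S).G, w ≠ 1 ∧
      (QS.ext S).q w (QS.ext S).neg = (QS.ext S).zero ∧ Unmixed (QS.ext S) w := by
  have hww : S.q w w = S.zero := by
    have := S.qs1 w
    rwa [S.q_zero_mul hwn] at this
  have hw' : ∃ w' : (QS.ext S).G, w'.1 = w ∧ w'.2 = 1 := ⟨(w, 1), rfl, rfl⟩
  obtain ⟨w', hwa, hw2⟩ := hw'
  refine ⟨w', fun h => hw1 ?_, ?_, fun z α β h1 h2 h3 h4 h5 h6 => ?_⟩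
  · rw [← hwa, h]
    rfl
  · rw [zero_ext]
    have e1 : ((QS.ext S).q w' (QS.ext S).neg).1 = extMap S (w'.1, w'.2) (S.neg, 1) := rfl
    rw [e1, hw2, hwa, extMap_one_one]
    exact ⟨hwn, rfl⟩
  have hm1 : (w' * z).1 = w * z.1 := by
    rw [← hwa]
    rfl
  have hm2 : (w' * z).2 = z.2 := by
    have : (w' * z).2 = w'.2 * z.2 := rfl
    rw [this, hw2, one_mul]
  rcases two_cases z.2 with hz | hz
  · rw [val_ext_one hw2, hwa] at h2 h5
    rw [val_ext_one hz] at h3 h6
    rw [val_ext_one (hm2.trans hz), hm1] at h4 ⊢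
    -- `z` is neither `1` nor `w`
    have hz1 : z.1 ≠ 1 := by
      intro h
      rw [h] at h3
      apply h1
      rw [zero_ext]
      exact ⟨val_one h3.1, h3.2.elim id id⟩
    have hzw : z.1 ≠ w := by
      intro h
      rw [h, S.exp_two] at h4
      apply h1
      rw [zero_ext]
      exact ⟨val_one h4.1, h4.2.elim id id⟩
    have h7 : ∀ γ : (QS.ext S).Q, (γ.1.2 = 1 ∨ γ.1.2 = w) → (γ.1.2 = 1 ∨ γ.1.2 = z.1) →
        γ.1.2 = 1 := by
      rintro γ (h | h) (h' | h')
      · exact h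
      · exact h
      · exact h'
      · exact absurd (h'.symm.trans h) hzw
    have ha2 := h7 α h2.2 h3.2
    have hb2 := h7 β h5.2 h6.2
    refine ⟨hw z.1 α.1.1 β.1.1 (fun h => h1 ?_) h2.1 h3.1 h4.1 h5.1 h6.1, Or.inl hb2⟩
    rw [zero_ext]
    exact ⟨h, ha2⟩
  · rw [val_ext_one hw2, hwa] at h5
    rw [val_ext_x hz] at h6
    rw [val_ext_x (hm2.trans hz), hm1, h6]
    rcases h5.2 with h | h
    · rw [h, S.q_one, S.q_one]
    · rw [h]
      show S.q z.1 w = S.q (w * z.1) w
      rw [S.qs2 (w * z.1), S.q_zero_mul hww, S.qs2]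

theorem unmixed_of_zero {S : QStruct} (h : ∀ a b, S.q a b = S.zero) (w : S.G) : Unmixed S w := by
  rintro z α β ha ⟨y, hy⟩
  exact absurd (hy.symm.trans (h w y)) ha

theorem elem_unmixed {S : QStruct} (h : ElemType S) : HasUnmixed S := by
  induction h with
  | L0 S h =>
    rintro ⟨g, hg, -⟩
    exfalso
    have := (Nat.card_eq_one_iff_unique.1 h).1
    exact hg (Subsingleton.elim _ _)
  | L10 S h h1 h2 => exact fun ⟨g, hg, hg'⟩ => ⟨g, hg, hg', unmixed_of_zero h2 g⟩
  | L11 S h h1 h2 => exact fun ⟨g, hg, hg'⟩ => ⟨g, hg, hg', unmixed_of_zero h2 g⟩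
  | L1 S h h1 h2 =>
    rintro ⟨g, hg, hg'⟩
    exfalso
    have hG : g = S.neg := by
      have hf : Finite S.G := Nat.finite_of_card_ne_zero (by rw [h]; norm_num)
      by_contra hne
      have h3 : 3 ≤ Nat.card S.G := by
        classical
        have := Fintype.ofFinite S.G
        rw [Nat.card_eq_fintype_card]
        have h4 : ({1, S.neg, g} : Finset S.G).card = 3 := by
          rw [Finset.card_insert_of_notMem, Finset.card_insert_of_notMem,
            Finset.card_singleton]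
          · simpa using fun h => hne h.symm
          · simp only [Finset.mem_insert, Finset.mem_singleton, not_or]
            exact ⟨fun h => h1 h.symm, fun h => hg h.symm⟩
        rw [← h4]
        exact Finset.card_le_univ _
      omega
    rw [hG] at hg'
    exact h2 hg'
  | loc S hf h h1 h2 =>
    rintro ⟨g, hg, hg'⟩
    refine ⟨g, hg, hg', fun z α β ha _ _ h3 _ _ => ?_⟩
    by_cases hb : β = S.zero
    · rw [hb]
      exact val_zero S _
    · have hab : α = β := by
        have hfQ : Finite S.Q := Nat.finite_of_card_ne_zero (by rw [h2]; norm_num)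
        by_contra hne
        have h3 : 3 ≤ Nat.card S.Q := by
          classical
          have := Fintype.ofFinite S.Q
          rw [Nat.card_eq_fintype_card]
          have h4 : ({S.zero, α, β} : Finset S.Q).card = 3 := by
            rw [Finset.card_insert_of_notMem, Finset.card_insert_of_notMem,
              Finset.card_singleton]
            · simpa using hne
            · simp only [Finset.mem_insert, Finset.mem_singleton, not_or]
              exact ⟨fun h => ha h.symm, fun h => hb h.symm⟩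
          rw [← h4]
          exact Finset.card_le_univ _
        omega
      rw [← hab]
      exact h3
  | prod S T _ _ ihS ihT =>
    rintro ⟨g, hg, hg'⟩
    have h1 : S.q g.1 S.neg = S.zero := congrArg Prod.fst hg'
    have h2 : T.q g.2 T.neg = T.zero := congrArg Prod.snd hg'
    by_cases h3 : g.1 = 1
    · obtain ⟨w, a1, a2, a3⟩ := ihT ⟨g.2, fun h => hg (Prod.ext h3 h), h2⟩
      exact unmixed_prod_right a1 a2 a3
    · obtain ⟨w, a1, a2, a3⟩ := ihS ⟨g.1, h3, h1⟩
      exact unmixed_prod_left a1 a2 a3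
  | ext S _ ih =>
    rintro ⟨g, hg, hg'⟩
    by_cases h2 : ∃ w : S.G, w ≠ 1 ∧ S.q w S.neg = S.zero
    · obtain ⟨w, a1, a2, a3⟩ := ih h2
      exact unmixed_ext a1 a2 a3
    · push Not at h2
      -- the second component of `g` is not trivial, so `-1 = 1` and the group is trivial
      rw [zero_ext] at hg'
      have e1 : ((QS.ext S).q g (QS.ext S).neg).1 = extMap S (g.1, g.2) (S.neg, 1) := rfl
      rw [e1] at hg'
      have hneg : S.neg = 1 := by
        rcases two_cases g.2 with h | h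
        · rw [h, extMap_one_one] at hg'
          exfalso
          exact h2 g.1 (fun h' => hg (Prod.ext h' h)) hg'.1
        · rw [h, extMap_x_one] at hg'
          exact hg'.2
      have hG : ∀ a : S.G, a = 1 := by
        intro a
        by_contra ha
        apply h2 a ha
        rw [hneg, S.q_one]
      have hz : ∀ a b, (QS.ext S).q a b = (QS.ext S).zero := by
        intro a b
        rw [zero_ext]
        refine ⟨?_, hG _⟩
        show S.q a.1 b.1 = S.zero
        rw [hG b.1, S.q_one]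
      exact ⟨g, hg, hz _ _, unmixed_of_zero hz g⟩
  | iso S T h1 _ ih => exact unmixed_transport h1 ih

/-- an unmixed `w` with `q (w, -1) = 0` is isolated; without such elements `S` is pythagorean -/
theorem isolated_of_unmixed {S : QStruct} [Finite S.G] (h : HasUnmixed S) :
    ElemType S ∨ HasIsolated S := by
  by_cases h0 : ∃ w : S.G, w ≠ 1 ∧ S.q w S.neg = S.zero
  · right
    obtain ⟨w, hw1, hwn, hw⟩ := h h0
    let _ := modG S
    have hfin : Finite (Additive S.G) := (inferInstance : Finite S.G)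
    refine ⟨w, hw1, fun u v huv hu hv => ?_⟩
    exact ETCE.iso_of_noMixed (S := toD S) (w := Additive.ofMul w) hwn
      (fun z α β ha h1 h2 h3 h4 h5 => hw (Additive.toMul z) α β ha h1 h2 h3 h4 h5)
      (Additive.ofMul u) (Additive.ofMul v) huv hu hv
  · left
    push Not at h0
    refine ETCG.few_struct S inferInstance ?_
    have : Subsingleton {a : S.G // S.q S.neg a = S.zero} := by
      constructor
      rintro ⟨a, ha⟩ ⟨b, hb⟩
      have h1 : ∀ c : S.G, S.q S.neg c = S.zero → c = 1 := by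
        intro c hc
        by_contra hc1
        apply h0 c hc1
        rw [S.qs2]
        exact hc
      exact Subtype.ext ((h1 a ha).trans (h1 b hb).symm)
    exact (Finite.card_le_one_iff_subsingleton.2 this).trans (by norm_num)

theorem ast_isolated {S : QStruct} (hneg : S.neg = 1) (h : HasIsolated S) :
    ∃ x, AST.Isolated S x := by
  obtain ⟨x, hx1, hx⟩ := h
  refine ⟨x, hx1, fun v hv w hw => ?_⟩
  by_cases h1 : S.q x w = S.zero
  · exact Or.inl h1
  · rcases hx v w hw hv h1 with h2 | ⟨h2, -⟩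
    · rw [hneg, mul_one] at h2
      exact Or.inr h2
    · rw [hneg, mul_one] at h2
      exact absurd h2 hv

end Pool.Agent.ASE.UM
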